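import Pool.Agent.W_MP_4481e3_low.SndT

/-!
Verified approximations of cosines, and of the tests.
-/

namespace Pool.Agent.W_MP_4481e3_an.Ev

/-- scale for the cosine computations -/
def UU : ℕ := 1267650600228229401496703205376

/-- `d ↦ 4 d - 2 d ^ 2`, then compare with the target -/
def cosAux (tgt : ℕ) : ℕ → ℕ → Bool
  | 0, D => Nat.ble (10 * (D * 16777216)) (10 * (tgt * UU) + 9 * UU) &&
      Nat.ble (10 * (tgt * UU)) (10 * (D * 16777216) + 9 * UU)
  | k + 1, D => Nat.ble D (2 * UU) && cosAux tgt k ((4 * D * UU - 2 * D * D) / UU)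

/-- check of `1 - cos (2 π p / q) ≈ tgt / 2 ^ 24` -/
def cosChk (p q tgt : ℕ) : Bool :=
  Nat.ble p q && Nat.ble 1 q &&
    cosAux tgt 20 ((UU * 2 * 98696044010893586188 * p ^ 2) / (q ^ 2 * 1099511627776 * 10000000000000000000))

lemma one_sub_cos_double (x : ℝ) : 1 - Real.cos (2 * x) = 4 * (1 - Real.cos x) - 2 * (1 - Real.cos x) ^ 2 := by
  rw [Real.cos_two_mul]; ring

lemma UU_pos : (0:ℝ) < (UU:ℝ) := by unfold UU; norm_num

lemma cosAux_sound {tgt : ℕ} (k : ℕ) : ∀ {D : ℕ} {x η : ℝ}, 0 ≤ η →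
    |(1 - Real.cos x) - D / UU| ≤ η → cosAux tgt k D = true →
    |(1 - Real.cos (2 ^ k * x)) - tgt / 16777216| ≤ 4 ^ k * (η + 1 / UU) + 9 / 10 / 16777216 := by
  have hU := UU_pos
  induction k with
  | zero =>
    intro D x η hη h hc
    unfold cosAux at hc
    rw [Bool.and_eq_true] at hc
    have h1 := Nat.le_of_ble_eq_true hc.1
    have h2 := Nat.le_of_ble_eq_true hc.2
    have h1' : (10 * ((D:ℝ) * 16777216)) ≤ 10 * (tgt * UU) + 9 * UU := by exact_mod_cast h1
    have h2' : (10 * ((tgt:ℝ) * UU)) ≤ 10 * (D * 16777216) + 9 * UU := by exact_mod_cast h2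
    have h3 : |(D:ℝ) / UU - tgt / 16777216| ≤ 9 / 10 / 16777216 := by
      have e : (D:ℝ) / UU - tgt / 16777216 = (D * 16777216 - tgt * UU) / (UU * 16777216) := by
        field_simp
      rw [e, abs_div, abs_of_pos (show (0:ℝ) < UU * 16777216 by positivity), div_le_div_iff₀ (by positivity) (by norm_num)]
      have : |(D:ℝ) * 16777216 - tgt * UU| ≤ 9 / 10 * UU := by
        rw [abs_le]; constructor <;> linarith
      linarith only [this]
    simp only [pow_zero, one_mul]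
    have e2 : (1 - Real.cos x) - tgt / 16777216 = ((1 - Real.cos x) - D / UU) + ((D:ℝ) / UU - tgt / 16777216) := by ring
    rw [e2]
    refine (abs_add_le _ _).trans ?_
    have : 0 ≤ 1 / (UU:ℝ) := by positivity
    linarith
  | succ k ih =>
    intro D x η hη h hc
    unfold cosAux at hc
    rw [Bool.and_eq_true] at hc
    have h1 := Nat.le_of_ble_eq_true hc.1
    have h1' : (D:ℝ) ≤ 2 * UU := by exact_mod_cast h1
    have hD0 : (0:ℝ) ≤ D := Nat.cast_nonneg _
    set d := 1 - Real.cos x with hd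
    have hd0 : 0 ≤ d := by have := Real.cos_le_one x; linarith
    have hd2 : d ≤ 2 := by have := Real.neg_one_le_cos x; linarith
    have hsub : 2 * D * D ≤ 4 * D * UU := by
      calc 2 * D * D ≤ 2 * D * (2 * UU) := Nat.mul_le_mul_left _ h1
        _ = 4 * D * UU := by ring
    have l := div_lower (4 * D * UU - 2 * D * D) UU (by unfold UU; norm_num)
    have u := div_upper (4 * D * UU - 2 * D * D) UU
    rw [Nat.cast_sub hsub] at l u
    push_cast at l u
    have hv : (4 * (D:ℝ) * UU - 2 * D * D) / UU = UU * (4 * (D / UU) - 2 * (D / UU) ^ 2) := by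
      field_simp
    rw [hv] at l u
    set D' := (4 * D * UU - 2 * D * D) / UU with hD'
    set v := (D:ℝ) / UU with hvd
    have hv0 : 0 ≤ v := by positivity
    have hv2 : v ≤ 2 := by rw [hvd, div_le_iff₀ hU]; exact h1'
    have hD'v : |(4 * v - 2 * v ^ 2) - (D':ℝ) / (UU:ℝ)| ≤ 1 / (UU:ℝ) := by
      have e : (4 * v - 2 * v ^ 2) - (D':ℝ) / UU = (UU * (4 * v - 2 * v ^ 2) - D') / UU := by
        field_simp
      rw [e, abs_div, abs_of_pos hU]
      apply div_le_div_of_nonneg_right _ hU.le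
      rw [abs_le]; constructor <;> linarith
    have h4 : |(1 - Real.cos (2 * x)) - (D':ℝ) / (UU:ℝ)| ≤ 4 * η + 1 / (UU:ℝ) := by
      rw [one_sub_cos_double, ← hd]
      have e : 4 * d - 2 * d ^ 2 - (D':ℝ) / UU = (4 - 2 * (d + v)) * (d - v) + ((4 * v - 2 * v ^ 2) - (D':ℝ) / UU) := by ring
      rw [e]
      refine (abs_add_le _ _).trans ?_
      rw [abs_mul]
      have e2 : |4 - 2 * (d + v)| ≤ 4 := by rw [abs_le]; constructor <;> linarith
      have e3 : |4 - 2 * (d + v)| * |d - v| ≤ 4 * η := mul_le_mul e2 h (abs_nonneg _) (by norm_num)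
      linarith only [hD'v, e3]
    have hη' : 0 ≤ 4 * η + 1 / UU := by positivity
    have h5 := ih hη' h4 hc.2
    have e : (2:ℝ) ^ (k + 1) * x = 2 ^ k * (2 * x) := by ring
    rw [e]
    refine h5.trans ?_
    rw [pow_succ]
    have : 0 ≤ (4:ℝ) ^ k * (1 / UU) := by positivity
    linarith only [this]

lemma pi_sq_bound : |Real.pi ^ 2 - 98696044010893586188 / 10000000000000000000| ≤ 1 / 10 ^ 18 := by
  have h1 := Real.pi_gt_d20
  have h2 := Real.pi_lt_d20
  have h3 : (3.14159265358979323846:ℝ) ^ 2 ≤ Real.pi ^ 2 := by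
    apply pow_le_pow_left₀ (by norm_num) h1.le
  have h4 : Real.pi ^ 2 ≤ (3.14159265358979323847:ℝ) ^ 2 := by
    apply pow_le_pow_left₀ Real.pi_pos.le h2.le
  rw [abs_le]
  constructor
  · refine le_trans ?_ (sub_le_sub_right h3 _)
    norm_num
  · refine le_trans (sub_le_sub_right h4 _) ?_
    norm_num

theorem cosChk_sound {p q tgt : ℕ} (h : cosChk p q tgt = true) :
    |(1 - Real.cos (2 * Real.pi * ((p:ℝ) / q))) * 16777216 - tgt| ≤ 1 := by
  unfold cosChk at h
  rw [Bool.and_eq_true, Bool.and_eq_true] at h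
  obtain ⟨⟨h1, h2⟩, h3⟩ := h
  have h1 := Nat.le_of_ble_eq_true h1
  have h2 := Nat.le_of_ble_eq_true h2
  have hq : (0:ℝ) < q := by exact_mod_cast h2
  have hU := UU_pos
  have hx0 : 0 ≤ (p:ℝ) / q := by positivity
  have hx1 : (p:ℝ) / q ≤ 1 := by
    rw [div_le_one hq]; exact_mod_cast h1
  set x := (p:ℝ) / q with hx
  set φ := 2 * Real.pi * x / 2 ^ 20 with hφ
  have hφ0 : 0 ≤ φ := by have := Real.pi_pos; positivity
  have hφ1 : φ ≤ 6 / 1000000 := by
    rw [hφ, div_le_iff₀ (by norm_num)]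
    have : Real.pi < 3.1416 := Real.pi_lt_d4
    have : Real.pi * x ≤ 3.1416 * 1 := mul_le_mul this.le hx1 hx0 (by norm_num)
    norm_num
    linarith
  have hcos := Real.cos_bound (x := φ) (by rw [abs_of_nonneg hφ0]; linarith only [hφ1])
  rw [abs_of_nonneg hφ0] at hcos
  have hφ4 : φ ^ 4 ≤ (6 / 1000000) ^ 4 := pow_le_pow_left₀ hφ0 hφ1 4
  set D := (UU * 2 * 98696044010893586188 * p ^ 2) / (q ^ 2 * 1099511627776 * 10000000000000000000) with hD
  have hden : 0 < q ^ 2 * 1099511627776 * 10000000000000000000 := by positivity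
  have l := div_lower (UU * 2 * 98696044010893586188 * p ^ 2) (q ^ 2 * 1099511627776 * 10000000000000000000) hden
  have u := div_upper (UU * 2 * 98696044010893586188 * p ^ 2) (q ^ 2 * 1099511627776 * 10000000000000000000)
  rw [← hD] at l u
  push_cast at l u
  have hval : (UU:ℝ) * 2 * 98696044010893586188 * p ^ 2 / (q ^ 2 * 1099511627776 * 10000000000000000000) =
      UU * (2 * (98696044010893586188 / 10000000000000000000) * x ^ 2 / 2 ^ 40) := by
    rw [hx]
    field_simp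
    ring
  rw [hval] at l u
  have hφ2 : φ ^ 2 / 2 = 2 * Real.pi ^ 2 * x ^ 2 / 2 ^ 40 := by
    rw [hφ]; ring
  have hpi := pi_sq_bound
  set Pq : ℝ := 98696044010893586188 / 10000000000000000000 with hPq
  have e1 : |φ ^ 2 / 2 - 2 * Pq * x ^ 2 / 2 ^ 40| ≤ 1 / 10 ^ 29 := by
    rw [hφ2]
    have : 2 * Real.pi ^ 2 * x ^ 2 / 2 ^ 40 - 2 * Pq * x ^ 2 / 2 ^ 40 =
      (Real.pi ^ 2 - Pq) * (2 * x ^ 2 / 2 ^ 40) := by ring
    rw [this, abs_mul]
    have hb : |2 * x ^ 2 / 2 ^ 40| ≤ 2 / 2 ^ 40 := by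
      rw [abs_of_nonneg (by positivity)]
      have : x ^ 2 ≤ 1 := pow_le_one₀ hx0 hx1
      apply div_le_div_of_nonneg_right _ (by norm_num)
      linarith only [this]
    calc |Real.pi ^ 2 - Pq| * |2 * x ^ 2 / 2 ^ 40| ≤ (1 / 10 ^ 18) * (2 / 2 ^ 40) :=
          mul_le_mul hpi hb (abs_nonneg _) (by norm_num)
      _ ≤ 1 / 10 ^ 29 := by norm_num
  have e2 : |2 * Pq * x ^ 2 / 2 ^ 40 - D / UU| ≤ 1 / 10 ^ 29 := by
    have : 2 * Pq * x ^ 2 / 2 ^ 40 - D / UU = (UU * (2 * Pq * x ^ 2 / 2 ^ 40) - D) / UU := by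
      rw [sub_div, mul_div_cancel_left₀ _ hU.ne']
    rw [this, abs_div, abs_of_pos hU, div_le_iff₀ hU]
    have h5 : |UU * (2 * Pq * x ^ 2 / 2 ^ 40) - (D:ℝ)| ≤ 1 := by
      rw [abs_le]; constructor <;> linarith
    refine h5.trans ?_
    unfold UU
    norm_num
  have e3 : |(1 - Real.cos φ) - D / UU| ≤ 1 / 10 ^ 22 := by
    have : (1 - Real.cos φ) - D / UU = -(Real.cos φ - (1 - φ ^ 2 / 2)) +
        (φ ^ 2 / 2 - 2 * Pq * x ^ 2 / 2 ^ 40) + (2 * Pq * x ^ 2 / 2 ^ 40 - D / UU) := by ring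
    rw [this]
    refine (abs_add_three _ _ _).trans ?_
    rw [abs_neg]
    have h6 : φ ^ 4 * (5 / 96) ≤ (6 / 1000000) ^ 4 * (5 / 96) := by linarith only [hφ4]
    have h7 : ((6:ℝ) / 1000000) ^ 4 * (5 / 96) + 1 / 10 ^ 29 + 1 / 10 ^ 29 ≤ 1 / 10 ^ 22 := by norm_num
    linarith only [hcos, hφ4, e1, e2]
  have h8 := cosAux_sound 20 (by norm_num) e3 h3
  have h9 : (2:ℝ) ^ 20 * φ = 2 * Real.pi * x := by rw [hφ]; field_simp
  rw [h9] at h8
  have h10 : (4:ℝ) ^ 20 * (1 / 10 ^ 22 + 1 / UU) + 9 / 10 / 16777216 ≤ 1 / 16777216 := by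
    unfold UU; norm_num
  have h11 : |(1 - Real.cos (2 * Real.pi * x)) - (tgt:ℝ) / 16777216| ≤ 1 / 16777216 := h8.trans h10
  have e4 : (1 - Real.cos (2 * Real.pi * x)) * 16777216 - tgt =
      ((1 - Real.cos (2 * Real.pi * x)) - (tgt:ℝ) / 16777216) * 16777216 := by ring
  rw [e4, abs_mul, abs_of_pos (show (0:ℝ) < 16777216 by norm_num)]
  calc |(1 - Real.cos (2 * Real.pi * x)) - (tgt:ℝ) / 16777216| * 16777216 ≤ 1 / 16777216 * 16777216 :=
        mul_le_mul_of_nonneg_right h11 (by norm_num)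
    _ = 1 := by norm_num

/-- check of the steps of a test -/
def stepsChk (L s : ℕ) : ℕ → List ℕ → Bool
  | 0, [] => true
  | 0, _ :: _ => false
  | _ + 1, [] => false
  | i + 1, D :: l => cosChk (s % L ^ (i + 1)) (L ^ (i + 1)) D && stepsChk L s i l

lemma stepsChk_sound {L s : ℕ} (hL : 0 < L) (i : ℕ) : ∀ {l : List ℕ}, stepsChk L s i l = true → StepsOK L s i l := by
  induction i with
  | zero =>
    intro l h
    cases l with
    | nil => rfl
    | cons D l => exact absurd h (by simp [stepsChk])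
  | succ i ih =>
    intro l h
    cases l with
    | nil => exact absurd h (by simp [stepsChk])
    | cons D l =>
      unfold stepsChk at h
      rw [Bool.and_eq_true] at h
      refine ⟨D, l, rfl, ?_, ih h.2⟩
      have h1 := cosChk_sound h.1
      have hpos : 0 < L ^ (i + 1) := pow_pos hL _
      have h2 : (s:ℝ) / (L:ℝ) ^ (i + 1) = ((s / L ^ (i + 1) : ℕ) : ℝ) + ((s % L ^ (i + 1) : ℕ) : ℝ) / ((L ^ (i + 1) : ℕ) : ℝ) := by
        have h3 := Nat.div_add_mod s (L ^ (i + 1))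
        have h4 : (s:ℝ) = (L ^ (i + 1) : ℕ) * ((s / L ^ (i + 1) : ℕ) : ℝ) + ((s % L ^ (i + 1) : ℕ) : ℝ) := by
          exact_mod_cast h3.symm
        have hpos' : (0:ℝ) < ((L ^ (i + 1) : ℕ) : ℝ) := by exact_mod_cast hpos
        have h5 : (L:ℝ) ^ (i + 1) = ((L ^ (i + 1) : ℕ) : ℝ) := by push_cast; ring
        rw [h5]
        rw [div_eq_iff hpos'.ne']
        rw [add_mul, div_mul_cancel₀ _ hpos'.ne']
        linarith only [h4]
      rw [h2]
      have h6 := cos_int_add ((s / L ^ (i + 1) : ℕ) : ℤ) (((s % L ^ (i + 1) : ℕ) : ℝ) / ((L ^ (i + 1) : ℕ) : ℝ))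
      rw [Int.cast_natCast] at h6
      rw [h6]
      exact h1

/-- check of a test -/
def testChk (L s i d : ℕ) (l : List ℕ) : Bool :=
  Nat.ble (9 * s) (L ^ i) && Nat.ble (5054 * s ^ 2 * 16777216) (d * ((100 * L ^ 2 - 270) * L ^ (2 * i))) &&
    stepsChk L s i l

/-- check of a list of tests -/
def testsChk (L : ℕ) : List (ℕ × ℕ) → List (ℕ × List ℕ) → Bool
  | [], [] => true
  | [], _ :: _ => false
  | _ :: _, [] => false
  | (s, i) :: l, (d, m) :: l' => testChk L s i d m && testsChk L l l'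

lemma testChk_sound {L s i d : ℕ} {l : List ℕ} (hL : 3 ≤ L) (h : testChk L s i d l = true) :
    (s : ℝ) / (L:ℝ) ^ i ≤ 1 / 9 ∧ 16777216 * (kap L * ((s : ℝ) / (L:ℝ) ^ i) ^ 2) ≤ d ∧ StepsOK L s i l := by
  unfold testChk at h
  rw [Bool.and_eq_true, Bool.and_eq_true] at h
  obtain ⟨⟨h1, h2⟩, h3⟩ := h
  have h1 := Nat.le_of_ble_eq_true h1
  have h2 := Nat.le_of_ble_eq_true h2
  have hL3 : (3:ℝ) ≤ L := by exact_mod_cast hL
  have hLp : (0:ℝ) < L := by linarith only [hL3]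
  have hpos : (0:ℝ) < (L:ℝ) ^ i := by positivity
  have h1' : (9 * (s:ℝ)) ≤ (L:ℝ) ^ i := by exact_mod_cast h1
  have hLL : 270 ≤ 100 * L ^ 2 := by nlinarith only [hL]
  have h2' : (5054 * (s:ℝ) ^ 2 * 16777216) ≤ d * ((100 * (L:ℝ) ^ 2 - 270) * (L:ℝ) ^ (2 * i)) := by
    have : ((5054 * s ^ 2 * 16777216 : ℕ) : ℝ) ≤ ((d * ((100 * L ^ 2 - 270) * L ^ (2 * i)) : ℕ) : ℝ) := by
      exact_mod_cast h2
    rw [Nat.cast_mul, Nat.cast_mul, Nat.cast_mul d, Nat.cast_mul, Nat.cast_sub hLL] at this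
    push_cast at this
    exact this
  refine ⟨?_, ?_, stepsChk_sound (by omega) i h3⟩
  · rw [div_le_div_iff₀ hpos (by norm_num)]; linarith only [h1']
  · unfold kap
    have hk : (0:ℝ) < 100 * (L:ℝ) ^ 2 - 270 := by nlinarith only [hL3]
    have e : 16777216 * (5054 / (100 * (L:ℝ) ^ 2 - 270) * ((s:ℝ) / (L:ℝ) ^ i) ^ 2) =
      (5054 * (s:ℝ) ^ 2 * 16777216) / ((100 * (L:ℝ) ^ 2 - 270) * (L:ℝ) ^ (2 * i)) := by
      rw [mul_comm 2 i, pow_mul]
      field_simp
    rw [e, div_le_iff₀ (by positivity)]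
    exact h2'

theorem testsChk_sound {L : ℕ} (hL : 3 ≤ L) : ∀ {l : List (ℕ × ℕ)} {Ts : List (ℕ × List ℕ)},
    testsChk L l Ts = true → TestsOK L Ts := by
  intro l
  induction l with
  | nil =>
    intro Ts h
    cases Ts with
    | nil => intro x hx; exact absurd hx (by simp)
    | cons a b => exact absurd h (by simp [testsChk])
  | cons a l ih =>
    intro Ts h
    cases Ts with
    | nil => exact absurd h (by simp [testsChk])
    | cons b Ts =>
      obtain ⟨s, i⟩ := a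
      obtain ⟨d, m⟩ := b
      unfold testsChk at h
      rw [Bool.and_eq_true] at h
      intro x hx
      rcases List.mem_cons.1 hx with rfl | hx
      · exact ⟨s, i, testChk_sound hL h.1⟩
      · exact ih h.2 x hx

end Pool.Agent.W_MP_4481e3_an.Ev
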