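import Pool.Agent.W_MP_4481e3_low.Cells3a
import Pool.Agent.W_MP_4481e3_low.Cells3b
import Pool.Agent.W_MP_4481e3_low.Cells3c
import Pool.Agent.W_MP_4481e3_low.Cells3d
import Pool.Agent.W_MP_4481e3_low.Cells3e

/-!
The kill certificate for `L = 3`.
-/

namespace Pool.Agent.W_MP_4481e3_an.Ev

theorem n3_0 : Cov 3 1048576 1048576 524288 :=
  Cov.node (X' := 1572864) (Y' := 1572864) (h := 262144) (by norm_num) (by norm_num) (by norm_num)
    c3_2 (Cov.above (by norm_num)) c3_3 c3_4

theorem n3_1 : Cov 3 0 0 1048576 :=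
  Cov.node (X' := 1048576) (Y' := 1048576) (h := 524288) (by norm_num) (by norm_num) (by norm_num)
    c3_0 (Cov.above (by norm_num)) c3_1 n3_0

theorem n3_2 : Cov 3 2097152 0 1048576 :=
  Cov.node (X' := 3145728) (Y' := 1048576) (h := 524288) (by norm_num) (by norm_num) (by norm_num)
    c3_5 c3_6 c3_7 c3_8

theorem n3_3 : Cov 3 2097152 2097152 524288 :=
  Cov.node (X' := 2621440) (Y' := 2621440) (h := 262144) (by norm_num) (by norm_num) (by norm_num)
    c3_9 (Cov.above (by norm_num)) c3_10 c3_11

theorem n3_4 : Cov 3 3145728 2097152 524288 :=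
  Cov.node (X' := 3670016) (Y' := 2621440) (h := 262144) (by norm_num) (by norm_num) (by norm_num)
    c3_12 c3_13 c3_14 c3_15

theorem n3_5 : Cov 3 3145728 3145728 524288 :=
  Cov.node (X' := 3670016) (Y' := 3670016) (h := 262144) (by norm_num) (by norm_num) (by norm_num)
    c3_16 (Cov.above (by norm_num)) c3_17 c3_18

theorem n3_6 : Cov 3 2097152 2097152 1048576 :=
  Cov.node (X' := 3145728) (Y' := 3145728) (h := 524288) (by norm_num) (by norm_num) (by norm_num)
    n3_3 (Cov.above (by norm_num)) n3_4 n3_5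

theorem n3_7 : Cov 3 0 0 2097152 :=
  Cov.node (X' := 2097152) (Y' := 2097152) (h := 1048576) (by norm_num) (by norm_num) (by norm_num)
    n3_1 (Cov.above (by norm_num)) n3_2 n3_6

theorem n3_8 : Cov 3 4194304 1048576 524288 :=
  Cov.node (X' := 4718592) (Y' := 1572864) (h := 262144) (by norm_num) (by norm_num) (by norm_num)
    c3_20 c3_21 c3_22 c3_23

theorem n3_9 : Cov 3 5242880 0 524288 :=
  Cov.node (X' := 5767168) (Y' := 524288) (h := 262144) (by norm_num) (by norm_num) (by norm_num)
    c3_24 c3_25 c3_26 c3_27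

theorem n3_10 : Cov 3 5242880 1048576 524288 :=
  Cov.node (X' := 5767168) (Y' := 1572864) (h := 262144) (by norm_num) (by norm_num) (by norm_num)
    c3_28 c3_29 c3_30 c3_31

theorem n3_11 : Cov 3 4194304 0 1048576 :=
  Cov.node (X' := 5242880) (Y' := 1048576) (h := 524288) (by norm_num) (by norm_num) (by norm_num)
    c3_19 n3_8 n3_9 n3_10

theorem n3_12 : Cov 3 4194304 2097152 524288 :=
  Cov.node (X' := 4718592) (Y' := 2621440) (h := 262144) (by norm_num) (by norm_num) (by norm_num)
    c3_32 c3_33 c3_34 c3_35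

theorem n3_13 : Cov 3 4194304 3145728 524288 :=
  Cov.node (X' := 4718592) (Y' := 3670016) (h := 262144) (by norm_num) (by norm_num) (by norm_num)
    c3_36 c3_37 c3_38 c3_39

theorem n3_14 : Cov 3 5242880 2097152 524288 :=
  Cov.node (X' := 5767168) (Y' := 2621440) (h := 262144) (by norm_num) (by norm_num) (by norm_num)
    c3_40 c3_41 c3_42 c3_43

theorem n3_15 : Cov 3 5242880 3145728 524288 :=
  Cov.node (X' := 5767168) (Y' := 3670016) (h := 262144) (by norm_num) (by norm_num) (by norm_num)
    c3_44 c3_45 c3_46 c3_47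

theorem n3_16 : Cov 3 4194304 2097152 1048576 :=
  Cov.node (X' := 5242880) (Y' := 3145728) (h := 524288) (by norm_num) (by norm_num) (by norm_num)
    n3_12 n3_13 n3_14 n3_15

theorem n3_17 : Cov 3 6291456 0 524288 :=
  Cov.node (X' := 6815744) (Y' := 524288) (h := 262144) (by norm_num) (by norm_num) (by norm_num)
    c3_48 c3_49 c3_50 c3_51

theorem n3_18 : Cov 3 6291456 1048576 524288 :=
  Cov.node (X' := 6815744) (Y' := 1572864) (h := 262144) (by norm_num) (by norm_num) (by norm_num)
    c3_52 c3_53 c3_54 c3_55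

theorem n3_19 : Cov 3 7340032 0 524288 :=
  Cov.node (X' := 7864320) (Y' := 524288) (h := 262144) (by norm_num) (by norm_num) (by norm_num)
    c3_56 c3_57 c3_58 c3_59

theorem n3_20 : Cov 3 7340032 1048576 524288 :=
  Cov.node (X' := 7864320) (Y' := 1572864) (h := 262144) (by norm_num) (by norm_num) (by norm_num)
    c3_60 c3_61 c3_62 c3_63

theorem n3_21 : Cov 3 6291456 0 1048576 :=
  Cov.node (X' := 7340032) (Y' := 1048576) (h := 524288) (by norm_num) (by norm_num) (by norm_num)
    n3_17 n3_18 n3_19 n3_20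

theorem n3_22 : Cov 3 6291456 2097152 524288 :=
  Cov.node (X' := 6815744) (Y' := 2621440) (h := 262144) (by norm_num) (by norm_num) (by norm_num)
    c3_64 c3_65 c3_66 c3_67

theorem n3_23 : Cov 3 6291456 3145728 524288 :=
  Cov.node (X' := 6815744) (Y' := 3670016) (h := 262144) (by norm_num) (by norm_num) (by norm_num)
    c3_68 c3_69 c3_70 c3_71

theorem n3_24 : Cov 3 7340032 2097152 524288 :=
  Cov.node (X' := 7864320) (Y' := 2621440) (h := 262144) (by norm_num) (by norm_num) (by norm_num)
    c3_72 c3_73 c3_74 c3_75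

theorem n3_25 : Cov 3 7340032 3145728 524288 :=
  Cov.node (X' := 7864320) (Y' := 3670016) (h := 262144) (by norm_num) (by norm_num) (by norm_num)
    c3_76 c3_77 (Cov.out (by norm_num)) (Cov.out (by norm_num))

theorem n3_26 : Cov 3 6291456 2097152 1048576 :=
  Cov.node (X' := 7340032) (Y' := 3145728) (h := 524288) (by norm_num) (by norm_num) (by norm_num)
    n3_22 n3_23 n3_24 n3_25

theorem n3_27 : Cov 3 4194304 0 2097152 :=
  Cov.node (X' := 6291456) (Y' := 2097152) (h := 1048576) (by norm_num) (by norm_num) (by norm_num)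
    n3_11 n3_16 n3_21 n3_26

theorem n3_28 : Cov 3 4194304 4194304 524288 :=
  Cov.node (X' := 4718592) (Y' := 4718592) (h := 262144) (by norm_num) (by norm_num) (by norm_num)
    c3_78 (Cov.above (by norm_num)) c3_79 c3_80

theorem n3_29 : Cov 3 5242880 4194304 524288 :=
  Cov.node (X' := 5767168) (Y' := 4718592) (h := 262144) (by norm_num) (by norm_num) (by norm_num)
    c3_81 c3_82 c3_83 c3_84

theorem n3_30 : Cov 3 5242880 5242880 262144 :=
  Cov.node (X' := 5505024) (Y' := 5505024) (h := 131072) (by norm_num) (by norm_num) (by norm_num)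
    c3_85 (Cov.above (by norm_num)) c3_86 c3_87

theorem n3_31 : Cov 3 5767168 5242880 262144 :=
  Cov.node (X' := 6029312) (Y' := 5505024) (h := 131072) (by norm_num) (by norm_num) (by norm_num)
    c3_88 c3_89 c3_90 c3_91

theorem n3_32 : Cov 3 5767168 5767168 262144 :=
  Cov.node (X' := 6029312) (Y' := 6029312) (h := 131072) (by norm_num) (by norm_num) (by norm_num)
    c3_92 (Cov.above (by norm_num)) c3_93 (Cov.out (by norm_num))

theorem n3_33 : Cov 3 5242880 5242880 524288 :=
  Cov.node (X' := 5767168) (Y' := 5767168) (h := 262144) (by norm_num) (by norm_num) (by norm_num)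
    n3_30 (Cov.above (by norm_num)) n3_31 n3_32

theorem n3_34 : Cov 3 4194304 4194304 1048576 :=
  Cov.node (X' := 5242880) (Y' := 5242880) (h := 524288) (by norm_num) (by norm_num) (by norm_num)
    n3_28 (Cov.above (by norm_num)) n3_29 n3_33

theorem n3_35 : Cov 3 6291456 4194304 524288 :=
  Cov.node (X' := 6815744) (Y' := 4718592) (h := 262144) (by norm_num) (by norm_num) (by norm_num)
    c3_94 c3_95 c3_96 c3_97

theorem n3_36 : Cov 3 6291456 5242880 262144 :=
  Cov.node (X' := 6553600) (Y' := 5505024) (h := 131072) (by norm_num) (by norm_num) (by norm_num)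
    c3_98 c3_99 (Cov.out (by norm_num)) (Cov.out (by norm_num))

theorem n3_37 : Cov 3 6291456 5242880 524288 :=
  Cov.node (X' := 6815744) (Y' := 5767168) (h := 262144) (by norm_num) (by norm_num) (by norm_num)
    n3_36 (Cov.out (by norm_num)) (Cov.out (by norm_num)) (Cov.out (by norm_num))

theorem n3_38 : Cov 3 6291456 4194304 1048576 :=
  Cov.node (X' := 7340032) (Y' := 5242880) (h := 524288) (by norm_num) (by norm_num) (by norm_num)
    n3_35 n3_37 (Cov.out (by norm_num)) (Cov.out (by norm_num))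

theorem n3_39 : Cov 3 4194304 4194304 2097152 :=
  Cov.node (X' := 6291456) (Y' := 6291456) (h := 1048576) (by norm_num) (by norm_num) (by norm_num)
    n3_34 (Cov.above (by norm_num)) n3_38 (Cov.out (by norm_num))

theorem n3_40 : Cov 3 0 0 4194304 :=
  Cov.node (X' := 4194304) (Y' := 4194304) (h := 2097152) (by norm_num) (by norm_num) (by norm_num)
    n3_7 (Cov.above (by norm_num)) n3_27 n3_39

theorem cert3 : Cert 3 := Cov.cert n3_40

end Pool.Agent.W_MP_4481e3_an.Ev
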