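import Pool.Agent.W_MP_4481e3_low.Cells4

/-!
The kill certificate for `L = 4`.
-/

namespace Pool.Agent.W_MP_4481e3_an.Ev

theorem n4_0 : Cov 4 1048576 1048576 524288 :=
  Cov.node (X' := 1572864) (Y' := 1572864) (h := 262144) (by norm_num) (by norm_num) (by norm_num)
    c4_2 (Cov.above (by norm_num)) c4_3 c4_4

theorem n4_1 : Cov 4 0 0 1048576 :=
  Cov.node (X' := 1048576) (Y' := 1048576) (h := 524288) (by norm_num) (by norm_num) (by norm_num)
    c4_0 (Cov.above (by norm_num)) c4_1 n4_0

theorem n4_2 : Cov 4 2097152 0 1048576 :=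
  Cov.node (X' := 3145728) (Y' := 1048576) (h := 524288) (by norm_num) (by norm_num) (by norm_num)
    c4_5 c4_6 c4_7 c4_8

theorem n4_3 : Cov 4 2097152 2097152 524288 :=
  Cov.node (X' := 2621440) (Y' := 2621440) (h := 262144) (by norm_num) (by norm_num) (by norm_num)
    c4_9 (Cov.above (by norm_num)) c4_10 c4_11

theorem n4_4 : Cov 4 3145728 3145728 524288 :=
  Cov.node (X' := 3670016) (Y' := 3670016) (h := 262144) (by norm_num) (by norm_num) (by norm_num)
    c4_13 (Cov.above (by norm_num)) c4_14 c4_15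

theorem n4_5 : Cov 4 2097152 2097152 1048576 :=
  Cov.node (X' := 3145728) (Y' := 3145728) (h := 524288) (by norm_num) (by norm_num) (by norm_num)
    n4_3 (Cov.above (by norm_num)) c4_12 n4_4

theorem n4_6 : Cov 4 0 0 2097152 :=
  Cov.node (X' := 2097152) (Y' := 2097152) (h := 1048576) (by norm_num) (by norm_num) (by norm_num)
    n4_1 (Cov.above (by norm_num)) n4_2 n4_5

theorem n4_7 : Cov 4 4194304 2097152 1048576 :=
  Cov.node (X' := 5242880) (Y' := 3145728) (h := 524288) (by norm_num) (by norm_num) (by norm_num)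
    c4_17 c4_18 c4_19 c4_20

theorem n4_8 : Cov 4 6291456 2097152 1048576 :=
  Cov.node (X' := 7340032) (Y' := 3145728) (h := 524288) (by norm_num) (by norm_num) (by norm_num)
    c4_22 c4_23 c4_24 c4_25

theorem n4_9 : Cov 4 4194304 0 2097152 :=
  Cov.node (X' := 6291456) (Y' := 2097152) (h := 1048576) (by norm_num) (by norm_num) (by norm_num)
    c4_16 n4_7 c4_21 n4_8

theorem n4_10 : Cov 4 4194304 4194304 524288 :=
  Cov.node (X' := 4718592) (Y' := 4718592) (h := 262144) (by norm_num) (by norm_num) (by norm_num)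
    c4_26 (Cov.above (by norm_num)) c4_27 c4_28

theorem n4_11 : Cov 4 5242880 4194304 524288 :=
  Cov.node (X' := 5767168) (Y' := 4718592) (h := 262144) (by norm_num) (by norm_num) (by norm_num)
    c4_29 c4_30 c4_31 c4_32

theorem n4_12 : Cov 4 5767168 5767168 262144 :=
  Cov.node (X' := 6029312) (Y' := 6029312) (h := 131072) (by norm_num) (by norm_num) (by norm_num)
    c4_35 (Cov.above (by norm_num)) c4_36 (Cov.out (by norm_num))

theorem n4_13 : Cov 4 5242880 5242880 524288 :=
  Cov.node (X' := 5767168) (Y' := 5767168) (h := 262144) (by norm_num) (by norm_num) (by norm_num)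
    c4_33 (Cov.above (by norm_num)) c4_34 n4_12

theorem n4_14 : Cov 4 4194304 4194304 1048576 :=
  Cov.node (X' := 5242880) (Y' := 5242880) (h := 524288) (by norm_num) (by norm_num) (by norm_num)
    n4_10 (Cov.above (by norm_num)) n4_11 n4_13

theorem n4_15 : Cov 4 6291456 4194304 524288 :=
  Cov.node (X' := 6815744) (Y' := 4718592) (h := 262144) (by norm_num) (by norm_num) (by norm_num)
    c4_37 c4_38 c4_39 c4_40

theorem n4_16 : Cov 4 6291456 5242880 524288 :=
  Cov.node (X' := 6815744) (Y' := 5767168) (h := 262144) (by norm_num) (by norm_num) (by norm_num)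
    c4_41 (Cov.out (by norm_num)) (Cov.out (by norm_num)) (Cov.out (by norm_num))

theorem n4_17 : Cov 4 6291456 4194304 1048576 :=
  Cov.node (X' := 7340032) (Y' := 5242880) (h := 524288) (by norm_num) (by norm_num) (by norm_num)
    n4_15 n4_16 (Cov.out (by norm_num)) (Cov.out (by norm_num))

theorem n4_18 : Cov 4 4194304 4194304 2097152 :=
  Cov.node (X' := 6291456) (Y' := 6291456) (h := 1048576) (by norm_num) (by norm_num) (by norm_num)
    n4_14 (Cov.above (by norm_num)) n4_17 (Cov.out (by norm_num))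

theorem n4_19 : Cov 4 0 0 4194304 :=
  Cov.node (X' := 4194304) (Y' := 4194304) (h := 2097152) (by norm_num) (by norm_num) (by norm_num)
    n4_6 (Cov.above (by norm_num)) n4_9 n4_18

theorem cert4 : Cert 4 := Cov.cert n4_19

end Pool.Agent.W_MP_4481e3_an.Ev
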