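import Pool.Agent.W_MP_4481e3_low.Cells5

/-!
The kill certificate for `L = 5`.
-/

namespace Pool.Agent.W_MP_4481e3_an.Ev

theorem n5_0 : Cov 5 0 0 1048576 :=
  Cov.node (X' := 1048576) (Y' := 1048576) (h := 524288) (by norm_num) (by norm_num) (by norm_num)
    c5_0 (Cov.above (by norm_num)) c5_1 c5_2

theorem n5_1 : Cov 5 2097152 0 1048576 :=
  Cov.node (X' := 3145728) (Y' := 1048576) (h := 524288) (by norm_num) (by norm_num) (by norm_num)
    c5_3 c5_4 c5_5 c5_6

theorem n5_2 : Cov 5 2097152 2097152 524288 :=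
  Cov.node (X' := 2621440) (Y' := 2621440) (h := 262144) (by norm_num) (by norm_num) (by norm_num)
    c5_7 (Cov.above (by norm_num)) c5_8 c5_9

theorem n5_3 : Cov 5 3145728 3145728 524288 :=
  Cov.node (X' := 3670016) (Y' := 3670016) (h := 262144) (by norm_num) (by norm_num) (by norm_num)
    c5_11 (Cov.above (by norm_num)) c5_12 c5_13

theorem n5_4 : Cov 5 2097152 2097152 1048576 :=
  Cov.node (X' := 3145728) (Y' := 3145728) (h := 524288) (by norm_num) (by norm_num) (by norm_num)
    n5_2 (Cov.above (by norm_num)) c5_10 n5_3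

theorem n5_5 : Cov 5 0 0 2097152 :=
  Cov.node (X' := 2097152) (Y' := 2097152) (h := 1048576) (by norm_num) (by norm_num) (by norm_num)
    n5_0 (Cov.above (by norm_num)) n5_1 n5_4

theorem n5_6 : Cov 5 4194304 2097152 1048576 :=
  Cov.node (X' := 5242880) (Y' := 3145728) (h := 524288) (by norm_num) (by norm_num) (by norm_num)
    c5_15 c5_16 c5_17 c5_18

theorem n5_7 : Cov 5 6291456 2097152 1048576 :=
  Cov.node (X' := 7340032) (Y' := 3145728) (h := 524288) (by norm_num) (by norm_num) (by norm_num)
    c5_20 c5_21 c5_22 c5_23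

theorem n5_8 : Cov 5 4194304 0 2097152 :=
  Cov.node (X' := 6291456) (Y' := 2097152) (h := 1048576) (by norm_num) (by norm_num) (by norm_num)
    c5_14 n5_6 c5_19 n5_7

theorem n5_9 : Cov 5 4194304 4194304 524288 :=
  Cov.node (X' := 4718592) (Y' := 4718592) (h := 262144) (by norm_num) (by norm_num) (by norm_num)
    c5_24 (Cov.above (by norm_num)) c5_25 c5_26

theorem n5_10 : Cov 5 5242880 4194304 524288 :=
  Cov.node (X' := 5767168) (Y' := 4718592) (h := 262144) (by norm_num) (by norm_num) (by norm_num)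
    c5_27 c5_28 c5_29 c5_30

theorem n5_11 : Cov 5 5767168 5767168 262144 :=
  Cov.node (X' := 6029312) (Y' := 6029312) (h := 131072) (by norm_num) (by norm_num) (by norm_num)
    c5_33 (Cov.above (by norm_num)) c5_34 (Cov.out (by norm_num))

theorem n5_12 : Cov 5 5242880 5242880 524288 :=
  Cov.node (X' := 5767168) (Y' := 5767168) (h := 262144) (by norm_num) (by norm_num) (by norm_num)
    c5_31 (Cov.above (by norm_num)) c5_32 n5_11

theorem n5_13 : Cov 5 4194304 4194304 1048576 :=
  Cov.node (X' := 5242880) (Y' := 5242880) (h := 524288) (by norm_num) (by norm_num) (by norm_num)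
    n5_9 (Cov.above (by norm_num)) n5_10 n5_12

theorem n5_14 : Cov 5 6291456 4194304 524288 :=
  Cov.node (X' := 6815744) (Y' := 4718592) (h := 262144) (by norm_num) (by norm_num) (by norm_num)
    c5_35 c5_36 c5_37 c5_38

theorem n5_15 : Cov 5 6291456 5242880 524288 :=
  Cov.node (X' := 6815744) (Y' := 5767168) (h := 262144) (by norm_num) (by norm_num) (by norm_num)
    c5_39 (Cov.out (by norm_num)) (Cov.out (by norm_num)) (Cov.out (by norm_num))

theorem n5_16 : Cov 5 6291456 4194304 1048576 :=
  Cov.node (X' := 7340032) (Y' := 5242880) (h := 524288) (by norm_num) (by norm_num) (by norm_num)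
    n5_14 n5_15 (Cov.out (by norm_num)) (Cov.out (by norm_num))

theorem n5_17 : Cov 5 4194304 4194304 2097152 :=
  Cov.node (X' := 6291456) (Y' := 6291456) (h := 1048576) (by norm_num) (by norm_num) (by norm_num)
    n5_13 (Cov.above (by norm_num)) n5_16 (Cov.out (by norm_num))

theorem n5_18 : Cov 5 0 0 4194304 :=
  Cov.node (X' := 4194304) (Y' := 4194304) (h := 2097152) (by norm_num) (by norm_num) (by norm_num)
    n5_5 (Cov.above (by norm_num)) n5_8 n5_17

theorem cert5 : Cert 5 := Cov.cert n5_18

end Pool.Agent.W_MP_4481e3_an.Ev
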