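import Pool.Agent.W_MP_4481e3_low.BoundB
import Pool.Agent.W_MP_4481e3_an.Periodic

/-!
Two-sided limit leaves over the zero block.
-/

open MeasureTheory Filter Topology Set

namespace Pool.Agent.W_MP_4481e3_an

variable {α : ℂ} {L : ℕ}

/-- two-sided sequence of (real) leaves over the fixed base point `0` of the base map -/
structure Leaf (L : ℕ) (ε : ℂ) (P K : ℝ) (W : ℤ → ℝ → ℂ) : Prop where
  bd : ∀ m t, ‖W m t‖ ≤ P
  lip : ∀ m s t, ‖W m s - W m t‖ ≤ K * |s - t|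
  recur : ∀ m t, W (m + 1) (L * t) =
    W m t + (Real.cos (2 * Real.pi * t) : ℂ) * (ε ^ 2 - W m t ^ 2)
  near : ∀ ℓ > (0:ℝ), ∃ R > (0:ℝ), ∀ m a, (∃ t ∈ Icc a (a + ℓ), R ≤ ‖W m t - ε‖) ∧
    (∃ t ∈ Icc a (a + ℓ), R ≤ ‖W m t + ε‖)

/-- abstract compactness along an ultrafilter -/
lemma ultra_pack (U : Ultrafilter ℕ) {F : ℕ → ℝ → ℂ} {P K : ℝ}
    (hb : ∀ t, ∀ᶠ n in (U : Filter ℕ), ‖F n t‖ ≤ P)
    (hl : ∀ T : ℝ, ∀ᶠ n in (U : Filter ℕ), ∀ s t, |s| ≤ T → |t| ≤ T → ‖F n s - F n t‖ ≤ K * |s - t|) :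
    ∃ G : ℝ → ℂ, (∀ t, Tendsto (fun n => F n t) U (𝓝 (G t))) ∧ (∀ t, ‖G t‖ ≤ P) ∧
      (∀ s t, ‖G s - G t‖ ≤ K * |s - t|) ∧
      (∀ (a b R : ℝ) (p : ℂ), (∀ᶠ n in (U : Filter ℕ), ∃ t ∈ Icc a b, R ≤ ‖F n t - p‖) →
        ∃ t ∈ Icc a b, R ≤ ‖G t - p‖) := by
  have h1 : ∀ t, ∃ z, ‖z‖ ≤ P ∧ Tendsto (fun n => F n t) U (𝓝 z) := by
    intro t
    have hc : IsCompact (Metric.closedBall (0:ℂ) P) := isCompact_closedBall _ _
    obtain ⟨z, hz, hle⟩ := hc.ultrafilter_le_nhds (U.map (fun n => F n t)) (by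
      rw [le_principal_iff]
      show (fun n => F n t) ⁻¹' _ ∈ U
      filter_upwards [hb t] with n hn
      simpa using hn)
    exact ⟨z, by simpa using hz, hle⟩
  choose G hGb hG using h1
  have hlip : ∀ s t, ‖G s - G t‖ ≤ K * |s - t| := by
    intro s t
    refine le_of_tendsto ((hG s).sub (hG t)).norm ?_
    filter_upwards [hl (max |s| |t|)] with n hn
    exact hn s t (le_max_left _ _) (le_max_right _ _)
  refine ⟨G, hG, hGb, hlip, ?_⟩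
  intro a b R p hev
  -- choose the points
  obtain ⟨τ, hτ⟩ : ∃ τ : ℕ → ℝ, ∀ᶠ n in (U : Filter ℕ), τ n ∈ Icc a b ∧ R ≤ ‖F n (τ n) - p‖ := by
    classical
    refine ⟨fun n => if h : ∃ t ∈ Icc a b, R ≤ ‖F n t - p‖ then h.choose else 0, ?_⟩
    filter_upwards [hev] with n hn
    rw [dif_pos hn]
    exact hn.choose_spec
  obtain ⟨t, ht, hle⟩ := (isCompact_Icc (a := a) (b := b)).ultrafilter_le_nhds (U.map τ) (by
    rw [le_principal_iff]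
    show τ ⁻¹' _ ∈ U
    filter_upwards [hτ] with n hn
    exact hn.1)
  have hτt : Tendsto τ U (𝓝 t) := hle
  refine ⟨t, ht, ?_⟩
  have h2 : Tendsto (fun n => ‖F n t - p‖ + K * |τ n - t|) U (𝓝 (‖G t - p‖ + K * |t - t|)) := by
    apply Tendsto.add
    · exact ((hG t).sub_const p).norm
    · exact ((hτt.sub_const t).abs).const_mul K
  rw [sub_self, abs_zero, mul_zero, add_zero] at h2
  refine ge_of_tendsto h2 ?_
  filter_upwards [hτ, hl (max |a| |b|)] with n hn hn2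
  have h3 : ∀ x ∈ Icc a b, |x| ≤ max |a| |b| := by
    intro x hx
    exact abs_le_max_abs_abs hx.1 hx.2
  have h4 := hn2 (τ n) t (h3 _ hn.1) (h3 _ ht)
  have h5 : ‖F n (τ n) - p‖ ≤ ‖F n t - p‖ + ‖F n (τ n) - F n t‖ := by
    have : F n (τ n) - p = (F n t - p) + (F n (τ n) - F n t) := by ring
    rw [this]
    exact norm_add_le _ _
  linarith [hn.2]

/-- data giving that the orbit is away from `0` and `1`, at small scales -/
structure NearB (α : ℂ) (L : ℕ) (z : ℂ) (ℓ R : ℝ) (Nc BadN : Set ℝ) : Prop where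
  near : ∀ (n : ℕ) (u : ℝ), u ∉ Nc → (L : ℝ) ^ n * u ∉ BadN →
    R ≤ ‖O α L n u z‖ ∧ R ≤ ‖1 - O α L n u z‖
  bad : ∀ a : ℝ, volume (BadN ∩ Icc a (a + ℓ)) ≤ ENNReal.ofReal (ℓ / 2)

lemma NearB.exists_pt {z : ℂ} {ℓ R : ℝ} {Nc BadN : Set ℝ} (hN : NearB α L z ℓ R Nc BadN) (hL : 3 ≤ L)
    (hℓ : 0 < ℓ) {u₀ T S c : ℝ} {n : ℕ} (hn : volume (Nc ∩ Metric.closedBall u₀ (T / (L : ℝ) ^ n)) ≤
      ENNReal.ofReal (ℓ / 4 / (L : ℝ) ^ n)) (hc : |c - u₀| ≤ S / (L:ℝ) ^ n) {a : ℝ}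
    (ha : |a| + ℓ + S ≤ T) :
    ∃ t ∈ Icc a (a + ℓ), R ≤ ‖O α L n (c + t / (L:ℂ) ^ n) z‖ ∧
      R ≤ ‖1 - O α L n (c + t / (L:ℂ) ^ n) z‖ := by
  have hL0 : (0:ℝ) < L := by
    have : (3:ℝ) ≤ L := by exact_mod_cast hL
    linarith
  have hLn : (0:ℝ) < (L:ℝ) ^ n := pow_pos hL0 n
  by_contra hcon
  push Not at hcon
  have hsub : Icc a (a + ℓ) ⊆
      ((fun t : ℝ => c + ((L:ℝ) ^ n)⁻¹ * t) ⁻¹' (Nc ∩ Metric.closedBall u₀ (T / (L : ℝ) ^ n))) ∪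
      ((fun t : ℝ => (L:ℝ)^n * c + 1 * t) ⁻¹'
        (BadN ∩ Icc ((L:ℝ)^n * c + a) ((L:ℝ)^n * c + a + ℓ))) := by
    intro t ht
    by_contra hcon2
    rw [mem_union, not_or] at hcon2
    obtain ⟨h1, h2⟩ := hcon2
    have hcast : (c : ℂ) + t / (L : ℂ) ^ n = ((c + ((L:ℝ) ^ n)⁻¹ * t : ℝ) : ℂ) := by
      push_cast; rw [div_eq_inv_mul]
    have htabs : |t| ≤ |a| + ℓ := by
      have h1 := neg_abs_le a
      have h2 := le_abs_self a
      rw [abs_le]; constructor <;> linarith [ht.1, ht.2]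
    have h3 : c + ((L:ℝ) ^ n)⁻¹ * t ∉ Nc := by
      intro h
      apply h1
      refine ⟨h, ?_⟩
      rw [Metric.mem_closedBall, Real.dist_eq]
      have : c + ((L:ℝ) ^ n)⁻¹ * t - u₀ = (c - u₀) + ((L:ℝ) ^ n)⁻¹ * t := by ring
      rw [this]
      refine (abs_add_le _ _).trans ?_
      rw [abs_mul, abs_of_pos (inv_pos.2 hLn)]
      calc |c - u₀| + ((L:ℝ) ^ n)⁻¹ * |t| ≤ S / (L:ℝ) ^ n + ((L:ℝ) ^ n)⁻¹ * (|a| + ℓ) := by gcongr
        _ = (|a| + ℓ + S) / (L:ℝ) ^ n := by field_simp; ring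
        _ ≤ T / (L:ℝ) ^ n := by gcongr
    have h4 : (L : ℝ) ^ n * (c + ((L:ℝ) ^ n)⁻¹ * t) ∉ BadN := by
      intro h
      apply h2
      have h5 : (L : ℝ) ^ n * (c + ((L:ℝ) ^ n)⁻¹ * t) = (L:ℝ)^n * c + 1 * t := by
        field_simp
      rw [h5] at h
      refine ⟨h, ?_⟩
      constructor <;> linarith [ht.1, ht.2]
    have h6 := hN.near n _ h3 h4
    have h7 := hcon t ht
    rw [hcast] at h7
    exact absurd h6.2 (not_le.2 (h7 h6.1))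
  have h8 := (measure_mono hsub).trans (measure_union_le (μ := volume) _ _)
  rw [vol_affine _ (inv_pos.2 hLn), vol_affine _ one_pos, inv_inv, inv_one, ENNReal.ofReal_one,
    one_mul, Real.volume_Icc] at h8
  have h9 : ENNReal.ofReal ((L:ℝ) ^ n) * volume (Nc ∩ Metric.closedBall u₀ (T / (L : ℝ) ^ n)) ≤
      ENNReal.ofReal (ℓ / 4) := by
    refine (mul_le_mul_right hn _).trans ?_
    rw [← ENNReal.ofReal_mul hLn.le]
    apply ENNReal.ofReal_le_ofReal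
    apply le_of_eq
    field_simp
  have h10 := h8.trans (add_le_add h9 (hN.bad _))
  rw [← ENNReal.ofReal_add (by positivity) (by positivity),
    ENNReal.ofReal_le_ofReal_iff (by positivity)] at h10
  linarith

/-- nearest point of the form `j / L^n` -/
noncomputable def cen (L : ℕ) (u₀ : ℝ) (n : ℕ) : ℝ := (round ((L:ℝ) ^ n * u₀) : ℝ) / (L:ℝ) ^ n

lemma cen_close (hL : 3 ≤ L) (u₀ : ℝ) (n k : ℕ) :
    |cen L u₀ n - u₀| ≤ (L:ℝ) ^ k / (L:ℝ) ^ (n + k) := by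
  have hL0 : (0:ℝ) < L := by
    have : (3:ℝ) ≤ L := by exact_mod_cast hL
    linarith
  have hLn : (0:ℝ) < (L:ℝ) ^ n := pow_pos hL0 n
  have hLk : (0:ℝ) < (L:ℝ) ^ k := pow_pos hL0 k
  have h1 := abs_sub_round ((L:ℝ) ^ n * u₀)
  have h2 : cen L u₀ n - u₀ = ((round ((L:ℝ) ^ n * u₀) : ℝ) - (L:ℝ) ^ n * u₀) / (L:ℝ) ^ n := by
    unfold cen; field_simp
  rw [h2, abs_div, abs_of_pos hLn, abs_sub_comm, pow_add]
  calc |(L:ℝ) ^ n * u₀ - round ((L:ℝ) ^ n * u₀)| / (L:ℝ) ^ n ≤ 1 / (L:ℝ) ^ n := by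
        gcongr; linarith
    _ = (L:ℝ) ^ k / ((L:ℝ) ^ n * (L:ℝ) ^ k) := by field_simp

/-- centred rescaled orbit -/
noncomputable def gk (α : ℂ) (L : ℕ) (z : ℂ) (u₀ : ℝ) (k n : ℕ) (ζ : ℂ) : ℂ :=
  O α L (n + k) (cen L u₀ n + ζ / (L : ℂ) ^ (n + k)) z

lemma gk_diff (z : ℂ) (u₀ : ℝ) (k n : ℕ) : Differentiable ℂ (gk α L z u₀ k n) :=
  O_scaled_diff (n + k) _ z

lemma gk_rec (hL : 3 ≤ L) (z : ℂ) (u₀ : ℝ) (k n : ℕ) (t : ℝ) :
    gk α L z u₀ (k + 1) n ((L * t : ℝ) : ℂ) = gk α L z u₀ k n t +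
      α * (Real.cos (2 * Real.pi * t) : ℂ) * gk α L z u₀ k n t * (1 - gk α L z u₀ k n t) := by
  have hL0 : (0:ℝ) < L := by
    have : (3:ℝ) ≤ L := by exact_mod_cast hL
    linarith
  have hLc : (L : ℂ) ≠ 0 := by
    have : L ≠ 0 := by omega
    exact_mod_cast this
  unfold gk
  have harg : (cen L u₀ n : ℂ) + ((L * t : ℝ) : ℂ) / (L:ℂ) ^ (n + (k + 1)) =
      cen L u₀ n + (t : ℂ) / (L:ℂ) ^ (n + k) := by
    push_cast
    congr 1
    rw [← add_assoc, pow_succ]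
    field_simp
  rw [harg, ← add_assoc, O_succ]
  have hcos : Complex.cos (2 * Real.pi * ((L : ℂ) ^ (n + k) * (cen L u₀ n + (t : ℂ) / (L:ℂ) ^ (n + k)))) =
      (Real.cos (2 * Real.pi * t) : ℂ) := by
    have h1 : (L : ℂ) ^ (n + k) * (cen L u₀ n + (t : ℂ) / (L:ℂ) ^ (n + k)) =
        (t : ℂ) + ((((L:ℤ) ^ k * round ((L:ℝ) ^ n * u₀) : ℤ)) : ℂ) := by
      unfold cen
      push_cast
      rw [pow_add]
      field_simp
      ring
    rw [h1, mul_add]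
    have h2 : 2 * (Real.pi : ℂ) * ((((L:ℤ) ^ k * round ((L:ℝ) ^ n * u₀) : ℤ)) : ℂ) =
        ((((L:ℤ) ^ k * round ((L:ℝ) ^ n * u₀) : ℤ)) : ℂ) * (2 * Real.pi) := by ring
    rw [h2, Complex.cos_add_int_mul_two_pi]
    push_cast
    rfl
  rw [hcos]

lemma gk_bd {z : ℂ} {u₀ P : ℝ} (hL : 3 ≤ L)
    (hA : ∀ T ≥ (0:ℝ), ∃ n₁ : ℕ, ∀ n ≥ n₁, ∀ ζ : ℂ, |ζ.re| ≤ T → |ζ.im| ≤ 1 →
      ‖O α L n (u₀ + ζ / (L : ℂ) ^ n) z‖ ≤ P) (k : ℕ) {T : ℝ} (hT : 0 ≤ T) :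
    ∀ᶠ n in (atTop : Filter ℕ), ∀ ζ : ℂ, |ζ.re| ≤ T → |ζ.im| ≤ 1 → ‖gk α L z u₀ k n ζ‖ ≤ P := by
  have hL0 : (0:ℝ) < L := by
    have : (3:ℝ) ≤ L := by exact_mod_cast hL
    linarith
  have hLc : (L : ℂ) ≠ 0 := by
    have : L ≠ 0 := by omega
    exact_mod_cast this
  obtain ⟨n₁, hn₁⟩ := hA (T + (L:ℝ) ^ k) (by positivity)
  rw [eventually_atTop]
  refine ⟨n₁, fun n hn ζ hre him => ?_⟩
  unfold gk
  have hc := cen_close hL u₀ n k
  set s : ℝ := (L:ℝ) ^ (n + k) * (cen L u₀ n - u₀) with hs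
  have hpos : (0:ℝ) < (L:ℝ) ^ (n + k) := pow_pos hL0 _
  have hs1 : |s| ≤ (L:ℝ) ^ k := by
    rw [hs, abs_mul, abs_of_pos hpos]
    rw [le_div_iff₀ hpos] at hc
    linarith
  have harg : (cen L u₀ n : ℂ) + ζ / (L:ℂ) ^ (n + k) = u₀ + (ζ + s) / (L:ℂ) ^ (n + k) := by
    rw [hs]; push_cast; field_simp; ring
  rw [harg]
  apply hn₁ (n + k) (by omega)
  · rw [Complex.add_re, Complex.ofReal_re]
    exact (abs_add_le _ _).trans (by linarith)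
  · rw [Complex.add_im, Complex.ofReal_im, add_zero]
    exact him

lemma gk_lip {z : ℂ} {u₀ P : ℝ} (hL : 3 ≤ L)
    (hA : ∀ T ≥ (0:ℝ), ∃ n₁ : ℕ, ∀ n ≥ n₁, ∀ ζ : ℂ, |ζ.re| ≤ T → |ζ.im| ≤ 1 →
      ‖O α L n (u₀ + ζ / (L : ℂ) ^ n) z‖ ≤ P) (k : ℕ) (T : ℝ) :
    ∀ᶠ n in (atTop : Filter ℕ), ∀ s t : ℝ, |s| ≤ T → |t| ≤ T →
      ‖gk α L z u₀ k n s - gk α L z u₀ k n t‖ ≤ P * |s - t| := by
  filter_upwards [gk_bd hL hA k (T := |T| + 1) (by positivity)] with n hn s t hs ht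
  set S : Set ℂ := {ζ : ℂ | |ζ.re| ≤ T ∧ ζ.im = 0} with hS
  have hconv : Convex ℝ S := by
    intro x hx y hy a b ha hb hab
    refine ⟨?_, ?_⟩
    · have h1 : (a • x + b • y).re = a * x.re + b * y.re := by simp
      rw [h1]
      calc |a * x.re + b * y.re| ≤ |a * x.re| + |b * y.re| := abs_add_le _ _
        _ = a * |x.re| + b * |y.re| := by rw [abs_mul, abs_mul, abs_of_nonneg ha, abs_of_nonneg hb]
        _ ≤ a * T + b * T := by
            gcongr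
            · exact hx.1
            · exact hy.1
        _ = T := by rw [← add_mul, hab, one_mul]
    · have h1 : (a • x + b • y).im = a * x.im + b * y.im := by simp
      rw [h1, hx.2, hy.2]; ring
  have hder : ∀ x ∈ S, ‖deriv (gk α L z u₀ k n) x‖ ≤ P := by
    intro x hx
    have := Complex.norm_deriv_le_of_forall_mem_sphere_norm_le (c := x) (R := 1) (C := P)
      (f := gk α L z u₀ k n) one_pos (gk_diff z u₀ k n).diffContOnCl (by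
        intro w hw
        have hw1 : ‖w - x‖ = 1 := by simpa [dist_eq_norm] using hw
        apply hn
        · have h1 : w.re = x.re + (w - x).re := by simp
          rw [h1]
          have h2 := Complex.abs_re_le_norm (w - x)
          have h3 := abs_add_le x.re (w - x).re
          have h4 := hx.1
          have h5 := le_abs_self T
          linarith
        · have h1 : w.im = (w - x).im := by simp [hx.2]
          rw [h1]
          have h2 := Complex.abs_im_le_norm (w - x)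
          linarith)
    simpa using this
  have h := hconv.norm_image_sub_le_of_norm_deriv_le (f := gk α L z u₀ k n) (C := P)
    (fun x _ => (gk_diff z u₀ k n) x) hder (x := (t:ℂ)) (y := (s:ℂ))
    ⟨by simpa using ht, by simp⟩ ⟨by simpa using hs, by simp⟩
  refine h.trans (le_of_eq ?_)
  rw [← Complex.ofReal_sub, Complex.norm_real, Real.norm_eq_abs]

/-- **Existence of leaves.** -/
theorem exists_leaf {z : ℂ} {u₀ P : ℝ} {Nc : Set ℝ} (hL : 3 ≤ L) (hα0 : α ≠ 0)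
    (hA : ∀ T ≥ (0:ℝ), ∃ n₁ : ℕ, ∀ n ≥ n₁, ∀ ζ : ℂ, |ζ.re| ≤ T → |ζ.im| ≤ 1 →
      ‖O α L n (u₀ + ζ / (L : ℂ) ^ n) z‖ ≤ P)
    (hdens : ∀ T > (0:ℝ), ∀ δ > (0:ℝ), ∃ n₀ : ℕ, ∀ n ≥ n₀,
      volume (Nc ∩ Metric.closedBall u₀ (T / (L : ℝ) ^ n)) ≤ ENNReal.ofReal (δ / (L : ℝ) ^ n))
    (hN : ∀ ℓ : ℝ, 0 < ℓ → ℓ ≤ 1 → ∃ R > (0:ℝ), ∃ BadN : Set ℝ, NearB α L z ℓ R Nc BadN) :
    ∃ (K Q : ℝ) (W : ℤ → ℝ → ℂ), Leaf L (α / 2) Q K W := by
  have hL0 : (0:ℝ) < L := by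
    have : (3:ℝ) ≤ L := by exact_mod_cast hL
    linarith
  set U : Ultrafilter ℕ := Filter.hyperfilter ℕ with hU
  have hUle : (U : Filter ℕ) ≤ atTop := by
    rw [hU, ← Nat.cofinite_eq_atTop]
    exact Filter.hyperfilter_le_cofinite
  -- first limit
  have h1 : ∀ k : ℕ, ∃ G : ℝ → ℂ, (∀ t : ℝ, Tendsto (fun n => gk α L z u₀ k n t) U (𝓝 (G t))) ∧
      (∀ t, ‖G t‖ ≤ P) ∧ (∀ s t, ‖G s - G t‖ ≤ P * |s - t|) ∧
      (∀ (a b R : ℝ) (p : ℂ), (∀ᶠ n in (U : Filter ℕ), ∃ t ∈ Icc a b, R ≤ ‖gk α L z u₀ k n t - p‖) →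
        ∃ t ∈ Icc a b, R ≤ ‖G t - p‖) := by
    intro k
    apply ultra_pack U (F := fun n t => gk α L z u₀ k n t)
    · intro t
      apply hUle
      filter_upwards [gk_bd hL hA k (T := |t|) (abs_nonneg t)] with n hn
      exact hn t (by simp) (by simp)
    · intro T
      exact hUle (gk_lip hL hA k T)
  choose G hGt hGb hGl hGn using h1
  have hGr : ∀ k t, G (k + 1) (L * t) = G k t +
      α * (Real.cos (2 * Real.pi * t) : ℂ) * G k t * (1 - G k t) := by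
    intro k t
    have e1 := hGt (k + 1) (L * t)
    have e2 : Tendsto (fun n => gk α L z u₀ k n t +
        α * (Real.cos (2 * Real.pi * t) : ℂ) * gk α L z u₀ k n t * (1 - gk α L z u₀ k n t)) U
        (𝓝 (G k t + α * (Real.cos (2 * Real.pi * t) : ℂ) * G k t * (1 - G k t))) :=
      (hGt k t).add (((hGt k t).const_mul _).mul ((hGt k t).const_sub 1))
    refine tendsto_nhds_unique e1 (e2.congr ?_)
    intro n
    exact (gk_rec hL z u₀ k n t).symm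
  have hGnear : ∀ ℓ : ℝ, 0 < ℓ → ℓ ≤ 1 → ∃ R > (0:ℝ), ∀ k a,
      (∃ t ∈ Icc a (a + ℓ), R ≤ ‖G k t - 0‖) ∧ (∃ t ∈ Icc a (a + ℓ), R ≤ ‖G k t - 1‖) := by
    intro ℓ hℓ hℓ1
    obtain ⟨R, hR, BadN, hNB⟩ := hN ℓ hℓ hℓ1
    refine ⟨R, hR, fun k a => ?_⟩
    have hev : ∀ᶠ n in (U : Filter ℕ), ∃ t ∈ Icc a (a + ℓ), R ≤ ‖gk α L z u₀ k n t‖ ∧
        R ≤ ‖1 - gk α L z u₀ k n t‖ := by
      apply hUle
      have hTpos : 0 < |a| + ℓ + (L:ℝ) ^ k := by positivity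
      obtain ⟨n₀, hn₀⟩ := hdens (|a| + ℓ + (L:ℝ) ^ k) hTpos (ℓ / 4) (by positivity)
      refine mem_atTop_sets.2 ⟨n₀, fun n hn => ?_⟩
      exact hNB.exists_pt hL hℓ (hn₀ (n + k) (by omega)) (cen_close hL u₀ n k) le_rfl
    constructor
    · apply hGn k
      filter_upwards [hev] with n hn
      obtain ⟨t, ht, h1, h2⟩ := hn
      exact ⟨t, ht, by simpa using h1⟩
    · apply hGn k
      filter_upwards [hev] with n hn
      obtain ⟨t, ht, h1, h2⟩ := hn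
      refine ⟨t, ht, ?_⟩
      rw [norm_sub_rev]; exact h2
  -- second limit
  have h2 : ∀ m : ℤ, ∃ H : ℝ → ℂ, (∀ t : ℝ, Tendsto (fun n : ℕ => G (n + m).toNat t) U (𝓝 (H t))) ∧
      (∀ t, ‖H t‖ ≤ P) ∧ (∀ s t, ‖H s - H t‖ ≤ P * |s - t|) ∧
      (∀ (a b R : ℝ) (p : ℂ), (∀ᶠ n : ℕ in (U : Filter ℕ), ∃ t ∈ Icc a b, R ≤ ‖G (n + m).toNat t - p‖) →
        ∃ t ∈ Icc a b, R ≤ ‖H t - p‖) := by
    intro m
    apply ultra_pack U (F := fun (n : ℕ) t => G ((n : ℤ) + m).toNat t)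
    · intro t
      exact Eventually.of_forall fun n => hGb _ _
    · intro T
      exact Eventually.of_forall fun n s t _ _ => hGl _ s t
  choose H hHt hHb hHl hHn using h2
  have hHr : ∀ m t, H (m + 1) (L * t) = H m t +
      α * (Real.cos (2 * Real.pi * t) : ℂ) * H m t * (1 - H m t) := by
    intro m t
    have e1 := hHt (m + 1) (L * t)
    have e2 : Tendsto (fun n : ℕ => G (n + m).toNat t +
        α * (Real.cos (2 * Real.pi * t) : ℂ) * G (n + m).toNat t * (1 - G (n + m).toNat t)) U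
        (𝓝 (H m t + α * (Real.cos (2 * Real.pi * t) : ℂ) * H m t * (1 - H m t))) :=
      (hHt m t).add (((hHt m t).const_mul _).mul ((hHt m t).const_sub 1))
    refine tendsto_nhds_unique e1 (e2.congr' ?_)
    apply hUle
    refine mem_atTop_sets.2 ⟨m.natAbs, fun n hn => ?_⟩
    have : ((n : ℤ) + (m + 1)).toNat = ((n : ℤ) + m).toNat + 1 := by omega
    show G ((n : ℤ) + m).toNat t + α * (Real.cos (2 * Real.pi * t) : ℂ) * G ((n : ℤ) + m).toNat t *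
      (1 - G ((n : ℤ) + m).toNat t) = G ((n : ℤ) + (m + 1)).toNat (L * t)
    rw [this, hGr]
  refine ⟨‖α‖ * P, ‖α‖ * (P + 1), fun m t => α * (H m t - 1 / 2), ?_, ?_, ?_, ?_⟩
  · intro m t
    rw [norm_mul]
    gcongr
    refine (norm_sub_le _ _).trans ?_
    have : ‖(1 / 2 : ℂ)‖ ≤ 1 := by norm_num
    linarith [hHb m t]
  · intro m s t
    have : α * (H m s - 1 / 2) - α * (H m t - 1 / 2) = α * (H m s - H m t) := by ring
    rw [this, norm_mul, mul_assoc]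
    gcongr
    exact hHl m s t
  · intro m t
    rw [hHr]
    ring
  · intro ℓ hℓ
    obtain ⟨R, hR, hRn⟩ := hGnear (min ℓ 1) (lt_min hℓ one_pos) (min_le_right _ _)
    have hαp : 0 < ‖α‖ := norm_pos_iff.2 hα0
    refine ⟨‖α‖ * R, by positivity, fun m a => ?_⟩
    constructor
    · obtain ⟨t, ht, h⟩ := hHn m a (a + min ℓ 1) R 1
        (Eventually.of_forall fun n => (hRn _ a).2)
      refine ⟨t, ⟨ht.1, ht.2.trans (by linarith [min_le_left ℓ 1])⟩, ?_⟩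
      have : α * (H m t - 1 / 2) - α / 2 = α * (H m t - 1) := by ring
      rw [this, norm_mul]
      gcongr
    · obtain ⟨t, ht, h⟩ := hHn m a (a + min ℓ 1) R 0
        (Eventually.of_forall fun n => (hRn _ a).1)
      refine ⟨t, ⟨ht.1, ht.2.trans (by linarith [min_le_left ℓ 1])⟩, ?_⟩
      have : α * (H m t - 1 / 2) + α / 2 = α * (H m t - 0) := by ring
      rw [this, norm_mul]
      gcongr

end Pool.Agent.W_MP_4481e3_an
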