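import Pool.Agent.W_MP_4481e3_an.BoundA

/-!
Bound (A) at density points, now for all `L ≥ 3`: two steps of the recursion at a time.
-/

open MeasureTheory Filter Topology Set

namespace Pool.Agent.W_MP_4481e3_an

variable {α : ℂ} {L : ℕ}

/-- Lemma R on the disc of radius `1/9`. -/
theorem lemmaR9 {g : ℂ → ℂ} (hg : Differentiable ℂ g) {X : ℝ} (hX : 0 ≤ X)
    (hb : ∀ w : ℂ, ‖w‖ ≤ 1 → ‖g w‖ ≤ Real.exp X)
    (hm : volume {t : ℝ | |t| ≤ 1 ∧ 1 < ‖g t‖} ≤ ENNReal.ofReal (1 / 500)) {w : ℂ}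
    (hw : ‖w‖ ≤ 1 / 9) :
    ‖g w‖ ≤ 2 * Real.exp (47 / 200 * X) := by
  have hsq : w.re ^ 2 + w.im ^ 2 ≤ 1 / 81 := by
    have := Complex.sq_norm w
    rw [Complex.normSq_apply] at this
    nlinarith [norm_nonneg w]
  by_cases h : w.im ^ 2 < 1 / 100
  · refine (two_const_strip hg hX (by norm_num) hb hm ⟨by nlinarith [sq_nonneg w.im], h⟩).trans ?_
    rw [mul_comm (47/200) X]
    gcongr
    nlinarith [sq_nonneg w.im]
  · push Not at h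
    have habs : 1 / 10 ≤ |w.im| := by
      by_contra hlt
      push Not at hlt
      have : |w.im| ^ 2 < (1/10) ^ 2 := by
        have := abs_nonneg w.im
        nlinarith
      rw [sq_abs] at this
      linarith
    have hne : w.im ≠ 0 := by
      intro h0; rw [h0] at habs; norm_num at habs
    refine (two_const_both hg hX (by norm_num) hb hm (hw.trans (by norm_num)) hne).trans ?_
    have hdiv : (1 / 500 : ℝ) / |w.im| ≤ 1 / 50 := by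
      rw [div_le_iff₀ (by linarith)]
      linarith
    have hy : |w.im| ≤ 1 / 9 := (Complex.abs_im_le_norm w).trans hw
    rw [mul_comm (47/200) X]
    have : w.re ^ 2 - w.im ^ 2 + 2 * |w.im| + 1 / 500 / |w.im| ≤ 47 / 200 := by
      have h6 : w.im ^ 2 = |w.im| ^ 2 := (sq_abs _).symm
      nlinarith
    gcongr

lemma growth_at (hα : ‖α‖ ≤ 1) (n : ℕ) (c : ℝ) (ξ z : ℂ) (hξ : ‖ξ‖ ≤ 1) {M : ℝ}
    (hL : 1 ≤ L) (hM : 1 ≤ M) (h : ‖O α L n (c + ξ / (L : ℂ) ^ n) z‖ ≤ M) :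
    ‖O α L (n + 1) (c + ξ / (L : ℂ) ^ n) z‖ ≤ 3 * Real.exp (2 * Real.pi) * M ^ 2 := by
  have hL0 : (0:ℝ) < L := by exact_mod_cast hL
  have hLc : (L : ℂ) ≠ 0 := by
    have : L ≠ 0 := by omega
    exact_mod_cast this
  have hgr := O_growth (L := L) hα n (c + ξ / (L : ℂ) ^ n) z
  have him : |((L : ℂ) ^ n * (c + ξ / (L : ℂ) ^ n)).im| ≤ 1 := by
    have : (L : ℂ) ^ n * (c + ξ / (L : ℂ) ^ n) = (((L:ℝ) ^ n * c : ℝ) : ℂ) + ξ := by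
      push_cast
      field_simp
    rw [this, Complex.add_im, Complex.ofReal_im, zero_add]
    exact (Complex.abs_im_le_norm _).trans hξ
  have hexp : Real.exp (2 * Real.pi * |((L : ℂ) ^ n * (c + ξ / (L : ℂ) ^ n)).im|) ≤
      Real.exp (2 * Real.pi) := by
    apply Real.exp_le_exp.2
    have := Real.pi_pos
    nlinarith
  have hmax : max 1 ‖O α L n (c + ξ / (L : ℂ) ^ n) z‖ ≤ M := max_le hM h
  calc _ ≤ _ := le_max_right 1 _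
    _ ≤ _ := hgr
    _ ≤ 3 * Real.exp (2 * Real.pi) * M ^ 2 := by gcongr

/-- the constant of the two step recursion -/
noncomputable def CB (ρ : ℝ) : ℝ := Real.log (432 * Real.exp (2 * Real.pi) ^ 3 * ρ ^ 3)

lemma CB_nonneg {ρ : ℝ} (hρ : 1 ≤ ρ) : 0 ≤ CB ρ := by
  apply Real.log_nonneg
  have h1 : (1:ℝ) ≤ Real.exp (2 * Real.pi) ^ 3 := one_le_pow₀ (Real.one_le_exp (by positivity))
  have h2 : (1:ℝ) ≤ ρ ^ 3 := one_le_pow₀ hρ
  nlinarith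

lemma B_step (hα : ‖α‖ ≤ 1) (hL : 3 ≤ L) {ρ : ℝ} (hρ : 1 ≤ ρ) {z : ℂ} {c : ℝ} {n : ℕ} {X : ℝ}
    (hX : 0 ≤ X) (h1 : ∀ ζ : ℂ, ‖ζ‖ ≤ 1 → ‖O α L n (c + ζ / (L : ℂ) ^ n) z‖ ≤ ρ * Real.exp X)
    (h2 : volume {t : ℝ | |t| ≤ 1 ∧ ρ < ‖O α L n (c + t / (L : ℂ) ^ n) z‖} ≤
      ENNReal.ofReal (1 / 500)) {ζ : ℂ} (hζ : ‖ζ‖ ≤ 1) :
    ‖O α L (n + 2) (c + ζ / (L : ℂ) ^ (n + 2)) z‖ ≤ ρ * Real.exp (47 / 50 * X + CB ρ) := by
  have hρ0 : 0 < ρ := by linarith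
  have hL3 : (3:ℝ) ≤ L := by exact_mod_cast hL
  have hL0 : (0:ℝ) < L := by linarith
  have hLc : (L : ℂ) ≠ 0 := by
    have : L ≠ 0 := by omega
    exact_mod_cast this
  set g : ℂ → ℂ := fun ζ => O α L n (c + ζ / (L : ℂ) ^ n) z / ρ with hg
  have hgd : Differentiable ℂ g := (O_scaled_diff n c z).div_const _
  have hgn : ∀ ζ, ‖g ζ‖ = ‖O α L n (c + ζ / (L : ℂ) ^ n) z‖ / ρ := by
    intro ζ
    rw [hg]
    simp only [norm_div, Complex.norm_real, Real.norm_eq_abs, abs_of_pos hρ0]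
  have hR := lemmaR9 hgd hX (by
      intro w hw
      rw [hgn, div_le_iff₀ hρ0, mul_comm]
      exact h1 w hw) (by
      refine le_trans (measure_mono ?_) h2
      intro t ht
      refine ⟨ht.1, ?_⟩
      have := ht.2
      rw [hgn, lt_div_iff₀ hρ0, one_mul] at this
      exact this) (w := ζ / (L : ℂ) ^ 2) (by
      rw [norm_div, norm_pow, Complex.norm_natCast, div_le_iff₀ (by positivity)]
      nlinarith)
  rw [hgn, div_le_iff₀ hρ0] at hR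
  set M := 2 * Real.exp (47 / 200 * X) * ρ with hM
  have hM1 : 1 ≤ M := by
    have : 1 ≤ Real.exp (47 / 200 * X) := Real.one_le_exp (by positivity)
    rw [hM]; nlinarith
  have hE1 : 1 ≤ Real.exp (2 * Real.pi) := Real.one_le_exp (by positivity)
  have hnorm2 : ‖ζ / (L : ℂ) ^ 2‖ ≤ 1 := by
    rw [norm_div, norm_pow, Complex.norm_natCast, div_le_one (by positivity)]
    nlinarith
  have hnorm1 : ‖ζ / (L : ℂ)‖ ≤ 1 := by
    rw [norm_div, Complex.norm_natCast, div_le_one (by positivity)]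
    linarith
  have e1 := growth_at hα n c _ z hnorm2 (by omega : 1 ≤ L) hM1 hR
  have hu1 : (c : ℂ) + ζ / (L:ℂ) ^ 2 / (L : ℂ) ^ n = c + ζ / (L:ℂ) / (L : ℂ) ^ (n + 1) := by
    rw [div_div, div_div]; congr 2; ring
  rw [hu1] at e1
  have hM2 : 1 ≤ 3 * Real.exp (2 * Real.pi) * M ^ 2 := by
    have : 1 ≤ M ^ 2 := one_le_pow₀ hM1
    nlinarith
  have e2 := growth_at hα (n + 1) c _ z hnorm1 (by omega : 1 ≤ L) hM2 e1
  have hu2 : (c : ℂ) + ζ / (L:ℂ) / (L : ℂ) ^ (n + 1) = c + ζ / (L : ℂ) ^ (n + 2) := by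
    rw [div_div]; congr 2; ring
  rw [hu2] at e2
  refine e2.trans (le_of_eq ?_)
  rw [hM, Real.exp_add, CB, Real.exp_log (by positivity)]
  have : Real.exp (47 / 50 * X) = Real.exp (47 / 200 * X) ^ 4 := by
    rw [← Real.exp_nat_mul]; congr 1; push_cast; ring
  rw [this]; ring

lemma B_bound (hα : ‖α‖ ≤ 1) (hL : 3 ≤ L) {ρ : ℝ} (hρ : 1 ≤ ρ) {z : ℂ} {c : ℝ} {n₀ : ℕ} {X : ℝ}
    (hX : 0 ≤ X) (h1 : ∀ ζ : ℂ, ‖ζ‖ ≤ 1 → ‖O α L n₀ (c + ζ / (L : ℂ) ^ n₀) z‖ ≤ ρ * Real.exp X)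
    (k : ℕ)
    (h2 : ∀ m, n₀ ≤ m → m < n₀ + 2 * k →
      volume {t : ℝ | |t| ≤ 1 ∧ ρ < ‖O α L m (c + t / (L : ℂ) ^ m) z‖} ≤ ENNReal.ofReal (1 / 500)) :
    ∀ ζ : ℂ, ‖ζ‖ ≤ 1 → ‖O α L (n₀ + 2 * k) (c + ζ / (L : ℂ) ^ (n₀ + 2 * k)) z‖ ≤
      ρ * Real.exp ((47 / 50) ^ k * X + 50 / 3 * CB ρ) := by
  have hCA0 := CB_nonneg hρ
  induction k with
  | zero =>
    intro ζ hζ
    simp only [mul_zero, add_zero]
    refine (h1 ζ hζ).trans ?_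
    have : X ≤ (47 / 50) ^ 0 * X + 50 / 3 * CB ρ := by simp; linarith
    gcongr
  | succ k ih =>
    intro ζ hζ
    have ih' := ih (fun m hm hm' => h2 m hm (by omega))
    have h3 := B_step hα hL hρ (X := (47 / 50) ^ k * X + 50 / 3 * CB ρ) (by positivity) ih'
      (h2 (n₀ + 2 * k) (by omega) (by omega)) hζ
    have hidx : n₀ + 2 * (k + 1) = n₀ + 2 * k + 2 := by ring
    rw [hidx]
    refine h3.trans ?_
    have : 47 / 50 * ((47 / 50) ^ k * X + 50 / 3 * CB ρ) + CB ρ =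
        (47 / 50) ^ (k + 1) * X + 50 / 3 * CB ρ := by ring
    rw [this]

lemma Dens.windowB {z : ℂ} {u₀ ρ : ℝ} {Nc Bad : Set ℝ} (hD : Dens α L z u₀ ρ Nc Bad) (hL : 3 ≤ L)
    {T δ : ℝ} {n : ℕ} (hn : volume (Nc ∩ Metric.closedBall u₀ (T / (L : ℝ) ^ n)) ≤
      ENNReal.ofReal (δ / (L : ℝ) ^ n)) (hδ : δ ≤ 1 / 1000) {c : ℝ}
    (hc : |c - u₀| ≤ (T - 1) / (L:ℝ) ^ n) :
    volume {t : ℝ | |t| ≤ 1 ∧ ρ < ‖O α L n (c + t / (L : ℂ) ^ n) z‖} ≤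
      ENNReal.ofReal (1 / 500) := by
  have hL0 : (0:ℝ) < L := by
    have : (3:ℝ) ≤ L := by exact_mod_cast hL
    linarith
  have hLn : (0:ℝ) < (L:ℝ) ^ n := pow_pos hL0 n
  have hsub : {t : ℝ | |t| ≤ 1 ∧ ρ < ‖O α L n (c + t / (L : ℂ) ^ n) z‖} ⊆
      ((fun t : ℝ => c + ((L:ℝ) ^ n)⁻¹ * t) ⁻¹' (Nc ∩ Metric.closedBall u₀ (T / (L : ℝ) ^ n))) ∪
      ((fun t : ℝ => (L:ℝ)^n * c + 1 * t) ⁻¹' (Bad ∩ Icc ((L:ℝ)^n * c - 1) ((L:ℝ)^n * c + 1))) := by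
    intro t ht
    by_contra hcon
    rw [mem_union, not_or] at hcon
    obtain ⟨h1, h2⟩ := hcon
    have hcast : (c : ℂ) + t / (L : ℂ) ^ n = ((c + ((L:ℝ) ^ n)⁻¹ * t : ℝ) : ℂ) := by
      push_cast; rw [div_eq_inv_mul]
    have h3 : c + ((L:ℝ) ^ n)⁻¹ * t ∉ Nc := by
      intro h
      apply h1
      refine ⟨h, ?_⟩
      rw [Metric.mem_closedBall, Real.dist_eq]
      have : c + ((L:ℝ) ^ n)⁻¹ * t - u₀ = (c - u₀) + ((L:ℝ) ^ n)⁻¹ * t := by ring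
      rw [this]
      refine (abs_add_le _ _).trans ?_
      rw [abs_mul, abs_of_pos (inv_pos.2 hLn)]
      have : ((L:ℝ) ^ n)⁻¹ * |t| ≤ ((L:ℝ) ^ n)⁻¹ * 1 := by
        gcongr
        exact ht.1
      calc |c - u₀| + ((L:ℝ) ^ n)⁻¹ * |t| ≤ (T - 1) / (L:ℝ) ^ n + ((L:ℝ) ^ n)⁻¹ * 1 := by linarith
        _ = T / (L:ℝ) ^ n := by field_simp; ring
    have h4 : (L : ℝ) ^ n * (c + ((L:ℝ) ^ n)⁻¹ * t) ∉ Bad := by
      intro h
      apply h2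
      have h5 : (L : ℝ) ^ n * (c + ((L:ℝ) ^ n)⁻¹ * t) = (L:ℝ)^n * c + 1 * t := by
        field_simp
      rw [h5] at h
      refine ⟨h, ?_⟩
      have := abs_le.1 ht.1
      constructor <;> linarith [this.1, this.2]
    have h6 := hD.esc n _ h3 h4
    have h7 := ht.2
    rw [hcast] at h7
    linarith
  refine (measure_mono hsub).trans ((measure_union_le _ _).trans ?_)
  rw [vol_affine _ (inv_pos.2 hLn), vol_affine _ one_pos, inv_inv, inv_one, ENNReal.ofReal_one, one_mul]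
  have h8 : ENNReal.ofReal ((L:ℝ) ^ n) * volume (Nc ∩ Metric.closedBall u₀ (T / (L : ℝ) ^ n)) ≤
      ENNReal.ofReal (1 / 1000) := by
    refine (mul_le_mul_right hn _).trans ?_
    rw [← ENNReal.ofReal_mul hLn.le]
    apply ENNReal.ofReal_le_ofReal
    have : (L:ℝ) ^ n * (δ / (L : ℝ) ^ n) = δ := by field_simp
    rw [this]; exact hδ
  calc _ ≤ ENNReal.ofReal (1 / 1000) + ENNReal.ofReal (1 / 1000) := add_le_add h8 (hD.bad _)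
    _ = ENNReal.ofReal (1 / 500) := by
        rw [← ENNReal.ofReal_add (by norm_num) (by norm_num)]; norm_num

/-- the universal bound, `L ≥ 3` -/
noncomputable def PB (ρ : ℝ) : ℝ := ρ * Real.exp (1 + 50 / 3 * CB ρ)

lemma one_le_PB {ρ : ℝ} (hρ : 1 ≤ ρ) : 1 ≤ PB ρ := by
  unfold PB
  have hCA0 := CB_nonneg hρ
  have : 1 ≤ Real.exp (1 + 50 / 3 * CB ρ) := Real.one_le_exp (by positivity)
  nlinarith

theorem Dens.boundB_aux {z : ℂ} {u₀ ρ : ℝ} {Nc Bad : Set ℝ} (hD : Dens α L z u₀ ρ Nc Bad)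
    (hα : ‖α‖ ≤ 1) (hL : 3 ≤ L) (hρ : 1 ≤ ρ) {T : ℝ} (hT : 0 ≤ T) {n₀ : ℕ}
    (hn₀ : ∀ n ≥ n₀, volume (Nc ∩ Metric.closedBall u₀ ((T + 1) / (L : ℝ) ^ n)) ≤
      ENNReal.ofReal ((1 / 1000) / (L : ℝ) ^ n)) :
    ∃ k₀ : ℕ, ∀ k ≥ k₀, ∀ ζ : ℂ, |ζ.re| ≤ T → |ζ.im| ≤ 1 →
      ‖O α L (n₀ + 2 * k) (u₀ + ζ / (L : ℂ) ^ (n₀ + 2 * k)) z‖ ≤ PB ρ := by
  have hL1 : (1:ℝ) ≤ L := by
    have : (3:ℝ) ≤ L := by exact_mod_cast hL
    linarith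
  have hL0 : (0:ℝ) < L := by linarith
  -- the a priori bound at time n₀
  obtain ⟨M, hM⟩ : ∃ M : ℝ, ∀ w ∈ Metric.closedBall (u₀ : ℂ) (T + 1), ‖O α L n₀ w z‖ ≤ M := by
    have hc : IsCompact (Metric.closedBall (u₀ : ℂ) (T + 1)) := isCompact_closedBall _ _
    obtain ⟨M, hM⟩ := hc.exists_bound_of_continuousOn (f := fun w => O α L n₀ w z)
      (O_differentiable n₀ z).continuous.continuousOn
    exact ⟨M, hM⟩
  set M' := max 1 M with hM'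
  have hM1 : 1 ≤ M' := le_max_left _ _
  set X := Real.log M' with hXdef
  have hX : 0 ≤ X := Real.log_nonneg hM1
  obtain ⟨k₀, hk₀⟩ : ∃ k₀ : ℕ, ∀ k ≥ k₀, (47 / 50 : ℝ) ^ k * X ≤ 1 := by
    have ht : Tendsto (fun k : ℕ => (47 / 50 : ℝ) ^ k * X) atTop (𝓝 (0 * X)) :=
      (tendsto_pow_atTop_nhds_zero_of_lt_one (by norm_num) (by norm_num)).mul_const X
    rw [zero_mul] at ht
    have := (ht.eventually (Iic_mem_nhds (zero_lt_one' ℝ)))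
    rw [eventually_atTop] at this
    obtain ⟨k₀, hk⟩ := this
    exact ⟨k₀, hk⟩
  refine ⟨k₀, fun k hk ζ hre him => ?_⟩
  set t := ζ.re with ht
  set c : ℝ := u₀ + t / (L:ℝ) ^ (n₀ + 2 * k) with hc
  have hpos : ∀ m, (0:ℝ) < (L:ℝ) ^ m := fun m => pow_pos hL0 m
  have hcu : ∀ m, m ≤ n₀ + 2 * k → |c - u₀| ≤ (T + 1 - 1) / (L:ℝ) ^ m := by
    intro m hm
    rw [hc, add_sub_cancel_left, abs_div, abs_of_pos (hpos _), add_sub_cancel_right]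
    have : (L:ℝ) ^ m ≤ (L:ℝ) ^ (n₀ + 2 * k) := pow_le_pow_right₀ hL1 hm
    have := hpos m
    gcongr
  have h1 : ∀ ζ : ℂ, ‖ζ‖ ≤ 1 → ‖O α L n₀ (c + ζ / (L : ℂ) ^ n₀) z‖ ≤ ρ * Real.exp X := by
    intro ξ hξ
    have hmem : (c : ℂ) + ξ / (L : ℂ) ^ n₀ ∈ Metric.closedBall (u₀ : ℂ) (T + 1) := by
      rw [Metric.mem_closedBall, dist_eq_norm]
      have : (c : ℂ) + ξ / (L : ℂ) ^ n₀ - u₀ = ((c - u₀ : ℝ) : ℂ) + ξ / (L : ℂ) ^ n₀ := by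
        push_cast; ring
      rw [this]
      refine (norm_add_le _ _).trans ?_
      rw [Complex.norm_real, Real.norm_eq_abs, norm_div, norm_pow, Complex.norm_natCast]
      have h3 := hcu 0 (by omega)
      simp only [pow_zero, div_one, add_sub_cancel_right] at h3
      have h4 : ‖ξ‖ / (L:ℝ) ^ n₀ ≤ 1 := by
        rw [div_le_one (hpos _)]
        exact hξ.trans (one_le_pow₀ hL1)
      linarith
    refine (hM _ hmem).trans ?_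
    rw [Real.exp_log (by linarith)]
    have : M ≤ M' := le_max_right _ _
    nlinarith
  have h2 := B_bound hα hL hρ hX h1 k (fun m hm hm' =>
    hD.windowB hL (hn₀ m hm) le_rfl (hcu m (by omega))) (ζ.im * Complex.I) (by
      rw [norm_mul, Complex.norm_I, mul_one, Complex.norm_real, Real.norm_eq_abs]
      exact him)
  have h3 : (c : ℂ) + (ζ.im : ℂ) * Complex.I / (L : ℂ) ^ (n₀ + 2 * k) =
      u₀ + ζ / (L : ℂ) ^ (n₀ + 2 * k) := by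
    rw [hc, ht]
    push_cast
    rw [add_assoc, ← add_div]
    congr 2
    exact Complex.re_add_im ζ
  rw [h3] at h2
  refine h2.trans ?_
  unfold PB
  have := hk₀ k hk
  gcongr

/-- **Bound (A)** for all `L ≥ 3`. -/
theorem Dens.boundB {z : ℂ} {u₀ ρ : ℝ} {Nc Bad : Set ℝ} (hD : Dens α L z u₀ ρ Nc Bad)
    (hα : ‖α‖ ≤ 1) (hL : 3 ≤ L) (hρ : 1 ≤ ρ) {T : ℝ} (hT : 0 ≤ T) :
    ∃ n₁ : ℕ, ∀ n ≥ n₁, ∀ ζ : ℂ, |ζ.re| ≤ T → |ζ.im| ≤ 1 →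
      ‖O α L n (u₀ + ζ / (L : ℂ) ^ n) z‖ ≤ PB ρ := by
  obtain ⟨n₀, hn₀⟩ := hD.dens (T + 1) (by linarith) (1 / 1000) (by norm_num)
  obtain ⟨k₀, hk₀⟩ := hD.boundB_aux hα hL hρ hT hn₀
  obtain ⟨k₁, hk₁⟩ := hD.boundB_aux hα hL hρ hT (n₀ := n₀ + 1) (fun n hn => hn₀ n (by omega))
  refine ⟨n₀ + 1 + 2 * k₀ + 2 * k₁, fun n hn ζ hre him => ?_⟩
  rcases Nat.even_or_odd' (n - n₀) with ⟨j, hj | hj⟩
  · have : n = n₀ + 2 * j := by omega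
    rw [this]
    exact hk₀ j (by omega) ζ hre him
  · have : n = n₀ + 1 + 2 * j := by omega
    rw [this]
    exact hk₁ j (by omega) ζ hre him

end Pool.Agent.W_MP_4481e3_an
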