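import Mathlib.Data.Nat.Notation

/-!
Fixed point ball arithmetic, evaluated by the kernel.

Scale `S = 2 ^ 24`; a point `y` is stored as `(A, B)` with `A - T`, `B - T` (`T = 2 ^ 29`)
approximating the coordinates of `S * y`.
-/

namespace Pool.Agent.W_MP_4481e3_an.Ev

/-- `if c then x else false` -/
noncomputable def gd (c x : Bool) : Bool := Bool.rec false x c

/-- `|x - y|` -/
def dist (x y : ℕ) : ℕ := Nat.add (Nat.sub x y) (Nat.sub y x)

def nrm1 (N u : ℕ) : ℕ := Nat.add (Nat.div (Nat.add (Nat.div N u) u) 2) 1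

/-- upper bound of the square root of `N = a ^ 2 + b ^ 2` -/
def nrm (a b N : ℕ) : ℕ := nrm1 N (Nat.add (Nat.div (Nat.mul (Nat.add a b) 27) 32) 1)

noncomputable def ustep1 (P Q t r a b al be N s2 : ℕ) (k : ℕ → ℕ → ℕ → Bool) : Bool :=
  gd (Nat.ble N 4503599627370496)
    (k (Nat.add (Nat.div (Nat.sub (Nat.add al 9007199254740992) be) 16777216) P)
      (Nat.sub (Nat.div (Nat.sub (Nat.add s2 9007199254740992) N) 16777216) Q)
      (Nat.add (Nat.div (Nat.mul (Nat.add (Nat.mul 2 (nrm a b N)) r) r) 16777216) t))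

noncomputable def ustep2 (P Q t r a b al be s : ℕ) (k : ℕ → ℕ → ℕ → Bool) : Bool :=
  ustep1 P Q t r a b al be (Nat.add al be) (Nat.mul s s) k

noncomputable def ustep3 (P Q t r a b s : ℕ) (k : ℕ → ℕ → ℕ → Bool) : Bool :=
  ustep2 P Q t r a b (Nat.mul a a) (Nat.mul b b) s k

/-- one step of `y ↦ y ^ 2 + c'` -/
noncomputable def ustep (P Q t A B r : ℕ) (k : ℕ → ℕ → ℕ → Bool) : Bool :=
  ustep3 P Q t r (dist A 536870912) (dist B 536870912) (dist (Nat.add A B) 1073741824) k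

/-- `j` steps -/
noncomputable def uiter (P Q t : ℕ) (k : ℕ → ℕ → ℕ → Bool) (j : ℕ) : ℕ → ℕ → ℕ → Bool :=
  Nat.rec k (fun _ ih A B r => ustep P Q t A B r ih) j

noncomputable def gstep6 (t D A B r Cp Cm Ca A1 B1 w : ℕ) (k : ℕ → ℕ → ℕ → Bool) : Bool :=
  k (Nat.div (Nat.sub (Nat.add (Nat.mul Cp A1) (Nat.mul D A)) (Nat.mul Cm A1)) 16777216)
    (Nat.div (Nat.sub (Nat.add (Nat.mul Cp B1) (Nat.mul D B)) (Nat.mul Cm B1)) 16777216)
    (Nat.add (Nat.div (Nat.add (Nat.mul w r) (Nat.mul Ca (Nat.add (Nat.div (Nat.mul r r) 16777216) t)))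
      16777216) 40)

noncomputable def gstep5 (t D A B r Cp Cm Ca A1 B1 m n : ℕ) (k : ℕ → ℕ → ℕ → Bool) : Bool :=
  gstep6 t D A B r Cp Cm Ca A1 B1 (nrm m n (Nat.add (Nat.mul m m) (Nat.mul n n))) k

noncomputable def gstep4 (P Q t D A B r b al be N s2 Cp Cm Ca : ℕ) (k : ℕ → ℕ → ℕ → Bool) : Bool :=
  gd (Nat.ble (Nat.add N (Nat.mul 268435456 r)) 4503599627370496)
    (gstep5 t D A B r Cp Cm Ca
      (Nat.add (Nat.div (Nat.sub (Nat.add al 9007199254740992) be) 16777216) P)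
      (Nat.sub (Nat.div (Nat.sub (Nat.add s2 9007199254740992) N) 16777216) Q)
      (Nat.add (Nat.div (dist
          (Nat.add (Nat.mul 16777216 D) (Nat.add (Nat.mul (Nat.mul 2 Cp) A) (Nat.mul 1073741824 Cm)))
          (Nat.add (Nat.mul 1073741824 Cp) (Nat.mul (Nat.mul 2 Cm) A))) 16777216) 1)
      (Nat.add (Nat.div (Nat.mul (Nat.mul 2 Ca) b) 16777216) 1) k)

noncomputable def gstep3 (P Q t D A B r b al be s Cp Cm : ℕ) (k : ℕ → ℕ → ℕ → Bool) : Bool :=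
  gstep4 P Q t D A B r b al be (Nat.add al be) (Nat.mul s s) Cp Cm (Nat.add Cp Cm) k

noncomputable def gstep2 (P Q t D A B r a b s : ℕ) (k : ℕ → ℕ → ℕ → Bool) : Bool :=
  gstep3 P Q t D A B r b (Nat.mul a a) (Nat.mul b b) s (Nat.sub 16777216 D) (Nat.sub D 16777216) k

/-- one step of `y ↦ c (y ^ 2 + c') + (1 - c) y`, `D` approximates `S (1 - c)` -/
noncomputable def gstep (P Q t D A B r : ℕ) (k : ℕ → ℕ → ℕ → Bool) : Bool :=
  gstep2 P Q t D A B r (dist A 536870912) (dist B 536870912) (dist (Nat.add A B) 1073741824) k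

/-- the steps given by a list -/
noncomputable def giter (P Q t : ℕ) (k : ℕ → ℕ → ℕ → Bool) (l : List ℕ) : ℕ → ℕ → ℕ → Bool :=
  List.rec k (fun D _ ih A B r => gstep P Q t D A B r ih) l

noncomputable def esc2 (a b R : ℕ) : Bool :=
  Nat.ble (Nat.succ (Nat.mul R R)) (Nat.add (Nat.mul a a) (Nat.mul b b))

/-- escape -/
noncomputable def esc (A B r : ℕ) : Bool :=
  esc2 (dist A 536870912) (dist B 536870912) (Nat.add 21474837 r)

noncomputable def attb2 (x y R : ℕ) : Bool :=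
  Nat.ble (Nat.succ (Nat.add (Nat.mul x x) (Nat.mul y y))) (Nat.mul R R)

/-- second basin test; `kx = T + Re κ`, `ky = - Im κ` -/
noncomputable def attb (kx ky ρ A B r : ℕ) : Bool :=
  attb2 (dist A kx) (dist (Nat.add B ky) 536870912) (Nat.sub ρ r)

noncomputable def atta4 (A B r τ g h Z : ℕ) : Bool :=
  Nat.ble (Nat.succ (Nat.add (Nat.add (Nat.mul 16777216 A) (Nat.mul τ B))
    (Nat.add (Nat.mul g r) (Nat.mul h Z)))) (Nat.add 9147936743096320 (Nat.mul τ 536870912))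

noncomputable def atta3 (A B r t1 g1 h1 t2 g2 h2 Z : ℕ) : Bool :=
  gd (atta4 A B r t1 g1 h1 Z) (atta4 A B r t2 g2 h2 Z)

noncomputable def atta2 (E A B r t1 g1 h1 t2 g2 h2 u : ℕ) : Bool :=
  atta3 A B r t1 g1 h1 t2 g2 h2 (Nat.add (Nat.div (Nat.mul u u) 16777216) E)

noncomputable def atta1 (E A B r t1 g1 h1 t2 g2 h2 a b : ℕ) : Bool :=
  atta2 E A B r t1 g1 h1 t2 g2 h2 (Nat.add (nrm a b (Nat.add (Nat.mul a a) (Nat.mul b b))) r)

/-- first basin test -/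
noncomputable def atta (E t1 g1 h1 t2 g2 h2 A B r : ℕ) : Bool :=
  atta1 E A B r t1 g1 h1 t2 g2 h2 (dist A 545259520) (dist B 536870912)

noncomputable def good1 (τ g A B r : ℕ) : Bool :=
  Nat.ble (Nat.add (Nat.mul (Nat.add 16777216 τ) 536870912) (Nat.mul g r))
    (Nat.add 136339441844224 (Nat.add (Nat.mul 16777216 A) (Nat.mul τ B)))

/-- good test -/
noncomputable def good (t1 g1 t2 g2 A B r : ℕ) : Bool :=
  gd (good1 t1 g1 A B r) (good1 t2 g2 A B r)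

/-- final check -/
noncomputable def fin (E t1 g1 h1 t2 g2 h2 kx ky ρ kd : ℕ) : ℕ → ℕ → ℕ → Bool :=
  Nat.rec esc (fun k' _ => Nat.rec (atta E t1 g1 h1 t2 g2 h2) (fun _ _ => attb kx ky ρ) k') kd

/-- `n`-th test -/
noncomputable def nth (l : List (ℕ × List ℕ)) (n : ℕ) (k : ℕ → List ℕ → Bool) : Bool :=
  List.rec (motive := fun _ => ℕ → Bool) (fun _ => false)
    (fun x _ ih n => Nat.rec (Prod.rec k x) (fun m _ => ih m) n) l n

/-- box check with code `m`: index `m % 32`, number of steps `m / 32 % 16`, kind `m / 512` -/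
noncomputable def box2 (Ts : List (ℕ × List ℕ)) (P Q t E t1 g1 h1 t2 g2 h2 kx ky ρ : ℕ)
    (A B r idx j kd : ℕ) : Bool :=
  Nat.rec (uiter P Q t (fin E t1 g1 h1 t2 g2 h2 kx ky ρ kd) j A B r)
    (fun idx' _ => Nat.rec (uiter P Q t (good t1 g1 t2 g2) 1 A B r)
      (fun idx'' _ => nth Ts idx'' (fun d l =>
        giter P Q t (uiter P Q t (fin E t1 g1 h1 t2 g2 h2 kx ky ρ kd) j) l A B (Nat.add r d)))
      idx') idx

noncomputable def box1 (Ts : List (ℕ × List ℕ)) (P Q t E t1 g1 h1 t2 g2 h2 kx ky ρ : ℕ)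
    (A B h m : ℕ) : Bool :=
  box2 Ts P Q t E t1 g1 h1 t2 g2 h2 kx ky ρ A B (Nat.add (Nat.div (Nat.mul h 1449) 1024) 1)
    (Nat.mod m 32) (Nat.mod (Nat.div m 32) 16) (Nat.mod (Nat.div m 512) 4)

/-- leaf: check and return the rest -/
noncomputable def leaf (bx : ℕ → ℕ → ℕ → ℕ → Bool) (A B h m : ℕ) : ℕ :=
  Bool.rec 0 (Nat.div m 2048) (bx A B h m)

noncomputable def spl (go : ℕ → ℕ → ℕ → ℕ → ℕ) (A B h n : ℕ) : ℕ :=
  go (Nat.add A h) (Nat.add B h) h (go (Nat.add A h) (Nat.sub B h) h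
    (go (Nat.sub A h) (Nat.add B h) h (go (Nat.sub A h) (Nat.sub B h) h n)))

/-- the quad tree -/
noncomputable def go (bx : ℕ → ℕ → ℕ → ℕ → Bool) (d : ℕ) : ℕ → ℕ → ℕ → ℕ → ℕ :=
  Nat.rec (fun A B h n => Nat.rec 0 (fun _ _ => leaf bx A B h (Nat.div n 2)) (Nat.mod n 2))
    (fun _ ih A B h n => Nat.rec (spl ih A B (Nat.div h 2) (Nat.div n 2))
      (fun _ _ => leaf bx A B h (Nat.div n 2)) (Nat.mod n 2)) d

/-- force evaluation -/
noncomputable def frc (n : ℕ) (k : ℕ → Bool) : Bool := Nat.rec (k 0) (fun m _ => k (Nat.succ m)) n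

noncomputable def cell3 (Ts : List (ℕ × List ℕ)) (P Q t E kx ky ρ t1 t2 g1 g2 h1 h2 n : ℕ) : Bool :=
  frc P fun P => frc Q fun Q => frc t fun t => frc E fun E => frc kx fun kx => frc ky fun ky =>
  frc ρ fun ρ => frc t1 fun t1 => frc t2 fun t2 => frc g1 fun g1 => frc g2 fun g2 => frc h1 fun h1 =>
  frc h2 fun h2 =>
    Nat.ble 1 (go (box1 Ts P Q t E t1 g1 h1 t2 g2 h2 kx ky ρ) 14 536870912 536870912 22020096 n)

/-- bound for `√(1 + τ²)` and `1 + τ²` -/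
def gnrm (τ : ℕ) : ℕ := nrm 16777216 τ (281474976710656 + τ * τ)

def hnrm (τ : ℕ) : ℕ := (281474976710656 + τ * τ) / 16777216 + 1

noncomputable def cell2 (Ts : List (ℕ × List ℕ)) (x y e N t1 t2 n : ℕ) : Bool :=
  cell3 Ts (4194304 + y * y / 16777216 - x * x / 16777216) (2 * x * y / 16777216)
    ((2 * nrm x y N + e) * e / 16777216 + 6)
    (((nrm x y N + e) * (nrm x y N + e)) / 16777216 + 2)
    (545259520 - x) y (16777216 - (2 * nrm (8388608 - x) y ((8388608 - x) * (8388608 - x) + y * y) + 3 * e + 1))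
    t1 t2 (gnrm t1) (gnrm t2) (hnrm t1) (hnrm t2) n

/-- check of the cell `[X, X + 2 H] × [Y, Y + 2 H]` -/
noncomputable def cell (Ts : List (ℕ × List ℕ)) (X Y H n : ℕ) : Bool :=
  cell2 Ts (X + H) (Y + H) (H * 1449 / 1024 + 1) ((X + H) * (X + H) + (Y + H) * (Y + H))
    (16777216 * Y / (X + 2 * H)) (Nat.min 16777216 (Nat.rec 16777216 (fun _ _ => 16777216 * (Y + 2 * H) / X + 1) X)) n

end Pool.Agent.W_MP_4481e3_an.Ev
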