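import Pool.Agent.W_MP_4481e3_low.LeafLim

/-!
Analysis of leaves over the zero block, given the kill certificate.
-/

open MeasureTheory Filter Topology Set

namespace Pool.Agent.W_MP_4481e3_an

variable {L : ℕ} {ε : ℂ} {P K : ℝ} {W : ℤ → ℝ → ℂ}

/-- the fibre map over the fixed base point `0` -/
def f0 (e Z : ℂ) : ℂ := Z + (e - Z ^ 2)

/-- outside the filled Julia set of `f0` -/
def Esc (Z : ℂ) : Prop := 32 / 25 < ‖Z - 1 / 2‖

/-- in the basin of the attracting fixed point `ε` of `f0` -/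
def Att (ε Z : ℂ) : Prop :=
  (ε.re ^ 2 + ε.im ^ 2) * (Z.re ^ 2 + Z.im ^ 2 + (ε.re ^ 2 + ε.im ^ 2)) <
    ε.re * (ε.re * Z.re + ε.im * Z.im) ∨ ‖Z - ε‖ + ‖1 - 2 * ε‖ < 1

/-- not in the Julia set of `f0` -/
def Dead (ε Z : ℂ) : Prop := ∃ j : ℕ, Esc ((f0 (ε ^ 2))^[j] Z) ∨ Att ε ((f0 (ε ^ 2))^[j] Z)

/-- the region where `|X/Y|` increases -/
def GoodPt (ε Z : ℂ) : Prop := 1 / 64 * ε.re ≤ ε.re * (1 - Z.re) - ε.im * Z.im

/-- composition along the orbit of the base point `s / L ^ i` up to the base point `s` -/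
noncomputable def comp (L : ℕ) (e : ℂ) (s : ℕ) : ℕ → ℂ → ℂ
  | 0, Z => Z
  | i + 1, Z => comp L e s i
      (Z + (Real.cos (2 * Real.pi * ((s : ℝ) / (L:ℝ) ^ (i + 1))) : ℂ) * (e - Z ^ 2))

/-- the flatness constant -/
noncomputable def kap (L : ℕ) : ℝ := 5054 / (100 * (L:ℝ) ^ 2 - 270)

/-- the kill certificate -/
def Cert (L : ℕ) : Prop := ∀ ε : ℂ, 0 < ε.re → 0 ≤ ε.im → ε.im ≤ ε.re → ‖ε‖ < 1 / 2 → ∀ w : ℂ,
  Dead ε w ∨ GoodPt ε (f0 (ε ^ 2) w) ∨ ∃ s i : ℕ, (s : ℝ) / (L:ℝ) ^ i ≤ 1 / 9 ∧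
    ∀ δ : ℂ, ‖δ‖ ≤ kap L * ((s : ℝ) / (L:ℝ) ^ i) ^ 2 → Dead ε (comp L (ε ^ 2) s i (w + δ))

lemma cos_int_mul (n : ℤ) : Real.cos (2 * Real.pi * (n : ℝ)) = 1 := by
  rw [mul_comm]; exact Real.cos_int_mul_two_pi n

lemma cos_int_add (n : ℤ) (x : ℝ) : Real.cos (2 * Real.pi * ((n : ℝ) + x)) = Real.cos (2 * Real.pi * x) := by
  have : 2 * Real.pi * ((n : ℝ) + x) = 2 * Real.pi * x + n * (2 * Real.pi) := by ring
  rw [this, Real.cos_add_int_mul_two_pi]

lemma Leaf.orbit (hW : Leaf L ε P K W) (m s : ℤ) (j : ℕ) :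
    W (m + j) (((L:ℤ) ^ j * s : ℤ) : ℝ) = (f0 (ε ^ 2))^[j] (W m s) := by
  induction j with
  | zero => simp
  | succ j ih =>
    rw [Function.iterate_succ_apply', ← ih]
    have h := hW.recur (m + j) (((L:ℤ) ^ j * s : ℤ) : ℝ)
    rw [cos_int_mul, Complex.ofReal_one, one_mul] at h
    have h1 : (L:ℝ) * (((L:ℤ) ^ j * s : ℤ) : ℝ) = (((L:ℤ) ^ (j + 1) * s : ℤ) : ℝ) := by
      push_cast; ring
    rw [h1] at h
    push_cast at h ⊢
    rw [← add_assoc, h]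
    rfl

/-- parameters -/
structure Par (ε : ℂ) : Prop where
  re : 0 < ε.re
  im : 0 ≤ ε.im
  le : ε.im ≤ ε.re
  lt_half : ‖ε‖ < 1 / 2

lemma Par.half (h : Par ε) : ‖ε‖ ≤ 1 / 2 := h.lt_half.le

lemma Par.nsq (h : Par ε) : ε.re ^ 2 + ε.im ^ 2 ≤ 1 / 4 := by
  have h1 := Complex.sq_norm ε
  rw [Complex.normSq_apply] at h1
  nlinarith only [h1, h.half, norm_nonneg ε]

/-- `|ε|² < Re ε` -/
lemma Par.lt (h : Par ε) : ε.re ^ 2 + ε.im ^ 2 < ε.re := by
  have h1 := h.nsq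
  have h2 := h.re
  have h3 := h.im
  have h4 := h.le
  by_cases hx : ε.re < 1 / 2
  · nlinarith only [h2, h3, h4, hx]
  · push Not at hx
    nlinarith

lemma Par.mult (h : Par ε) : ‖1 - 2 * ε‖ < 1 := by
  have h1 : ‖1 - 2 * ε‖ ^ 2 = (1 - 2 * ε.re) ^ 2 + (2 * ε.im) ^ 2 := by
    rw [Complex.sq_norm, Complex.normSq_apply]
    simp; ring
  have h2 := h.lt
  have h3 : ‖1 - 2 * ε‖ ^ 2 < 1 := by rw [h1]; linarith only [h2]
  nlinarith only [h3]

lemma f0_sub (ε Z : ℂ) : f0 (ε ^ 2) Z - ε = (Z - ε) * (1 - ε - Z) := by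
  unfold f0; ring

lemma f0_add (ε Z : ℂ) : f0 (ε ^ 2) Z + ε = (Z + ε) * (1 + ε - Z) := by
  unfold f0; ring

lemma Par.c_bound (h : Par ε) : ‖(1 / 4 : ℂ) - ε ^ 2‖ ≤ 3536 / 10000 := by
  have h1 : ‖(1 / 4 : ℂ) - ε ^ 2‖ ^ 2 = (1 / 4 - (ε.re ^ 2 - ε.im ^ 2)) ^ 2 + (2 * ε.re * ε.im) ^ 2 := by
    rw [Complex.sq_norm, Complex.normSq_apply]
    have e1 : ((1 / 4 : ℂ) - ε ^ 2).re = 1 / 4 - (ε.re ^ 2 - ε.im ^ 2) := by
      rw [pow_two]; simp; ring
    have e2 : ((1 / 4 : ℂ) - ε ^ 2).im = - (2 * ε.re * ε.im) := by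
      rw [pow_two]; simp; ring
    rw [e1, e2]; ring
  have h2 := h.nsq
  have h3 := h.re
  have h4 := h.im
  have h5 := h.le
  have h6 : ‖(1 / 4 : ℂ) - ε ^ 2‖ ^ 2 ≤ 1 / 8 := by
    rw [h1]
    have : (1 / 4 - (ε.re ^ 2 - ε.im ^ 2)) ^ 2 + (2 * ε.re * ε.im) ^ 2 =
      1 / 16 - (ε.re ^ 2 - ε.im ^ 2) / 2 + (ε.re ^ 2 + ε.im ^ 2) ^ 2 := by ring
    rw [this]
    have h7 : 0 ≤ ε.re ^ 2 - ε.im ^ 2 := by nlinarith only [h4, h5]
    have h8 : (ε.re ^ 2 + ε.im ^ 2) ^ 2 ≤ 1 / 16 := by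
      have : 0 ≤ ε.re ^ 2 + ε.im ^ 2 := by positivity
      nlinarith only [h2]
    linarith only [h7, h8]
  by_contra hcon
  push Not at hcon
  nlinarith only [h6, hcon]

lemma esc_step (h : Par ε) {Z : ℂ} (hZ : 32 / 25 ≤ ‖Z - 1 / 2‖) :
    ‖Z - 1 / 2‖ + 1 / 250 ≤ ‖f0 (ε ^ 2) Z - 1 / 2‖ := by
  have h1 : f0 (ε ^ 2) Z - 1 / 2 = -((Z - 1 / 2) ^ 2 + (1 / 4 - ε ^ 2)) := by
    unfold f0; ring
  rw [h1, norm_neg]
  have h2 : ‖(Z - 1 / 2) ^ 2‖ - ‖(1 / 4 : ℂ) - ε ^ 2‖ ≤ ‖(Z - 1 / 2) ^ 2 + (1 / 4 - ε ^ 2)‖ := by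
    have := norm_sub_norm_le ((Z - 1 / 2) ^ 2) (-((1 / 4 : ℂ) - ε ^ 2))
    rw [norm_neg, sub_neg_eq_add] at this
    exact this
  rw [norm_pow] at h2
  have h3 := h.c_bound
  nlinarith only [hZ, h2, h3]

lemma Leaf.not_esc (hW : Leaf L ε P K W) (h : Par ε) (m s : ℤ) : ¬ Esc (W m s) := by
  intro hE
  have hgrow : ∀ j : ℕ, 32 / 25 + (j:ℝ) / 250 ≤ ‖(f0 (ε ^ 2))^[j] (W m s) - 1 / 2‖ := by
    intro j
    induction j with
    | zero => simpa using hE.le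
    | succ j ih =>
      rw [Function.iterate_succ_apply']
      have h1 := esc_step h (Z := (f0 (ε ^ 2))^[j] (W m s)) (by
        have : (0:ℝ) ≤ (j:ℝ) / 250 := by positivity
        linarith)
      push_cast
      linarith
  obtain ⟨j, hj⟩ := exists_nat_gt ((P + 1) * 250)
  have h1 := hgrow j
  rw [← hW.orbit m s j] at h1
  have h2 := hW.bd (m + j) (((L:ℤ) ^ j * s : ℤ) : ℝ)
  have h3 := norm_sub_le (W (m + j) (((L:ℤ) ^ j * s : ℤ) : ℝ)) (1 / 2 : ℂ)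
  have h4 : ‖(1 / 2 : ℂ)‖ = 1 / 2 := by norm_num
  rw [h4] at h3
  have h5 : P + 1 < (j:ℝ) / 250 := by
    rw [lt_div_iff₀ (by norm_num)]; exact hj
  linarith only [h1, h2, h3, h5]

lemma one_sub_cos_le (x : ℝ) : 1 - Real.cos (2 * Real.pi * x) ≤ 20 * x ^ 2 := by
  have h1 := Real.one_sub_sq_div_two_le_cos (x := 2 * Real.pi * x)
  have h2 : Real.pi ^ 2 ≤ 10 := by nlinarith only [Real.pi_lt_d2, Real.pi_pos]
  nlinarith [sq_nonneg x]

lemma contr (h : Par ε) {x : ℝ} {Z : ℂ} (hx : |x| ≤ (1 - ‖1 - 2 * ε‖) / 80)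
    (hZ : ‖Z - ε‖ ≤ (1 - ‖1 - 2 * ε‖) / 8) :
    ‖Z + (Real.cos (2 * Real.pi * x) : ℂ) * (ε ^ 2 - Z ^ 2) - ε‖ ≤
      (1 + ‖1 - 2 * ε‖) / 2 * ‖Z - ε‖ := by
  set c := Real.cos (2 * Real.pi * x) with hc
  have h1 : Z + (c : ℂ) * (ε ^ 2 - Z ^ 2) - ε = (1 - c * (ε + Z)) * (Z - ε) := by ring
  rw [h1, norm_mul]
  have hm := h.mult
  have hm0 := norm_nonneg (1 - 2 * ε)
  set q := ‖1 - 2 * ε‖ with hq
  have hc1 : c ≤ 1 := Real.cos_le_one _
  have hc0 : 1 - c ≤ 20 * x ^ 2 := one_sub_cos_le x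
  have hx2 : x ^ 2 ≤ ((1 - q) / 80) ^ 2 := by
    rw [← sq_abs x]
    exact pow_le_pow_left₀ (abs_nonneg _) hx 2
  have hcabs : |c| ≤ 1 := Real.abs_cos_le_one _
  have h2 : ‖(1 : ℂ) - c * (ε + Z)‖ ≤ (1 + q) / 2 := by
    have h3 : (1 : ℂ) - c * (ε + Z) = (1 - 2 * ε) + ((1 - c : ℝ) : ℂ) * (2 * ε) - c * (Z - ε) := by
      push_cast; ring
    rw [h3]
    have h4 : ‖((1 - c : ℝ) : ℂ) * (2 * ε)‖ ≤ 1 - c := by
      rw [norm_mul, Complex.norm_real, Real.norm_eq_abs, abs_of_nonneg (by linarith only [hc1])]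
      have : ‖2 * ε‖ ≤ 1 := by
        rw [norm_mul]
        have : ‖(2:ℂ)‖ = 2 := by simp
        rw [this]; linarith only [h.half]
      nlinarith only [hc1, this]
    have h5 : ‖(c : ℂ) * (Z - ε)‖ ≤ (1 - q) / 8 := by
      rw [norm_mul, Complex.norm_real, Real.norm_eq_abs]
      nlinarith only [hZ, hcabs, norm_nonneg (Z - ε)]
    have h6 := norm_sub_le ((1 - 2 * ε) + ((1 - c : ℝ) : ℂ) * (2 * ε)) (c * (Z - ε))
    have h7 := norm_add_le (1 - 2 * ε) (((1 - c : ℝ) : ℂ) * (2 * ε))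
    nlinarith only [hm, hm0, hc0, hx2, h4, h5, h6, h7]
  exact mul_le_mul_of_nonneg_right h2 (norm_nonneg _)

/-- no leaf point over the base point `0` is attracted to `ε` -/
lemma Leaf.no_tendsto (hW : Leaf L ε P K W) (h : Par ε) (hL : 3 ≤ L) (m s : ℤ)
    (hT : Tendsto (fun j : ℕ => (f0 (ε ^ 2))^[j] (W m s)) atTop (𝓝 ε)) : False := by
  have hm := h.mult
  have hm0 := norm_nonneg (1 - 2 * ε)
  set q := ‖1 - 2 * ε‖ with hq
  have hL0 : (3:ℝ) ≤ L := by exact_mod_cast hL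
  have hr : 0 < (1 - q) / 8 := by linarith
  have hτ : 0 < (1 - q) / 80 := by linarith only [hr]
  -- j₀
  obtain ⟨j₀, hj₀⟩ : ∃ j₀ : ℕ, ‖(f0 (ε ^ 2))^[j₀] (W m s) - ε‖ ≤ (1 - q) / 16 := by
    have h1 := (tendsto_iff_norm_sub_tendsto_zero.1 hT).eventually
      (Iic_mem_nhds (show (0:ℝ) < (1 - q) / 16 by linarith))
    exact h1.exists
  rw [← hW.orbit m s j₀] at hj₀
  set m' := m + (j₀ : ℤ) with hm'
  set s' : ℤ := (L:ℤ) ^ j₀ * s with hs'
  have hKx : 0 < |K| + 1 := by positivity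
  set x₀ := (1 - q) / 16 / (|K| + 1) with hx₀
  have hx₀pos : 0 < x₀ := by positivity
  have hstart : ∀ x : ℝ, |x| ≤ x₀ → ‖W m' ((s' : ℝ) + x) - ε‖ ≤ (1 - q) / 8 := by
    intro x hx
    have h1 := hW.lip m' ((s' : ℝ) + x) s'
    rw [add_sub_cancel_left] at h1
    have h2 : K * |x| ≤ (1 - q) / 16 := by
      have h3 : K * |x| ≤ (|K| + 1) * x₀ := by
        have := le_abs_self K
        have := abs_nonneg x
        nlinarith
      rw [hx₀] at h3
      rw [mul_div_cancel₀ _ hKx.ne'] at h3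
      exact h3
    have h4 : W m' ((s' : ℝ) + x) - ε = (W m' ((s' : ℝ) + x) - W m' s') + (W m' s' - ε) := by ring
    rw [h4]
    refine (norm_add_le _ _).trans ?_
    linarith only [hj₀, h1, h2]
  have hclaim : ∀ i : ℕ, ∀ x : ℝ, |x| ≤ x₀ → (L:ℝ) ^ i * |x| ≤ (1 - q) / 80 →
      ‖W (m' + i) ((L:ℝ) ^ i * ((s' : ℝ) + x)) - ε‖ ≤ ((1 + q) / 2) ^ i * ((1 - q) / 8) := by
    intro i
    induction i with
    | zero =>
      intro x hx _
      simpa using hstart x hx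
    | succ i ih =>
      intro x hx hx2
      have hpos : (0:ℝ) < (L:ℝ) ^ i := by positivity
      have hx3 : (L:ℝ) ^ i * |x| ≤ (1 - q) / 80 := by
        rw [pow_succ] at hx2
        have : 0 ≤ (L:ℝ) ^ i * |x| := by positivity
        nlinarith only [hL0, hr, hx2]
      have ih' := ih x hx hx3
      have hrec := hW.recur (m' + i) ((L:ℝ) ^ i * ((s' : ℝ) + x))
      have harg : (L:ℝ) ^ i * ((s' : ℝ) + x) = (((L:ℤ) ^ i * s' : ℤ) : ℝ) + (L:ℝ) ^ i * x := by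
        push_cast; ring
      have hcos : Real.cos (2 * Real.pi * ((L:ℝ) ^ i * ((s' : ℝ) + x))) =
          Real.cos (2 * Real.pi * ((L:ℝ) ^ i * x)) := by
        rw [harg, cos_int_add]
      rw [hcos] at hrec
      have harg2 : (L:ℝ) * ((L:ℝ) ^ i * ((s' : ℝ) + x)) = (L:ℝ) ^ (i + 1) * ((s' : ℝ) + x) := by ring
      rw [harg2] at hrec
      have hidx : m' + ((i + 1 : ℕ) : ℤ) = m' + i + 1 := by push_cast; ring
      rw [hidx, hrec]
      have hq1 : (1 + q) / 2 ≤ 1 := by linarith only [hτ]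
      have hpow : ((1 + q) / 2) ^ i ≤ 1 := pow_le_one₀ (by linarith only [hm0]) hq1
      have h5 := contr h (x := (L:ℝ) ^ i * x) (Z := W (m' + i) ((L:ℝ) ^ i * ((s' : ℝ) + x))) (by
        rw [abs_mul, abs_of_pos hpos]; exact hx3) (ih'.trans (by nlinarith only [hq1, hpow]))
      refine h5.trans ?_
      rw [pow_succ]
      calc (1 + q) / 2 * ‖W (m' + i) ((L:ℝ) ^ i * ((s' : ℝ) + x)) - ε‖
          ≤ (1 + q) / 2 * (((1 + q) / 2) ^ i * ((1 - q) / 8)) := by gcongr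
        _ = _ := by ring
  obtain ⟨R, hR, hnear⟩ := hW.near ((1 - q) / 80) hτ
  -- choose i
  have hlim1 : Tendsto (fun i : ℕ => ((1 + q) / 2) ^ i * ((1 - q) / 8)) atTop (𝓝 (0 * ((1 - q) / 8))) :=
    (tendsto_pow_atTop_nhds_zero_of_lt_one (by linarith only [hm0]) (by linarith only [hτ])).mul_const _
  rw [zero_mul] at hlim1
  have hlim2 : Tendsto (fun i : ℕ => (1 - q) / 80 / (L:ℝ) ^ i) atTop (𝓝 0) :=
    tendsto_const_nhds.div_atTop (tendsto_pow_atTop_atTop_of_one_lt (by linarith only [hL0]))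
  obtain ⟨i, hi1, hi2⟩ := ((hlim1.eventually (Iio_mem_nhds hR)).and
    (hlim2.eventually (Iic_mem_nhds hx₀pos))).exists
  obtain ⟨⟨t, ht, hRt⟩, _⟩ := hnear (m' + i) ((L:ℝ) ^ i * (s' : ℝ))
  have hpos : (0:ℝ) < (L:ℝ) ^ i := by positivity
  set x := t / (L:ℝ) ^ i - s' with hx
  have hLx : (L:ℝ) ^ i * x = t - (L:ℝ) ^ i * s' := by
    rw [hx]; field_simp
  have hLxabs : (L:ℝ) ^ i * |x| ≤ (1 - q) / 80 := by
    have h10 : (L:ℝ) ^ i * |x| = |(L:ℝ) ^ i * x| := by rw [abs_mul, abs_of_pos hpos]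
    rw [h10, hLx, abs_le]
    constructor <;> linarith [ht.1, ht.2]
  have hxabs : |x| ≤ x₀ := by
    have h6 : |x| ≤ (1 - q) / 80 / (L:ℝ) ^ i := by
      rw [le_div_iff₀ hpos]; linarith only [hLxabs]
    exact h6.trans hi2
  have h7 := hclaim i x hxabs hLxabs
  have h8 : (L:ℝ) ^ i * ((s' : ℝ) + x) = t := by rw [mul_add, hLx]; ring
  rw [h8] at h7
  have h9 : ((1 + q) / 2) ^ i * ((1 - q) / 8) < R := hi1
  linarith only [hRt, h7, h9]

/-- linear basin -/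
lemma att_two {Z : ℂ} (hZ : ‖Z - ε‖ + ‖1 - 2 * ε‖ < 1) :
    Tendsto (fun j : ℕ => (f0 (ε ^ 2))^[j] Z) atTop (𝓝 ε) := by
  set θ := ‖Z - ε‖ + ‖1 - 2 * ε‖ with hθ
  have hθ0 : 0 ≤ θ := by positivity
  have hb : ∀ j : ℕ, ‖(f0 (ε ^ 2))^[j] Z - ε‖ ≤ θ ^ j * ‖Z - ε‖ := by
    intro j
    induction j with
    | zero => simp
    | succ j ih =>
      rw [Function.iterate_succ_apply', f0_sub, norm_mul]
      set V := (f0 (ε ^ 2))^[j] Z with hV
      have h1 : ‖1 - ε - V‖ ≤ θ := by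
        have : 1 - ε - V = (1 - 2 * ε) - (V - ε) := by ring
        rw [this]
        refine (norm_sub_le _ _).trans ?_
        have h2 : θ ^ j ≤ 1 := pow_le_one₀ hθ0 hZ.le
        have h3 : ‖V - ε‖ ≤ ‖Z - ε‖ := ih.trans (by nlinarith only [h2, norm_nonneg (Z - ε)])
        linarith
      rw [pow_succ]
      calc ‖V - ε‖ * ‖1 - ε - V‖ ≤ (θ ^ j * ‖Z - ε‖) * θ := by gcongr
        _ = _ := by ring
  rw [tendsto_iff_norm_sub_tendsto_zero]
  refine squeeze_zero (fun _ => norm_nonneg _) hb ?_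
  have := (tendsto_pow_atTop_nhds_zero_of_lt_one hθ0 hZ).mul_const ‖Z - ε‖
  rw [zero_mul] at this
  exact this

lemma re_mul_conj_eq (ε Z : ℂ) : ‖1 + ε - Z‖ ^ 2 = ‖1 - ε - Z‖ ^ 2 +
    4 * (ε.re * (1 - Z.re) - ε.im * Z.im) := by
  rw [Complex.sq_norm, Complex.sq_norm, Complex.normSq_apply, Complex.normSq_apply]
  simp; ring

/-- growth of the ratio -/
lemma ratio_step {Z : ℂ} {g B N : ℝ} (hg : g ≤ 4 * (ε.re * (1 - Z.re) - ε.im * Z.im)) (hg0 : 0 < g)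
    (hB : ‖1 + ε - Z‖ ^ 2 ≤ B) (hN0 : 0 ≤ N)
    (hN : ‖Z - ε‖ ^ 2 ≤ N * ‖Z + ε‖ ^ 2) :
    ‖f0 (ε ^ 2) Z - ε‖ ^ 2 ≤ ((1 - g / B) * N) * ‖f0 (ε ^ 2) Z + ε‖ ^ 2 := by
  rw [f0_sub, f0_add, norm_mul, norm_mul, mul_pow, mul_pow]
  have h1 := re_mul_conj_eq ε Z
  have hB0 : 0 < B := by
    have : 0 ≤ ‖1 - ε - Z‖ ^ 2 := by positivity
    linarith
  have h2 : ‖1 - ε - Z‖ ^ 2 ≤ (1 - g / B) * ‖1 + ε - Z‖ ^ 2 := by
    have h3 : g / B * ‖1 + ε - Z‖ ^ 2 ≤ g := by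
      rw [div_mul_eq_mul_div, div_le_iff₀ hB0]
      nlinarith only [hg0, hB]
    linarith only [hg, h1, h3]
  have h4 : 0 ≤ ‖1 - ε - Z‖ ^ 2 := by positivity
  calc ‖Z - ε‖ ^ 2 * ‖1 - ε - Z‖ ^ 2 ≤ (N * ‖Z + ε‖ ^ 2) * ((1 - g / B) * ‖1 + ε - Z‖ ^ 2) := by
        gcongr
    _ = _ := by ring

/-- the Apollonius disc is contained in the basin -/
lemma att_one (h : Par ε) {Z : ℂ}
    (hZ : (ε.re ^ 2 + ε.im ^ 2) * (Z.re ^ 2 + Z.im ^ 2 + (ε.re ^ 2 + ε.im ^ 2)) <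
      ε.re * (ε.re * Z.re + ε.im * Z.im)) :
    Tendsto (fun j : ℕ => (f0 (ε ^ 2))^[j] Z) atTop (𝓝 ε) := by
  have hx := h.re
  have hy := h.im
  have hxy := h.le
  have hlt := h.lt
  have hnsq := h.nsq
  set x := ε.re with hxd
  set y := ε.im with hyd
  set n2 := x ^ 2 + y ^ 2 with hn2
  have hn2pos : 0 < n2 := by positivity
  -- the condition at a general point with constant `N`
  -- `N` : ratio bound, `‖Z-ε‖² ≤ N ‖Z+ε‖²`
  have e1 : ∀ V : ℂ, ‖V - ε‖ ^ 2 = V.re ^ 2 + V.im ^ 2 + n2 - 2 * (x * V.re + y * V.im) := by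
    intro V
    rw [Complex.sq_norm, Complex.normSq_apply, Complex.sub_re, Complex.sub_im, hn2]; ring
  have e2 : ∀ V : ℂ, ‖V + ε‖ ^ 2 = V.re ^ 2 + V.im ^ 2 + n2 + 2 * (x * V.re + y * V.im) := by
    intro V
    rw [Complex.sq_norm, Complex.normSq_apply, Complex.add_re, Complex.add_im, hn2]; ring
  -- t = n2 / x, threshold N* = ((1-t)/(1+t))^2 ; we use N₁ = (1 - k)/(1 + k), k > 2 t/(1+t^2)
  set A0 := Z.re ^ 2 + Z.im ^ 2 + n2 with hA0
  set B0 := x * Z.re + y * Z.im with hB0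
  have hA0pos : 0 < A0 := by positivity
  have hB0pos : 0 < B0 := by
    have : 0 < n2 * A0 := by positivity
    nlinarith only [hlt, hn2, hZ, this]
  set k := 2 * B0 / A0 with hk
  have hk1 : 2 * (n2 / x) < k := by
    rw [hk]
    rw [mul_div_assoc', div_lt_div_iff₀ hx hA0pos]
    linarith only [hZ]
  have hkle : k ≤ 1 := by
    rw [hk, div_le_one hA0pos]
    have : 0 ≤ ‖Z - ε‖ ^ 2 := by positivity
    rw [e1 Z] at this
    linarith only [this]
  have hkpos : 0 < k := by positivity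
  have hg0 : 0 < x - 2 * n2 / k := by
    have h1 : 2 * n2 / k < x := by
      rw [div_lt_iff₀ hkpos]
      have h2 : 2 * (n2 / x) * x = 2 * n2 := by field_simp
      nlinarith only [hlt, hk1, h2]
    linarith only [h1]
  set g := 4 * (x - 2 * n2 / k) with hg
  set B := 9 / 2 + 8 * n2 / k ^ 2 with hB
  set N := (1 - k) / (1 + k) with hN
  have hN0 : 0 ≤ N := div_nonneg (by linarith only [hkle]) (by linarith only [hkpos])
  have hBpos : 0 < B := by positivity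
  have hgB : g ≤ B := by
    have h1 : 0 ≤ 2 * n2 / k := by positivity
    have h2 : 0 ≤ 8 * n2 / k ^ 2 := by positivity
    have h3 : x ≤ 1 / 2 := by nlinarith only [hnsq]
    rw [hg, hB]; linarith only [h1, h2, h3]
  set θ := 1 - g / B with hθ
  have hθ0 : 0 ≤ θ := by
    have : g / B ≤ 1 := (div_le_one hBpos).2 hgB
    linarith only [this]
  have hgpos : 0 < g := by rw [hg]; linarith only [hg0]
  have hθ1 : θ < 1 := by
    have : 0 < g / B := by positivity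
    linarith only [this]
  -- consequences of the ratio bound
  have key : ∀ V : ℂ, ‖V - ε‖ ^ 2 ≤ N * ‖V + ε‖ ^ 2 →
      x * V.re + y * V.im ≤ 2 * n2 / k ∧ V.re ^ 2 + V.im ^ 2 ≤ 4 * n2 / k ^ 2 := by
    intro V hV
    rw [e1, e2, hN, div_mul_eq_mul_div, le_div_iff₀ (by linarith only [hkpos])] at hV
    set B' := x * V.re + y * V.im with hB'
    have h1 : k * (V.re ^ 2 + V.im ^ 2 + n2) ≤ 2 * B' := by linarith only [hV]
    have hB'pos : 0 < B' := by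
      have : 0 < k * (V.re ^ 2 + V.im ^ 2 + n2) := by positivity
      linarith only [h1, this]
    have hCS : B' ^ 2 ≤ n2 * (V.re ^ 2 + V.im ^ 2) := by
      rw [hB', hn2]; linarith only [sq_nonneg (x * V.im - y * V.re)]
    have h2 : k * B' ^ 2 ≤ 2 * n2 * B' := by
      have h3 : k * B' ^ 2 ≤ k * (n2 * (V.re ^ 2 + V.im ^ 2)) := by gcongr
      have h4 : 0 ≤ k * n2 := by positivity
      nlinarith only [hkpos, h1, h3, h4]
    have h5 : B' ≤ 2 * n2 / k := by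
      rw [le_div_iff₀ hkpos]
      nlinarith only [hB'pos, h2]
    refine ⟨h5, ?_⟩
    have h6 : k * (V.re ^ 2 + V.im ^ 2) ≤ 2 * B' := by
      have : 0 ≤ k * n2 := by positivity
      linarith only [h1, this]
    have h7 : V.re ^ 2 + V.im ^ 2 ≤ 2 * (2 * n2 / k) / k := by
      rw [le_div_iff₀ hkpos]; linarith only [h5, h6]
    refine h7.trans (le_of_eq ?_)
    field_simp; ring
  have hclaim : ∀ j : ℕ, ‖(f0 (ε ^ 2))^[j] Z - ε‖ ^ 2 ≤ (θ ^ j * N) * ‖(f0 (ε ^ 2))^[j] Z + ε‖ ^ 2 := by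
    intro j
    induction j with
    | zero =>
      simp only [Function.iterate_zero, id, pow_zero, one_mul]
      rw [e1, e2, hN, div_mul_eq_mul_div, le_div_iff₀ (by linarith only [hkpos])]
      have h1 : k * A0 = 2 * B0 := by rw [hk]; field_simp
      linarith only [h1]
    | succ j ih =>
      rw [Function.iterate_succ_apply']
      set V := (f0 (ε ^ 2))^[j] Z with hV
      have hpow : θ ^ j ≤ 1 := pow_le_one₀ hθ0 hθ1.le
      have hVN : ‖V - ε‖ ^ 2 ≤ N * ‖V + ε‖ ^ 2 := by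
        refine ih.trans ?_
        have : 0 ≤ N * ‖V + ε‖ ^ 2 := by positivity
        nlinarith only [hpow, this]
      obtain ⟨k1, k2⟩ := key V hVN
      have h1 := ratio_step (ε := ε) (Z := V) (g := g) (B := B) (N := θ ^ j * N) (by
          rw [hg]
          have : ε.re * (1 - V.re) - ε.im * V.im = x - (x * V.re + y * V.im) := by
            rw [hxd, hyd]; ring
          rw [this]; linarith only [k1]) hgpos (by
          have h3 : ‖1 + ε - V‖ ≤ 3 / 2 + ‖V‖ := by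
            refine (norm_sub_le _ _).trans ?_
            have := norm_add_le 1 ε
            rw [norm_one] at this
            linarith only [this, h.half]
          have h4 : ‖V‖ ^ 2 = V.re ^ 2 + V.im ^ 2 := by
            rw [Complex.sq_norm, Complex.normSq_apply]; ring
          have h5 : ‖1 + ε - V‖ ^ 2 ≤ (3 / 2 + ‖V‖) ^ 2 := pow_le_pow_left₀ (norm_nonneg _) h3 2
          have h6 : (3 / 2 + ‖V‖) ^ 2 ≤ 9 / 2 + 2 * ‖V‖ ^ 2 := by linarith only [sq_nonneg (3 / 2 - ‖V‖)]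
          have h7 : 8 * n2 / k ^ 2 = 2 * (4 * n2 / k ^ 2) := by ring
          rw [hB, h7]; linarith only [k2, h4, h5, h6]) (by positivity) ih
      refine h1.trans (le_of_eq ?_)
      rw [pow_succ]; ring
  -- convergence
  have hbd : ∀ j : ℕ, ‖(f0 (ε ^ 2))^[j] Z - ε‖ ^ 2 ≤ θ ^ j * (N * (2 * (4 * n2 / k ^ 2 + n2))) := by
    intro j
    refine (hclaim j).trans ?_
    set V := (f0 (ε ^ 2))^[j] Z with hV
    have hpow : θ ^ j ≤ 1 := pow_le_one₀ hθ0 hθ1.le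
    have hVN : ‖V - ε‖ ^ 2 ≤ N * ‖V + ε‖ ^ 2 := by
      refine (hclaim j).trans ?_
      have : 0 ≤ N * ‖V + ε‖ ^ 2 := by positivity
      nlinarith only [hpow, this]
    obtain ⟨k1, k2⟩ := key V hVN
    have h3 : ‖V + ε‖ ^ 2 ≤ 2 * (4 * n2 / k ^ 2 + n2) := by
      have h4 := e1 V
      have h5 := e2 V
      have h6 : 0 ≤ ‖V - ε‖ ^ 2 := by positivity
      linarith only [k2, h4, h5, h6]
    rw [mul_assoc]
    gcongr
  rw [tendsto_iff_norm_sub_tendsto_zero]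
  have hlim : Tendsto (fun j : ℕ => θ ^ j * (N * (2 * (4 * n2 / k ^ 2 + n2)))) atTop (𝓝 0) := by
    have := (tendsto_pow_atTop_nhds_zero_of_lt_one hθ0 hθ1).mul_const (N * (2 * (4 * n2 / k ^ 2 + n2)))
    rw [zero_mul] at this
    exact this
  have hsq : Tendsto (fun j : ℕ => ‖(f0 (ε ^ 2))^[j] Z - ε‖ ^ 2) atTop (𝓝 0) :=
    squeeze_zero (fun _ => by positivity) hbd hlim
  have h8 : Tendsto (fun j : ℕ => √(‖(f0 (ε ^ 2))^[j] Z - ε‖ ^ 2)) atTop (𝓝 (√0)) :=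
    (Real.continuous_sqrt.tendsto 0).comp hsq
  rw [Real.sqrt_zero] at h8
  refine h8.congr ?_
  intro j
  rw [Real.sqrt_sq (norm_nonneg _)]

lemma Leaf.not_dead (hW : Leaf L ε P K W) (h : Par ε) (hL : 3 ≤ L) (m s : ℤ) :
    ¬ Dead ε (W m s) := by
  rintro ⟨j, hj⟩
  rw [← hW.orbit m s j] at hj
  rcases hj with hj | hj | hj
  · exact hW.not_esc h _ _ hj
  · exact hW.no_tendsto h hL _ _ (att_one h hj)
  · exact hW.no_tendsto h hL _ _ (att_two hj)

/-- the leaf along a homoclinic base orbit -/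
lemma Leaf.comp_eq (hW : Leaf L ε P K W) (hL : 3 ≤ L) (s i : ℕ) (m : ℤ) :
    W (m + i) (s : ℝ) = comp L (ε ^ 2) s i (W m ((s : ℝ) / (L:ℝ) ^ i)) := by
  have hL0 : (0:ℝ) < L := by
    have : (3:ℝ) ≤ L := by exact_mod_cast hL
    linarith only [this]
  induction i generalizing m with
  | zero => simp [comp]
  | succ i ih =>
    rw [comp]
    have h1 := hW.recur m ((s : ℝ) / (L:ℝ) ^ (i + 1))
    have h2 : (L:ℝ) * ((s : ℝ) / (L:ℝ) ^ (i + 1)) = (s : ℝ) / (L:ℝ) ^ i := by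
      rw [pow_succ]; field_simp
    rw [h2] at h1
    rw [← h1, ← ih (m + 1)]
    congr 1
    push_cast; ring

lemma Leaf.disc (hW : Leaf L ε P K W) (h : Par ε) (m : ℤ) : ‖W m 0 - 1 / 2‖ ≤ 32 / 25 := by
  have h1 := hW.not_esc h m 0
  unfold Esc at h1
  push Not at h1
  simpa using h1

lemma Leaf.zero_succ (hW : Leaf L ε P K W) (m : ℤ) :
    W (m + 1) 0 = W m 0 + (ε ^ 2 - W m 0 ^ 2) := by
  have h1 := hW.recur m 0
  simpa using h1

/-- one step of the flatness estimate -/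
lemma Leaf.flat_step (hW : Leaf L ε P K W) (h : Par ε) {τ b : ℝ} (hτ : |τ| ≤ 1 / 27)
    (hb : b ≤ 4 / 100) (hτb : ∀ m, ‖W m τ - W m 0‖ ≤ b) (m : ℤ) :
    ‖W m (L * τ) - W m 0‖ ≤ 27 / 10 * b + 5054 / 100 * τ ^ 2 := by
  have hb0 : 0 ≤ b := (norm_nonneg _).trans (hτb 0)
  obtain ⟨m', rfl⟩ : ∃ m', m = m' + 1 := ⟨m - 1, by ring⟩
  rw [hW.recur m' τ, hW.zero_succ m']
  set c := Real.cos (2 * Real.pi * τ) with hc
  set w := W m' 0 with hw
  set δ := W m' τ - w with hδ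
  have hWτ : W m' τ = w + δ := by rw [hδ]; ring
  rw [hWτ]
  have hc1 : c ≤ 1 := Real.cos_le_one _
  have hc0 : 0 ≤ 1 - c := by linarith only [hc1]
  have hcabs : |c| ≤ 1 := Real.abs_cos_le_one _
  have hcle : 1 - c ≤ 19.7393 * τ ^ 2 := by
    have h1 := Real.one_sub_sq_div_two_le_cos (x := 2 * Real.pi * τ)
    have h2 : Real.pi ^ 2 ≤ 9.86965 := by
      have := Real.pi_lt_d6
      have := Real.pi_pos
      nlinarith
    nlinarith only [h1, h2]
  have hτ2 : τ ^ 2 ≤ 1 / 729 := by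
    rw [← sq_abs τ]
    have := abs_nonneg τ
    nlinarith only [hτ, this]
  have hdisc := hW.disc h m'
  rw [← hw] at hdisc
  have hdisc' := hW.disc h (m' + 1)
  rw [hW.zero_succ m', ← hw] at hdisc'
  have hE : ‖ε ^ 2 - w ^ 2‖ ≤ 64 / 25 := by
    have : ε ^ 2 - w ^ 2 = (w + (ε ^ 2 - w ^ 2) - 1 / 2) - (w - 1 / 2) := by ring
    rw [this]
    refine (norm_sub_le _ _).trans ?_
    linarith only [hdisc, hdisc']
  have hwn : ‖w‖ ≤ 89 / 50 := by
    have : w = (w - 1 / 2) + 1 / 2 := by ring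
    rw [this]
    refine (norm_add_le _ _).trans ?_
    have : ‖(1 / 2 : ℂ)‖ = 1 / 2 := by norm_num
    rw [this]; linarith only [hdisc]
  have hδb : ‖δ‖ ≤ b := hτb m'
  have hid : w + δ + (c : ℂ) * (ε ^ 2 - (w + δ) ^ 2) - (w + (ε ^ 2 - w ^ 2)) =
      δ * (1 - 2 * w) + δ * (((1 - c : ℝ) : ℂ) * (2 * w)) - (c : ℂ) * δ ^ 2 -
        ((1 - c : ℝ) : ℂ) * (ε ^ 2 - w ^ 2) := by
    push_cast; ring
  rw [hid]
  have n1 : ‖δ * (1 - 2 * w)‖ ≤ b * (64 / 25) := by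
    rw [norm_mul]
    have : ‖1 - 2 * w‖ ≤ 64 / 25 := by
      have h1 : 1 - 2 * w = -(2 * (w - 1 / 2)) := by ring
      rw [h1, norm_neg, norm_mul]
      have : ‖(2:ℂ)‖ = 2 := by simp
      rw [this]; linarith only [hdisc]
    gcongr
  have n2 : ‖δ * (((1 - c : ℝ) : ℂ) * (2 * w))‖ ≤ b * ((1 - c) * (89 / 25)) := by
    rw [norm_mul, norm_mul, norm_mul, Complex.norm_real, Real.norm_eq_abs, abs_of_nonneg hc0]
    have : ‖(2:ℂ)‖ = 2 := by simp
    rw [this]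
    gcongr
    linarith only [hwn]
  have n3 : ‖(c : ℂ) * δ ^ 2‖ ≤ b * b := by
    rw [norm_mul, norm_pow, Complex.norm_real, Real.norm_eq_abs]
    have := norm_nonneg δ
    have := abs_nonneg c
    nlinarith only [hcabs, mul_le_mul hδb hδb (norm_nonneg δ) hb0]
  have n4 : ‖((1 - c : ℝ) : ℂ) * (ε ^ 2 - w ^ 2)‖ ≤ (1 - c) * (64 / 25) := by
    rw [norm_mul, Complex.norm_real, Real.norm_eq_abs, abs_of_nonneg hc0]
    gcongr
  have t1 := norm_sub_le (δ * (1 - 2 * w) + δ * (((1 - c : ℝ) : ℂ) * (2 * w)) - (c : ℂ) * δ ^ 2)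
    (((1 - c : ℝ) : ℂ) * (ε ^ 2 - w ^ 2))
  have t2 := norm_sub_le (δ * (1 - 2 * w) + δ * (((1 - c : ℝ) : ℂ) * (2 * w))) ((c : ℂ) * δ ^ 2)
  have t3 := norm_add_le (δ * (1 - 2 * w)) (δ * (((1 - c : ℝ) : ℂ) * (2 * w)))
  have hc2 : (1 - c) * (89 / 25) ≤ 97 / 1000 := by linarith only [hcle, hτ2]
  have s1 : b * ((1 - c) * (89 / 25)) ≤ b * (97 / 1000) := by gcongr
  have s2 : b * b ≤ b * (4 / 100) := by gcongr
  have s3 : (1 - c) * (64 / 25) ≤ 5054 / 100 * τ ^ 2 := by linarith only [hc0, hcle]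
  linarith only [hb0, n1, n2, n3, n4, t1, t2, t3, s1, s2, s3]

lemma kap_eq (hL : 3 ≤ L) : kap L * (L:ℝ) ^ 2 = 27 / 10 * kap L + 5054 / 100 := by
  have h3 : (3:ℝ) ≤ L := by exact_mod_cast hL
  have : (100 * (L:ℝ) ^ 2 - 270) ≠ 0 := by nlinarith only [h3]
  unfold kap
  field_simp
  ring

lemma kap_pos (hL : 3 ≤ L) : 0 < kap L := by
  have h3 : (3:ℝ) ≤ L := by exact_mod_cast hL
  unfold kap
  apply div_pos (by norm_num)
  nlinarith only [h3]

lemma kap_le (hL : 3 ≤ L) : kap L ≤ 81 / 10 := by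
  have h3 : (3:ℝ) ≤ L := by exact_mod_cast hL
  unfold kap
  rw [div_le_iff₀ (by nlinarith)]
  nlinarith

/-- **Flatness** of the leaves over the zero block. -/
lemma Leaf.flat (hW : Leaf L ε P K W) (h : Par ε) (hL : 3 ≤ L) {t : ℝ} (ht : |t| ≤ 1 / 9) (m : ℤ) :
    ‖W m t - W m 0‖ ≤ kap L * t ^ 2 := by
  have h3 : (3:ℝ) ≤ L := by exact_mod_cast hL
  have hL0 : (0:ℝ) < L := by linarith only [h3]
  have hkp := kap_pos hL
  have hkl := kap_le hL
  set K' := |K| + 1 with hK'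
  have hK'pos : 0 < K' := by positivity
  have ht2 : t ^ 2 ≤ 1 / 81 := by
    rw [← sq_abs t]
    have := abs_nonneg t
    nlinarith only [ht, this]
  -- for N large
  have hmain : ∀ N : ℕ, (9 / 10 : ℝ) ^ N * K' ≤ 1 / 50 →
      ∀ j ≤ N, ∀ m, ‖W m (t / (L:ℝ) ^ (N - j)) - W m 0‖ ≤
        (27 / 10) ^ j * (K' / (L:ℝ) ^ N) + kap L * (t / (L:ℝ) ^ (N - j)) ^ 2 := by
    intro N hN j
    induction j with
    | zero =>
      intro _ m
      have h4 := hW.lip m (t / (L:ℝ) ^ N) 0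
      simp only [Nat.sub_zero, pow_zero, one_mul]
      refine h4.trans ?_
      rw [sub_zero, abs_div, abs_of_pos (show (0:ℝ) < (L:ℝ) ^ N by positivity)]
      have h5 : K * (|t| / (L:ℝ) ^ N) ≤ K' / (L:ℝ) ^ N := by
        rw [mul_div_assoc']
        gcongr
        have := le_abs_self K
        have := abs_nonneg t
        nlinarith
      have : 0 ≤ kap L * (t / (L:ℝ) ^ N) ^ 2 := by positivity
      linarith only [h5, this]
    | succ j ih =>
      intro hj m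
      have ih' := ih (by omega)
      set τ := t / (L:ℝ) ^ (N - j) with hτ
      have hidx : N - j = (N - (j + 1)) + 1 := by omega
      have hLτ : (L:ℝ) * τ = t / (L:ℝ) ^ (N - (j + 1)) := by
        rw [hτ, hidx, pow_succ]; field_simp
      have hpw : (3:ℝ) ≤ (L:ℝ) ^ (N - j) := by
        rw [hidx, pow_succ]
        have : (1:ℝ) ≤ (L:ℝ) ^ (N - (j + 1)) := one_le_pow₀ (by linarith only [h3])
        nlinarith only [h3, this]
      have hτabs : |τ| ≤ 1 / 27 := by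
        rw [hτ, abs_div, abs_of_pos (show (0:ℝ) < (L:ℝ) ^ (N - j) by positivity),
          div_le_iff₀ (by positivity)]
        linarith only [ht, hpw]
      have hb : (27 / 10 : ℝ) ^ j * (K' / (L:ℝ) ^ N) + kap L * τ ^ 2 ≤ 4 / 100 := by
        have h6 : (27 / 10 : ℝ) ^ j * (K' / (L:ℝ) ^ N) ≤ 1 / 50 := by
          have h7 : (27 / 10 : ℝ) ^ j ≤ (27 / 10) ^ N := pow_le_pow_right₀ (by norm_num) (by omega)
          have h8 : (3:ℝ) ^ N ≤ (L:ℝ) ^ N := pow_le_pow_left₀ (by norm_num) h3 N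
          calc (27 / 10 : ℝ) ^ j * (K' / (L:ℝ) ^ N) ≤ (27 / 10 : ℝ) ^ N * (K' / 3 ^ N) := by gcongr
            _ = (9 / 10) ^ N * K' := by
                rw [show (27 / 10 : ℝ) = 9 / 10 * 3 by norm_num, mul_pow]; field_simp
            _ ≤ 1 / 50 := hN
        have h9 : τ ^ 2 ≤ 1 / 729 := by
          rw [← sq_abs τ]
          have := abs_nonneg τ
          nlinarith only [hτabs, this]
        nlinarith only [hkl, h6, h9]
      have h10 := hW.flat_step h hτabs hb ih' m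
      rw [hLτ] at h10
      refine h10.trans (le_of_eq ?_)
      rw [← hLτ, mul_pow]
      have h11 := kap_eq hL
      rw [pow_succ]
      linear_combination (-(τ ^ 2)) * h11
  have hlim : Tendsto (fun N : ℕ => (9 / 10 : ℝ) ^ N * K' + kap L * t ^ 2) atTop
      (𝓝 (0 * K' + kap L * t ^ 2)) :=
    ((tendsto_pow_atTop_nhds_zero_of_lt_one (by norm_num) (by norm_num)).mul_const K').add_const _
  rw [zero_mul, zero_add] at hlim
  refine ge_of_tendsto hlim ?_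
  have hlim2 : Tendsto (fun N : ℕ => (9 / 10 : ℝ) ^ N * K') atTop (𝓝 (0 * K')) :=
    (tendsto_pow_atTop_nhds_zero_of_lt_one (by norm_num) (by norm_num)).mul_const K'
  rw [zero_mul] at hlim2
  filter_upwards [hlim2.eventually (Iic_mem_nhds (show (0:ℝ) < 1 / 50 by norm_num))] with N hN
  have h12 := hmain N hN N le_rfl m
  rw [Nat.sub_self, pow_zero, div_one] at h12
  refine h12.trans ?_
  have h8 : (3:ℝ) ^ N ≤ (L:ℝ) ^ N := pow_le_pow_left₀ (by norm_num) h3 N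
  have h13 : (27 / 10 : ℝ) ^ N * (K' / (L:ℝ) ^ N) ≤ (9 / 10) ^ N * K' :=
    calc (27 / 10 : ℝ) ^ N * (K' / (L:ℝ) ^ N) ≤ (27 / 10 : ℝ) ^ N * (K' / 3 ^ N) := by gcongr
      _ = (9 / 10) ^ N * K' := by
        rw [show (27 / 10 : ℝ) = 9 / 10 * 3 by norm_num, mul_pow]; field_simp
  linarith only [h13]

/-- some value of the zero orbit is not the repelling fixed point -/
lemma Leaf.exists_ne (hW : Leaf L ε P K W) (h : Par ε) (hL : 3 ≤ L) : ∃ m, W m 0 ≠ -ε := by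
  by_contra hcon
  push Not at hcon
  have h3 : (3:ℝ) ≤ L := by exact_mod_cast hL
  have hL0 : (0:ℝ) < L := by linarith only [h3]
  have hkp := kap_pos hL
  obtain ⟨R, hR, hnear⟩ := hW.near 1 one_pos
  -- choose i
  have hlim : Tendsto (fun i : ℕ => (11 / 45 : ℝ) ^ i * kap L) atTop (𝓝 (0 * kap L)) :=
    (tendsto_pow_atTop_nhds_zero_of_lt_one (by norm_num) (by norm_num)).mul_const _
  rw [zero_mul] at hlim
  obtain ⟨i, hi, hi2, hi3⟩ := ((hlim.eventually (Iio_mem_nhds (show (0:ℝ) < min R (1 / 5) from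
    lt_min hR (by norm_num)))).and ((eventually_ge_atTop 2).and (eventually_ge_atTop 0))).exists
  have hi' : (11 / 45 : ℝ) ^ i * kap L < min R (1 / 5) := hi
  have hclaim : ∀ t : ℝ, |t| ≤ 1 / 2 → ∀ j ≤ i,
      ‖W (j : ℤ) (t / (L:ℝ) ^ (i - j)) + ε‖ ≤ (11 / 5) ^ j * (kap L / 9 ^ i) := by
    intro t ht j
    induction j with
    | zero =>
      intro _
      have hpw : (9:ℝ) ≤ (L:ℝ) ^ i := by
        calc (9:ℝ) = 3 ^ 2 := by norm_num
          _ ≤ (L:ℝ) ^ 2 := pow_le_pow_left₀ (by norm_num) h3 2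
          _ ≤ (L:ℝ) ^ i := pow_le_pow_right₀ (by linarith only [h3]) hi2
      have habs : |t / (L:ℝ) ^ i| ≤ 1 / 9 := by
        rw [abs_div, abs_of_pos (show (0:ℝ) < (L:ℝ) ^ i by positivity), div_le_iff₀ (by positivity)]
        linarith only [ht, hpw]
      have h4 := hW.flat h hL habs 0
      rw [hcon 0, sub_neg_eq_add] at h4
      simp only [Nat.cast_zero, Nat.sub_zero, pow_zero, one_mul]
      refine h4.trans ?_
      rw [div_pow, mul_div_assoc']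
      have h5 : t ^ 2 ≤ 1 := by
        rw [← sq_abs t]
        have := abs_nonneg t
        nlinarith only [ht, this]
      have h6 : (9:ℝ) ^ i ≤ ((L:ℝ) ^ i) ^ 2 := by
        rw [← pow_mul, mul_comm i 2, pow_mul]
        apply pow_le_pow_left₀ (by norm_num)
        nlinarith only [h3]
      calc kap L * t ^ 2 / ((L:ℝ) ^ i) ^ 2 ≤ kap L * 1 / 9 ^ i := by gcongr
        _ = kap L / 9 ^ i := by ring
    | succ j ih =>
      intro hj
      have ih' := ih (by omega)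
      set τ := t / (L:ℝ) ^ (i - j) with hτ
      have hidx : i - j = (i - (j + 1)) + 1 := by omega
      have hLτ : (L:ℝ) * τ = t / (L:ℝ) ^ (i - (j + 1)) := by
        rw [hτ, hidx, pow_succ]; field_simp
      have hrec := hW.recur j τ
      rw [hLτ] at hrec
      push_cast
      rw [hrec]
      set X := W (j : ℤ) τ + ε with hX
      have hXW : W (j : ℤ) τ = X - ε := by rw [hX]; ring
      rw [hXW]
      set c := Real.cos (2 * Real.pi * τ) with hc
      have hid : X - ε + (c : ℂ) * (ε ^ 2 - (X - ε) ^ 2) + ε = X * (1 + (c : ℂ) * (2 * ε - X)) := by ring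
      rw [hid, norm_mul, pow_succ]
      have hXs : ‖X‖ ≤ 1 / 5 := by
        refine ih'.trans ?_
        have h7 : (11 / 5 : ℝ) ^ j ≤ (11 / 5) ^ i := pow_le_pow_right₀ (by norm_num) (by omega)
        calc (11 / 5 : ℝ) ^ j * (kap L / 9 ^ i) ≤ (11 / 5 : ℝ) ^ i * (kap L / 9 ^ i) := by gcongr
          _ = (11 / 45) ^ i * kap L := by
              rw [show (11 / 5 : ℝ) = 11 / 45 * 9 by norm_num, mul_pow]; field_simp
          _ ≤ 1 / 5 := hi'.le.trans (min_le_right _ _)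
      have hfac : ‖1 + (c : ℂ) * (2 * ε - X)‖ ≤ 11 / 5 := by
        refine (norm_add_le _ _).trans ?_
        rw [norm_one, norm_mul, Complex.norm_real, Real.norm_eq_abs]
        have h8 : ‖2 * ε - X‖ ≤ 6 / 5 := by
          refine (norm_sub_le _ _).trans ?_
          rw [norm_mul]
          have : ‖(2:ℂ)‖ = 2 := by simp
          rw [this]; linarith only [hXs, h.half]
        have h9 : |c| ≤ 1 := Real.abs_cos_le_one _
        nlinarith only [h8, h9, abs_nonneg c]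
      calc ‖X‖ * ‖1 + (c : ℂ) * (2 * ε - X)‖ ≤ ((11 / 5) ^ j * (kap L / 9 ^ i)) * (11 / 5) := by gcongr
        _ = _ := by ring
  obtain ⟨_, t, ht, hRt⟩ := hnear (i : ℤ) (-1 / 2)
  have h10 := hclaim t (by rw [abs_le]; constructor <;> linarith [ht.1, ht.2]) i le_rfl
  rw [Nat.sub_self, pow_zero, div_one] at h10
  have h11 : (11 / 5 : ℝ) ^ i * (kap L / 9 ^ i) = (11 / 45) ^ i * kap L := by
    rw [show (11 / 5 : ℝ) = 11 / 45 * 9 by norm_num, mul_pow]; field_simp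
  have h12 := hi'.trans_le (min_le_left _ _)
  linarith only [hRt, h10, h11, h12]

/-- all values over the zero block are good -/
lemma Leaf.good (hW : Leaf L ε P K W) (h : Par ε) (hL : 3 ≤ L) (hC : Cert L) (m : ℤ) :
    GoodPt ε (W m 0) := by
  obtain ⟨m', rfl⟩ : ∃ m', m = m' + 1 := ⟨m - 1, by ring⟩
  have h0 : ¬ Dead ε (W m' 0) := by simpa using hW.not_dead h hL m' 0
  rcases hC ε h.re h.im h.le h.lt_half (W m' 0) with h1 | h1 | ⟨s, i, hs, h1⟩
  · exact absurd h1 h0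
  · rw [hW.zero_succ m']; exact h1
  · exfalso
    have hsi : |(s : ℝ) / (L:ℝ) ^ i| ≤ 1 / 9 := by
      rw [abs_of_nonneg (by positivity)]; exact hs
    have h2 := h1 (W m' ((s : ℝ) / (L:ℝ) ^ i) - W m' 0) (hW.flat h hL hsi m')
    rw [add_sub_cancel, ← hW.comp_eq hL s i m'] at h2
    have h3 := hW.not_dead h hL (m' + i) (s : ℤ)
    push_cast at h3
    exact h3 h2

/-- **Contradiction** for normalised parameters. -/
theorem Leaf.false_of_par (hW : Leaf L ε P K W) (h : Par ε) (hL : 3 ≤ L) (hC : Cert L) : False := by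
  obtain ⟨m₀, hm₀⟩ := hW.exists_ne h hL
  have hx := h.re
  set g := 1 / 16 * ε.re with hg
  have hgpos : 0 < g := by positivity
  set X0 := ‖W m₀ 0 + ε‖ ^ 2 with hX0
  have hX0pos : 0 < X0 := by
    have : W m₀ 0 + ε ≠ 0 := by
      intro h0
      exact hm₀ (eq_neg_of_add_eq_zero_left h0)
    positivity
  set N := ‖W m₀ 0 - ε‖ ^ 2 / X0 with hN
  have hN0 : 0 ≤ N := by positivity
  have hgle : g ≤ 1 := by
    have := Complex.abs_re_le_norm ε
    have := le_abs_self ε.re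
    have := h.half
    rw [hg]; linarith
  set θ := 1 - g / 11 with hθ
  have hθ0 : 0 ≤ θ := by rw [hθ]; linarith only [hgle]
  have hθ1 : θ < 1 := by rw [hθ]; linarith only [hgpos]
  have hclaim : ∀ j : ℕ, ‖W (m₀ + j) 0 - ε‖ ^ 2 ≤ (θ ^ j * N) * ‖W (m₀ + j) 0 + ε‖ ^ 2 := by
    intro j
    induction j with
    | zero =>
      simp only [Nat.cast_zero, add_zero, pow_zero, one_mul]
      rw [← hX0, hN, div_mul_cancel₀ _ hX0pos.ne']
    | succ j ih =>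
      have hidx : m₀ + ((j + 1 : ℕ) : ℤ) = m₀ + j + 1 := by push_cast; ring
      rw [hidx, hW.zero_succ]
      have hgood := hW.good h hL hC (m₀ + j)
      unfold GoodPt at hgood
      have h1 := ratio_step (ε := ε) (Z := W (m₀ + j) 0) (g := g) (B := 11) (N := θ ^ j * N)
        (by rw [hg]; linarith only [hgood]) hgpos (by
          have h3 : ‖1 + ε - W (m₀ + j) 0‖ ≤ 3.28 := by
            have h4 : 1 + ε - W (m₀ + j) 0 = (1 / 2 + ε) - (W (m₀ + j) 0 - 1 / 2) := by ring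
            rw [h4]
            refine (norm_sub_le _ _).trans ?_
            have h5 := norm_add_le (1 / 2) ε
            have h6 : ‖(1 / 2 : ℂ)‖ = 1 / 2 := by norm_num
            rw [h6] at h5
            have h7 := hW.disc h (m₀ + j)
            linarith only [h5, h7, h.half]
          have := norm_nonneg (1 + ε - W (m₀ + j) 0)
          nlinarith only [h3, this]) (by positivity) ih
      have h14 : f0 (ε ^ 2) (W (m₀ + j) 0) = W (m₀ + j) 0 + (ε ^ 2 - W (m₀ + j) 0 ^ 2) := rfl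
      rw [h14] at h1
      refine h1.trans (le_of_eq ?_)
      rw [pow_succ, hθ]; ring
  have hlim : Tendsto (fun j : ℕ => θ ^ j * (N * 6)) atTop (𝓝 (0 * (N * 6))) :=
    (tendsto_pow_atTop_nhds_zero_of_lt_one hθ0 hθ1).mul_const _
  rw [zero_mul] at hlim
  have hm := h.mult
  have hgap : 0 < (1 - ‖1 - 2 * ε‖) ^ 2 := by
    have : 0 < 1 - ‖1 - 2 * ε‖ := by linarith only [hm]
    positivity
  obtain ⟨j, hj⟩ := (hlim.eventually (Iio_mem_nhds hgap)).exists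
  have hj' : θ ^ j * (N * 6) < (1 - ‖1 - 2 * ε‖) ^ 2 := hj
  have h2 : ‖W (m₀ + j) 0 - ε‖ ^ 2 < (1 - ‖1 - 2 * ε‖) ^ 2 := by
    refine lt_of_le_of_lt ((hclaim j).trans ?_) hj'
    rw [mul_assoc]
    have h8 : ‖W (m₀ + j) 0 + ε‖ ^ 2 ≤ 6 := by
      have h9 : ‖W (m₀ + j) 0 + ε‖ ≤ 2.28 := by
        have h4 : W (m₀ + j) 0 + ε = (W (m₀ + j) 0 - 1 / 2) + (1 / 2 + ε) := by ring
        rw [h4]
        refine (norm_add_le _ _).trans ?_
        have h5 := norm_add_le (1 / 2) ε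
        have h6 : ‖(1 / 2 : ℂ)‖ = 1 / 2 := by norm_num
        rw [h6] at h5
        have h7 := hW.disc h (m₀ + j)
        linarith only [h5, h7, h.half]
      have := norm_nonneg (W (m₀ + j) 0 + ε)
      nlinarith only [h9, this]
    gcongr
  have h3 : ‖W (m₀ + j) 0 - ε‖ < 1 - ‖1 - 2 * ε‖ :=
    lt_of_pow_lt_pow_left₀ 2 (by linarith only [hm]) h2
  have h4 := hW.not_dead h hL (m₀ + j) 0
  apply h4
  refine ⟨0, Or.inr (Or.inr ?_)⟩
  simp only [Function.iterate_zero, id, Int.cast_zero]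
  linarith only [h3]

lemma Leaf.neg (hW : Leaf L ε P K W) : Leaf L (-ε) P K W := by
  refine ⟨hW.bd, hW.lip, fun m t => by rw [hW.recur, neg_sq], fun ℓ hℓ => ?_⟩
  obtain ⟨R, hR, h⟩ := hW.near ℓ hℓ
  refine ⟨R, hR, fun m a => ⟨?_, ?_⟩⟩
  · simpa [sub_neg_eq_add] using (h m a).2
  · simpa [sub_eq_add_neg] using (h m a).1

lemma Leaf.conj (hW : Leaf L ε P K W) :
    Leaf L ((starRingEnd ℂ) ε) P K (fun m t => (starRingEnd ℂ) (W m t)) := by
  refine ⟨fun m t => by rw [RCLike.norm_conj]; exact hW.bd m t, fun m s t => ?_, fun m t => ?_,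
    fun ℓ hℓ => ?_⟩
  · rw [← map_sub, RCLike.norm_conj]; exact hW.lip m s t
  · rw [hW.recur]
    simp only [map_add, map_mul, map_sub, map_pow, Complex.conj_ofReal]
  · obtain ⟨R, hR, h⟩ := hW.near ℓ hℓ
    refine ⟨R, hR, fun m a => ⟨?_, ?_⟩⟩
    · obtain ⟨t, ht, h1⟩ := (h m a).1
      exact ⟨t, ht, by rw [← map_sub, RCLike.norm_conj]; exact h1⟩
    · obtain ⟨t, ht, h1⟩ := (h m a).2
      exact ⟨t, ht, by rw [← map_add, RCLike.norm_conj]; exact h1⟩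

/-- **Contradiction** for all admissible parameters. -/
theorem Leaf.false (hW : Leaf L ε P K W) (hL : 3 ≤ L) (hC : Cert L) (hε : ‖ε‖ < 1 / 2)
    (hre : ε.im ^ 2 < ε.re ^ 2) : False := by
  have hne : ε.re ≠ 0 := by
    intro h0
    rw [h0] at hre
    linarith only [hre, sq_nonneg ε.im]
  -- reduction to `re > 0`
  have main : ∀ (ε : ℂ) (W : ℤ → ℝ → ℂ), Leaf L ε P K W → ‖ε‖ < 1 / 2 → ε.im ^ 2 < ε.re ^ 2 →
      0 < ε.re → False := by
    intro ε W hW hε hre hpos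
    rcases le_or_gt 0 ε.im with him | him
    · exact hW.false_of_par ⟨hpos, him, by nlinarith only [hre, hpos], hε⟩ hL hC
    · refine hW.conj.false_of_par ⟨by simpa using hpos, by simpa using him.le, ?_, ?_⟩ hL hC
      · rw [Complex.conj_im, Complex.conj_re]; nlinarith only [hre, hpos]
      · rw [RCLike.norm_conj]; exact hε
  rcases lt_or_gt_of_ne hne with hlt | hgt
  · exact main (-ε) W hW.neg (by rw [norm_neg]; exact hε)
      (by rw [Complex.neg_im, Complex.neg_re, neg_sq, neg_sq]; exact hre)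
      (by rw [Complex.neg_re]; linarith only [hlt])
  · exact main ε W hW hε hre hgt

end Pool.Agent.W_MP_4481e3_an
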