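import Pool.Agent.W_MP_4481e3_low.LeafA
import Pool.Agent.W_MP_4481e3_an.FatouPart

/-!
The conjecture for all `L ≥ 3` admitting a kill certificate.
-/

open MeasureTheory Filter Topology Set

namespace Pool.Agent.W_MP_4481e3_an

variable {α : ℂ} {L : ℕ}

/-- negative exponents force `Re (α²) > 0` -/
lemma re_sq_pos (hα : ‖α‖ < 1) (h0 : ∫ x in (0:ℝ)..1, logf α x < 0)
    (h1 : ∫ x in (0:ℝ)..1, logf (-α) x < 0) : α.im ^ 2 < α.re ^ 2 := by
  by_contra hcon
  push Not at hcon
  have hα' : ‖-α‖ < 1 := by rw [norm_neg]; exact hα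
  have hsum : ∫ x in (0:ℝ)..1, (logf α x + logf (-α) x) < 0 := by
    rw [intervalIntegral.integral_add ((logf_continuous hα).intervalIntegrable _ _)
      ((logf_continuous hα').intervalIntegrable _ _)]
    linarith
  have hnn : 0 ≤ ∫ x in (0:ℝ)..1, (logf α x + logf (-α) x) := by
    apply intervalIntegral.integral_nonneg (by norm_num)
    intro x _
    unfold logf
    set c : ℝ := Real.cos (2 * Real.pi * x) with hc
    have hcabs : |c| ≤ 1 := Real.abs_cos_le_one _
    have p1 : 0 < ‖1 + α * (c : ℂ)‖ := by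
      have := norm_ge α x
      rw [← hc] at this
      linarith
    have p2 : 0 < ‖1 + -α * (c : ℂ)‖ := by
      have := norm_ge (-α) x
      rw [← hc, norm_neg] at this
      linarith
    rw [← Real.log_mul p1.ne' p2.ne', ← norm_mul]
    apply Real.log_nonneg
    have h2 : (1 + α * (c : ℂ)) * (1 + -α * (c : ℂ)) = 1 - α ^ 2 * ((c ^ 2 : ℝ) : ℂ) := by
      push_cast; ring
    rw [h2]
    have h3 : (1 - α ^ 2 * ((c ^ 2 : ℝ) : ℂ)).re = 1 + (α.im ^ 2 - α.re ^ 2) * c ^ 2 := by
      rw [Complex.sub_re, Complex.re_mul_ofReal, pow_two, Complex.mul_re, Complex.one_re]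
      ring
    have h4 := Complex.re_le_norm (1 - α ^ 2 * ((c ^ 2 : ℝ) : ℂ))
    rw [h3] at h4
    have : 0 ≤ (α.im ^ 2 - α.re ^ 2) * c ^ 2 := mul_nonneg (by linarith) (sq_nonneg _)
    linarith
  linarith

/-- **Star**, for `L ≥ 3` with a kill certificate: every fixed `z` falls, for a.e. `u`. -/
theorem star_ae_low (hα0 : α ≠ 0) (hα : ‖α‖ < 1) (hL : 3 ≤ L) (hC : Cert L)
    (h0 : ∫ x in (0:ℝ)..1, logf α x < 0)
    (h1 : ∫ x in (0:ℝ)..1, logf (-α) x < 0) (z : ℂ) : ∀ᵐ u : ℝ, u ∈ Fall α L z := by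
  have hL3 : (3:ℝ) ≤ L := by exact_mod_cast hL
  have hL0 : (0:ℝ) < L := by linarith
  have hLpos : 0 < L := by omega
  have hα' : ‖-α‖ < 1 := by rw [norm_neg]; exact hα
  have hαpos : 0 < ‖α‖ := norm_pos_iff.2 hα0
  obtain ⟨c₀, hc₀, hF₀⟩ := logf_ae (L := L) hα (by omega) h0
  obtain ⟨c₁, hc₁, hF₁⟩ := logf_ae (L := L) hα' (by omega) h1
  by_contra hcon
  rw [ae_iff] at hcon
  -- a density point of the complement
  have hdens := Besicovitch.ae_tendsto_measure_inter_div_of_measurableSet (volume : Measure ℝ)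
    (Fall_measurable (α := α) (L := L) z)
  obtain ⟨u₀, hu₀, hlim⟩ : ∃ u₀, u₀ ∉ Fall α L z ∧
      Tendsto (fun r => volume (Fall α L z ∩ Metric.closedBall u₀ r) / volume (Metric.closedBall u₀ r))
        (𝓝[>] 0) (𝓝 ((Fall α L z).indicator 1 u₀)) := by
    by_contra hno
    push Not at hno
    apply hcon
    rw [ae_iff] at hdens
    refine measure_mono_null ?_ hdens
    intro u hu
    exact hno u hu
  have hind : (Fall α L z).indicator (1 : ℝ → ENNReal) u₀ = 0 := Set.indicator_of_notMem hu₀ 1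
  rw [hind] at hlim
  set ρ := 1 + 3 / (‖α‖ * (1 / 4000)) with hρ
  have hρ1 : 1 ≤ ρ := by
    have : 0 < 3 / (‖α‖ * (1 / 4000)) := by positivity
    linarith
  have hD : Dens α L z u₀ ρ (Fall α L z) (badInf L (1 / 4000)) := by
    refine ⟨?_, ?_, ?_⟩
    · intro n u hu hb
      by_contra hc
      push Not at hc
      exact hu (fall_inf hα0 (by norm_num) le_rfl hb hc.le)
    · intro a
      refine (badInf_vol_Icc hLpos (by norm_num) a).trans ?_
      apply ENNReal.ofReal_le_ofReal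
      norm_num
    · intro T hT δ hδ
      have hev := hlim.eventually (Iic_mem_nhds (show (0:ENNReal) < ENNReal.ofReal (δ / (2 * T)) by
        rw [ENNReal.ofReal_pos]; positivity))
      have hr : Tendsto (fun n : ℕ => T / (L:ℝ) ^ n) atTop (𝓝[>] 0) := by
        rw [tendsto_nhdsWithin_iff]
        constructor
        · exact tendsto_const_nhds.div_atTop (tendsto_pow_atTop_atTop_of_one_lt (by linarith))
        · exact Filter.Eventually.of_forall fun n => by
            show 0 < T / (L:ℝ) ^ n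
            positivity
      have hev2 := hr.eventually hev
      rw [eventually_atTop] at hev2
      obtain ⟨n₀, hn₀⟩ := hev2
      refine ⟨n₀, fun n hn => ?_⟩
      have h3 := hn₀ n hn
      have hpos : (0:ℝ) < (L:ℝ) ^ n := by positivity
      have hTL : 0 < T / (L:ℝ) ^ n := by positivity
      rw [Real.volume_closedBall, ENNReal.div_le_iff (by
          rw [ne_eq, ENNReal.ofReal_eq_zero, not_le]; linarith) ENNReal.ofReal_ne_top,
        ← ENNReal.ofReal_mul (by positivity)] at h3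
      refine h3.trans (le_of_eq ?_)
      congr 1
      field_simp
  have hN : ∀ ℓ : ℝ, 0 < ℓ → ℓ ≤ 1 → ∃ R > (0:ℝ), ∃ BadN : Set ℝ,
      NearB α L z ℓ R (Fall α L z) BadN := by
    intro ℓ hℓ hℓ1
    obtain ⟨A₀, hA₀⟩ := hF₀.vol (δ := ℓ / 8) (by positivity)
    obtain ⟨A₁, hA₁⟩ := hF₁.vol (δ := ℓ / 8) (by positivity)
    have hR₀ := RR_pos hα hc₀ A₀
    have hR₁ := RR_pos hα' hc₁ A₁
    refine ⟨min (RR α c₀ A₀) (RR (-α) c₁ A₁), lt_min hR₀ hR₁,
      (goodZero α L c₀ A₀)ᶜ ∪ (goodZero (-α) L c₁ A₁)ᶜ, ?_, ?_⟩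
    · intro n u hu hb
      rw [mem_union, not_or, notMem_compl_iff, notMem_compl_iff] at hb
      constructor
      · by_contra hc
        push Not at hc
        exact hu (fall_zero hα hc₀ hb.1 (hc.le.trans (min_le_left _ _)))
      · by_contra hc
        push Not at hc
        exact hu (fall_one hα hc₁ hb.2 (hc.le.trans (min_le_right _ _)))
    · intro a
      have hv : ∀ a : ℝ, volume (((goodZero α L c₀ A₀)ᶜ ∪ (goodZero (-α) L c₁ A₁)ᶜ) ∩ Ioc a (a + 1)) ≤
          ENNReal.ofReal (ℓ / 2) := by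
        intro a
        rw [union_inter_distrib_right]
        refine (measure_union_le _ _).trans ((add_le_add (hA₀ a) (hA₁ a)).trans ?_)
        rw [← ENNReal.ofReal_add (by positivity) (by positivity)]
        apply ENNReal.ofReal_le_ofReal
        linarith
      refine (measure_mono ?_).trans (vol_Icc_le hv a)
      apply inter_subset_inter_right
      exact Icc_subset_Icc_right (by linarith)
  obtain ⟨K, Q, W, hW⟩ := exists_leaf (z := z) (u₀ := u₀) (P := PB ρ) hL hα0
    (fun T hT => hD.boundB hα.le hL hρ1 hT) hD.dens hN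
  have hre := re_sq_pos hα h0 h1
  refine hW.false hL hC ?_ ?_
  · rw [norm_div]
    have : ‖(2:ℂ)‖ = 2 := by simp
    rw [this]; linarith
  · have e1 : (α / 2).im = α.im / 2 := by simp
    have e2 : (α / 2).re = α.re / 2 := by simp
    rw [e1, e2]
    nlinarith

/-- Conjecture for all `L ≥ 3` with a kill certificate. -/
theorem main_low {α : ℂ} {L : ℕ} (hL : 3 ≤ L) (hC : Cert L) (hα0 : 0 < ‖α‖) (hα : ‖α‖ < 1)
    (h0 : ∫ x in (0:ℝ)..1, logf α x < 0) (h1 : ∫ x in (0:ℝ)..1, logf (-α) x < 0) :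
    ∀ᵐ u ∂(volume.restrict (Ico (0:ℝ) 1)), randomFatou α L u = combinedBasin α L u := by
  have hα00 : α ≠ 0 := norm_pos_iff.1 hα0
  have hLpos : 0 < L := by omega
  have hα' : ‖-α‖ < 1 := by rw [norm_neg]; exact hα
  obtain ⟨c₀, hc₀, hF₀⟩ := logf_ae (L := L) hα (by omega) h0
  obtain ⟨c₁, hc₁, hF₁⟩ := logf_ae (L := L) hα' (by omega) h1
  obtain ⟨D, hDc, hDd⟩ := TopologicalSpace.exists_countable_dense ℂ
  have hD : ∀ᵐ u : ℝ, ∀ z ∈ D, u ∈ Fall α L z :=
    (ae_ball_iff hDc).2 fun z _ => star_ae_low hα00 hα hL hC h0 h1 z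
  rw [Measure.restrict_congr_set (Ico_ae_eq_Ioc (μ := volume) (a := (0:ℝ)) (b := 1))]
  filter_upwards [hF₀.recur hLpos, hF₁.recur hLpos, (fam_inf hLpos).recur hLpos,
    ae_restrict_of_ae hD] with u hu0 hu1 hui huD
  obtain ⟨j, hj⟩ := hui
  exact fatou_eq_basin (rec_zero hα hc₀ hu0) (rec_one hα hc₁ hu1)
    (rec_inf hα00 (θ := 1 / ((j:ℝ) + 1)) (by positivity) hj) hDd huD

end Pool.Agent.W_MP_4481e3_an
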