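import Pool.Agent.W_MP_4481e3_low.Ev
import Pool.Agent.W_MP_4481e3_low.LeafA

/-!
Soundness of the fixed point ball arithmetic.
-/

namespace Pool.Agent.W_MP_4481e3_an.Ev

open Complex

/-- centre of the stored ball -/
noncomputable def pt (A B : ℕ) : ℂ := ⟨(A : ℝ) - 536870912, (B : ℝ) - 536870912⟩

/-- membership in the stored ball -/
def InB (A B r : ℕ) (Y : ℂ) : Prop := ‖Y - pt A B‖ ≤ r

/-- stored coordinate to the original coordinate -/
noncomputable def toZ (Y : ℂ) : ℂ := 1 / 2 - Y / 16777216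

lemma ndiv_eq (a b : ℕ) : Nat.div a b = a / b := rfl

lemma gd_true {c x : Bool} : gd c x = true ↔ c = true ∧ x = true := by
  cases c <;> simp [gd]

lemma dist_cast (x y : ℕ) : ((dist x y : ℕ) : ℝ) = |(x:ℝ) - y| := by
  unfold dist
  simp only [Nat.add_eq, Nat.sub_eq]
  rcases le_total x y with h | h
  · rw [Nat.sub_eq_zero_of_le h, zero_add, Nat.cast_sub h, abs_of_nonpos]
    · ring
    · have : (x:ℝ) ≤ y := by exact_mod_cast h
      linarith
  · rw [Nat.sub_eq_zero_of_le h, add_zero, Nat.cast_sub h, abs_of_nonneg]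
    have : (y:ℝ) ≤ x := by exact_mod_cast h
    linarith

lemma div_lower (n m : ℕ) (hm : 0 < m) : (n:ℝ) / m - 1 < ((n / m : ℕ) : ℝ) := by
  have h := Nat.lt_div_mul_add (a := n) hm
  have h1 : (n:ℝ) < ((n / m : ℕ) : ℝ) * m + m := by exact_mod_cast h
  have hm' : (0:ℝ) < m := by exact_mod_cast hm
  rw [sub_lt_iff_lt_add, div_lt_iff₀ hm']
  linarith

lemma div_upper (n m : ℕ) : ((n / m : ℕ) : ℝ) ≤ (n:ℝ) / m := Nat.cast_div_le

lemma nrm1_sound {N u : ℕ} (hu : 0 < u) {x : ℝ} (hx : x ^ 2 ≤ N) : x ≤ nrm1 N u := by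
  unfold nrm1
  simp only [Nat.add_eq, ndiv_eq]
  have h1 := div_lower N u hu
  have h2 := div_lower (N / u + u) 2 (by norm_num)
  have hu' : (0:ℝ) < u := by exact_mod_cast hu
  push_cast at h2 ⊢
  have h3 : (((N / u : ℕ) : ℝ) + u - 1) / 2 ≤ (((N / u + u) / 2 : ℕ) : ℝ) := by
    have h4 : (N / u + u) ≤ 2 * ((N / u + u) / 2) + 1 := by omega
    have h5 : ((N / u : ℕ) : ℝ) + u ≤ 2 * (((N / u + u) / 2 : ℕ) : ℝ) + 1 := by exact_mod_cast h4
    linarith
  have h6 : x ≤ ((N:ℝ) / u + u) / 2 := by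
    have h7 : 2 * x * u ≤ N + u ^ 2 := by nlinarith [sq_nonneg (x - u)]
    have h8 : x ≤ (N + (u:ℝ) ^ 2) / (2 * u) := by
      rw [le_div_iff₀ (by positivity)]; linarith
    refine h8.trans (le_of_eq ?_)
    field_simp
  linarith

lemma nrm_sound (N a b : ℕ) {x : ℝ} (hx : x ^ 2 ≤ N) : x ≤ nrm a b N :=
  nrm1_sound (Nat.succ_pos _) hx

lemma norm_pt_sq (A B : ℕ) : ‖pt A B‖ ^ 2 = ((A:ℝ) - 536870912) ^ 2 + ((B:ℝ) - 536870912) ^ 2 := by
  rw [Complex.sq_norm, Complex.normSq_apply]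
  unfold pt
  ring

lemma norm_le_sqrt_two {z : ℂ} {x : ℝ} (h1 : |z.re| ≤ x) (h2 : |z.im| ≤ x) : ‖z‖ ≤ 3 / 2 * x := by
  have hx : 0 ≤ x := (abs_nonneg _).trans h1
  have h3 : ‖z‖ ^ 2 = z.re ^ 2 + z.im ^ 2 := by
    rw [Complex.sq_norm, Complex.normSq_apply]; ring
  have h4 : z.re ^ 2 ≤ x ^ 2 := by rw [← sq_abs z.re]; exact pow_le_pow_left₀ (abs_nonneg _) h1 2
  have h5 : z.im ^ 2 ≤ x ^ 2 := by rw [← sq_abs z.im]; exact pow_le_pow_left₀ (abs_nonneg _) h2 2
  by_contra hcon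
  push Not at hcon
  nlinarith [norm_nonneg z]

/-- the centre of the unit step -/
lemma centre_step {A B P Q : ℕ} (hQ : Q ≤ 268435456)
    (hN : (dist A 536870912) * (dist A 536870912) + (dist B 536870912) * (dist B 536870912) ≤ 4503599627370496) :
    ‖((pt A B) ^ 2 / 16777216 + (⟨P, -Q⟩ : ℂ)) - pt
      (((dist A 536870912) * (dist A 536870912) + 9007199254740992 -
        (dist B 536870912) * (dist B 536870912)) / 16777216 + P)
      (((dist (A + B) 1073741824) * (dist (A + B) 1073741824) + 9007199254740992 -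
        ((dist A 536870912) * (dist A 536870912) + (dist B 536870912) * (dist B 536870912))) / 16777216 - Q)‖
      ≤ 3 / 2 := by
  set a := dist A 536870912 with ha
  set b := dist B 536870912 with hb
  set s := dist (A + B) 1073741824 with hs
  have ha' : (a:ℝ) ^ 2 = ((A:ℝ) - 536870912) ^ 2 := by
    rw [ha, dist_cast, sq_abs]; norm_num
  have hb' : (b:ℝ) ^ 2 = ((B:ℝ) - 536870912) ^ 2 := by
    rw [hb, dist_cast, sq_abs]; norm_num
  have hs' : (s:ℝ) ^ 2 = ((A:ℝ) + B - 1073741824) ^ 2 := by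
    rw [hs, dist_cast, sq_abs]; push_cast; norm_num
  have hb2 : b * b ≤ a * a + 9007199254740992 := by nlinarith
  have hN2 : a * a + b * b ≤ s * s + 9007199254740992 := by nlinarith
  have hNr : (a:ℝ) ^ 2 + (b:ℝ) ^ 2 ≤ 4503599627370496 := by
    have : ((a * a + b * b : ℕ) : ℝ) ≤ 4503599627370496 := by exact_mod_cast hN
    push_cast at this
    linarith
  have hQ2 : Q ≤ (s * s + 9007199254740992 - (a * a + b * b)) / 16777216 := by
    refine hQ.trans ?_
    rw [Nat.le_div_iff_mul_le (by norm_num)]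
    omega
  have l1 := div_lower (a * a + 9007199254740992 - b * b) 16777216 (by norm_num)
  have u1 := div_upper (a * a + 9007199254740992 - b * b) 16777216
  have l2 := div_lower (s * s + 9007199254740992 - (a * a + b * b)) 16777216 (by norm_num)
  have u2 := div_upper (s * s + 9007199254740992 - (a * a + b * b)) 16777216
  rw [Nat.cast_sub hb2] at l1 u1
  rw [Nat.cast_sub hN2] at l2 u2
  push_cast at l1 u1 l2 u2
  have hre : ((pt A B) ^ 2).re = ((A:ℝ) - 536870912) ^ 2 - ((B:ℝ) - 536870912) ^ 2 := by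
    rw [pow_two, Complex.mul_re]; unfold pt; ring
  have him : ((pt A B) ^ 2).im = 2 * ((A:ℝ) - 536870912) * ((B:ℝ) - 536870912) := by
    rw [pow_two, Complex.mul_im]; unfold pt; ring
  have e16 : (16777216 : ℂ) = ((16777216 : ℝ) : ℂ) := by norm_num
  have hmain : ‖((pt A B) ^ 2 / 16777216 + (⟨P, -Q⟩ : ℂ)) - pt
      ((a * a + 9007199254740992 - b * b) / 16777216 + P)
      ((s * s + 9007199254740992 - (a * a + b * b)) / 16777216 - Q)‖ ≤ 3 / 2 * 1 := by
    apply norm_le_sqrt_two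
    · rw [Complex.sub_re, Complex.add_re, e16, Complex.div_ofReal_re, hre]
      unfold pt
      simp only
      push_cast
      rw [abs_le]
      constructor <;> nlinarith
    · rw [Complex.sub_im, Complex.add_im, e16, Complex.div_ofReal_im, him]
      unfold pt
      simp only
      rw [Nat.cast_sub hQ2]
      rw [abs_le]
      constructor <;> nlinarith
  linarith

theorem ustep_sound {P Q t A B r : ℕ} {K Y : ℂ} {k : ℕ → ℕ → ℕ → Bool}
    (hQ : Q ≤ 268435456) (hK : ‖K - (⟨P, -Q⟩ : ℂ)‖ + 3 ≤ t) (hY : InB A B r Y)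
    (h : ustep P Q t A B r k = true) :
    ∃ A' B' r' : ℕ, k A' B' r' = true ∧ InB A' B' r' (Y ^ 2 / 16777216 + K) := by
  unfold ustep ustep3 ustep2 ustep1 at h
  simp only [Nat.add_eq, Nat.mul_eq, Nat.sub_eq, ndiv_eq] at h
  rw [gd_true] at h
  obtain ⟨h1, h2⟩ := h
  have hN := Nat.le_of_ble_eq_true h1
  refine ⟨_, _, _, h2, ?_⟩
  have hc := centre_step (P := P) hQ hN
  unfold InB at hY ⊢
  set a := dist A 536870912 with ha
  set b := dist B 536870912 with hb
  set s := dist (A + B) 1073741824 with hs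
  have hu : ‖pt A B‖ ≤ nrm a b (a * a + b * b) := by
    apply nrm_sound
    rw [norm_pt_sq, ← sq_abs ((A:ℝ) - 536870912), ← sq_abs ((B:ℝ) - 536870912)]
    push_cast
    have h3 : ((a:ℕ):ℝ) = |(A:ℝ) - 536870912| := by rw [ha, dist_cast]; norm_num
    have h4 : ((b:ℕ):ℝ) = |(B:ℝ) - 536870912| := by rw [hb, dist_cast]; norm_num
    rw [h3, h4]
    nlinarith
  set u := nrm a b (a * a + b * b) with hud
  set z := pt A B with hz
  have hr := div_lower ((2 * u + r) * r) 16777216 (by norm_num)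
  push_cast at hr ⊢
  have h5 : ‖Y ^ 2 / 16777216 - z ^ 2 / 16777216‖ ≤ ((2 * (u:ℝ) + r) * r) / 16777216 := by
    have : Y ^ 2 / 16777216 - z ^ 2 / 16777216 = (Y - z) * ((Y - z) + 2 * z) / 16777216 := by ring
    rw [this, norm_div, norm_mul]
    have h6 : ‖(16777216 : ℂ)‖ = 16777216 := by simp
    rw [h6]
    have h7 : ‖(Y - z) + 2 * z‖ ≤ r + 2 * u := by
      refine (norm_add_le _ _).trans ?_
      rw [norm_mul]
      have : ‖(2:ℂ)‖ = 2 := by simp
      rw [this]; linarith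
    refine div_le_div_of_nonneg_right ?_ (by norm_num)
    calc ‖Y - z‖ * ‖(Y - z) + 2 * z‖ ≤ r * (r + 2 * u) := by gcongr
      _ = _ := by ring
  set w := pt ((a * a + 9007199254740992 - b * b) / 16777216 + P)
      ((s * s + 9007199254740992 - (a * a + b * b)) / 16777216 - Q) with hw
  have h8 : Y ^ 2 / 16777216 + K - w = (Y ^ 2 / 16777216 - z ^ 2 / 16777216) + (K - (⟨P, -Q⟩ : ℂ)) +
      ((z ^ 2 / 16777216 + (⟨P, -Q⟩ : ℂ)) - w) := by ring
  rw [h8]
  refine (norm_add₃_le).trans ?_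
  linarith

theorem uiter_sound {P Q t : ℕ} {K : ℂ} {k : ℕ → ℕ → ℕ → Bool}
    (hQ : Q ≤ 268435456) (hK : ‖K - (⟨P, -Q⟩ : ℂ)‖ + 3 ≤ t) (j : ℕ) :
    ∀ {A B r : ℕ} {Y : ℂ}, InB A B r Y → uiter P Q t k j A B r = true →
    ∃ A' B' r' : ℕ, k A' B' r' = true ∧ InB A' B' r' ((fun Y => Y ^ 2 / 16777216 + K)^[j] Y) := by
  induction j with
  | zero =>
    intro A B r Y hY h
    exact ⟨A, B, r, h, hY⟩
  | succ j ih =>
    intro A B r Y hY h
    have h1 : ustep P Q t A B r (uiter P Q t k j) = true := h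
    obtain ⟨A', B', r', h2, h3⟩ := ustep_sound hQ hK hY h1
    rw [Function.iterate_succ_apply]
    exact ih h3 h2

end Pool.Agent.W_MP_4481e3_an.Ev
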