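import Pool.Agent.W_MP_4481e3_low.SndG

/-!
Soundness of the final checks and of the box check.
-/

namespace Pool.Agent.W_MP_4481e3_an.Ev

open Complex

/-- the data of a cell, for one parameter -/
structure CD (ε : ℂ) (P Q t E t1 g1 h1 t2 g2 h2 kx ky ρ : ℕ) : Prop where
  par : Par ε
  hP : P ≤ 16777216
  hQ : Q ≤ 16777216
  hK : ‖16777216 * (1 / 4 - ε ^ 2) - (⟨P, -Q⟩ : ℂ)‖ + 3 ≤ t
  hE : 16777216 * (ε.re ^ 2 + ε.im ^ 2) + 1 ≤ E
  hg1 : (16777216:ℝ) ^ 2 + (t1:ℝ) ^ 2 ≤ (g1:ℝ) ^ 2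
  hg2 : (16777216:ℝ) ^ 2 + (t2:ℝ) ^ 2 ≤ (g2:ℝ) ^ 2
  hh1 : (16777216:ℝ) ^ 2 + (t1:ℝ) ^ 2 ≤ 16777216 * h1
  hh2 : (16777216:ℝ) ^ 2 + (t2:ℝ) ^ 2 ≤ 16777216 * h2
  ht1 : (t1:ℝ) * ε.re ≤ 16777216 * ε.im
  ht2 : 16777216 * ε.im ≤ (t2:ℝ) * ε.re
  hκ : 0 < ρ → (ρ:ℝ) + ‖16777216 * (1 / 2 - ε) - (⟨(kx:ℝ) - 536870912, -ky⟩ : ℂ)‖ +
    2 * ‖16777216 * (1 / 2 - ε)‖ ≤ 16777216

variable {ε : ℂ} {P Q t E t1 g1 h1 t2 g2 h2 kx ky ρ : ℕ}

lemma esc_sound {A B r : ℕ} {Y : ℂ} (hY : InB A B r Y) (h : esc A B r = true) : Esc (toZ Y) := by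
  unfold esc esc2 at h
  simp only [Nat.add_eq, Nat.mul_eq] at h
  have h1 := Nat.le_of_ble_eq_true h
  have h2 : (21474837 + r) * (21474837 + r) < (dist A 536870912) * (dist A 536870912) +
      (dist B 536870912) * (dist B 536870912) := h1
  have h3 : ((21474837 + r : ℕ) : ℝ) * ((21474837 + r : ℕ) : ℝ) <
      ((dist A 536870912 : ℕ) : ℝ) * ((dist A 536870912 : ℕ) : ℝ) +
      ((dist B 536870912 : ℕ) : ℝ) * ((dist B 536870912 : ℕ) : ℝ) := by exact_mod_cast h2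
  rw [dist_cast, dist_cast, abs_mul_abs_self, abs_mul_abs_self] at h3
  push_cast at h3
  have h4 : (21474837 + (r:ℝ)) < ‖pt A B‖ := by
    have h5 := norm_pt_sq A B
    by_contra hcon
    push Not at hcon
    nlinarith [norm_nonneg (pt A B)]
  unfold InB at hY
  unfold Esc toZ
  have h6 : (1 / 2 - Y / 16777216 - 1 / 2 : ℂ) = -(Y / 16777216) := by ring
  rw [h6, norm_neg, norm_div]
  have h7 : ‖(16777216 : ℂ)‖ = 16777216 := by simp
  rw [h7, lt_div_iff₀ (by norm_num)]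
  have h8 : ‖pt A B‖ ≤ ‖Y‖ + ‖Y - pt A B‖ := by
    have : pt A B = Y - (Y - pt A B) := by ring
    calc ‖pt A B‖ = ‖Y - (Y - pt A B)‖ := by rw [← this]
      _ ≤ _ := norm_sub_le _ _
  linarith

lemma attb_sound (hC : CD ε P Q t E t1 g1 h1 t2 g2 h2 kx ky ρ) {A B r : ℕ} {Y : ℂ}
    (hY : InB A B r Y) (h : attb kx ky ρ A B r = true) : Att ε (toZ Y) := by
  right
  unfold attb attb2 at h
  simp only [Nat.add_eq, Nat.mul_eq, Nat.sub_eq] at h
  have h1 := Nat.le_of_ble_eq_true h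
  have h2 : (dist A kx) * (dist A kx) + (dist (B + ky) 536870912) * (dist (B + ky) 536870912) <
    (ρ - r) * (ρ - r) := h1
  have hrρ : r < ρ := by
    by_contra hcon
    push Not at hcon
    rw [Nat.sub_eq_zero_of_le hcon] at h2
    simp at h2
  have hκ := hC.hκ (by omega)
  have h3 : ((dist A kx : ℕ) : ℝ) * ((dist A kx : ℕ) : ℝ) +
      ((dist (B + ky) 536870912 : ℕ) : ℝ) * ((dist (B + ky) 536870912 : ℕ) : ℝ) <
      ((ρ - r : ℕ) : ℝ) * ((ρ - r : ℕ) : ℝ) := by exact_mod_cast h2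
  rw [dist_cast, dist_cast, abs_mul_abs_self, abs_mul_abs_self, Nat.cast_sub hrρ.le] at h3
  push_cast at h3
  have hρr : (r:ℝ) < ρ := by exact_mod_cast hrρ
  set κ : ℂ := ⟨(kx:ℝ) - 536870912, -ky⟩ with hκd
  have h4 : ‖pt A B - κ‖ < ρ - r := by
    have h5 : ‖pt A B - κ‖ ^ 2 = ((A:ℝ) - kx) * ((A:ℝ) - kx) + ((B:ℝ) + ky - 536870912) * ((B:ℝ) + ky - 536870912) := by
      rw [Complex.sq_norm, Complex.normSq_apply, Complex.sub_re, Complex.sub_im, hκd]
      unfold pt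
      ring
    by_contra hcon
    push Not at hcon
    nlinarith [norm_nonneg (pt A B - κ)]
  unfold InB at hY
  unfold toZ
  have h7 : ‖(16777216 : ℂ)‖ = 16777216 := by simp
  have e1 : 16777216 * ‖1 / 2 - Y / 16777216 - ε‖ = ‖16777216 * (1 / 2 - ε) - Y‖ := by
    have : 16777216 * (1 / 2 - ε) - Y = 16777216 * (1 / 2 - Y / 16777216 - ε) := by ring
    rw [this, norm_mul, h7]
  have e2 : 16777216 * ‖1 - 2 * ε‖ = 2 * ‖16777216 * (1 / 2 - ε)‖ := by
    have : (1 - 2 * ε : ℂ) = 2 * (1 / 2 - ε) := by ring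
    rw [this, norm_mul, norm_mul, h7]
    have : ‖(2:ℂ)‖ = 2 := by simp
    rw [this]; ring
  have h8 : ‖16777216 * (1 / 2 - ε) - Y‖ ≤ ‖16777216 * (1 / 2 - ε) - κ‖ + ‖pt A B - κ‖ + ‖Y - pt A B‖ := by
    have : 16777216 * (1 / 2 - ε) - Y = (16777216 * (1 / 2 - ε) - κ) + -(pt A B - κ) + -(Y - pt A B) := by ring
    rw [this]
    refine (norm_add₃_le).trans ?_
    rw [norm_neg, norm_neg]
  linarith

lemma concave_aux {p q M a b x : ℝ} (hM : 0 ≤ M) (hax : a ≤ x) (hxb : x ≤ b)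
    (h1 : 0 < p + a * q - (1 + a ^ 2) * M) (h2 : 0 < p + b * q - (1 + b ^ 2) * M) :
    0 < p + x * q - (1 + x ^ 2) * M := by
  rcases eq_or_lt_of_le (hax.trans hxb) with h | h
  · have : x = a := le_antisymm (by rw [h]; exact hxb) hax
    rw [this]; exact h1
  · have e : (b - a) * (p + x * q - (1 + x ^ 2) * M) = (b - x) * (p + a * q - (1 + a ^ 2) * M) +
        (x - a) * (p + b * q - (1 + b ^ 2) * M) + M * ((b - x) * (x - a) * (b - a)) := by ring
    have h3 : 0 < (b - x) * (p + a * q - (1 + a ^ 2) * M) +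
        (x - a) * (p + b * q - (1 + b ^ 2) * M) := by
      rcases eq_or_lt_of_le hax with h4 | h4
      · rw [← h4]
        have : 0 < (b - a) * (p + a * q - (1 + a ^ 2) * M) := mul_pos (by linarith) h1
        linarith
      · have e1 : 0 ≤ (b - x) * (p + a * q - (1 + a ^ 2) * M) := mul_nonneg (by linarith) h1.le
        have e2 : 0 < (x - a) * (p + b * q - (1 + b ^ 2) * M) := mul_pos (by linarith) h2
        linarith
    have h5 : 0 ≤ M * ((b - x) * (x - a) * (b - a)) := by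
      have : 0 ≤ (b - x) * (x - a) * (b - a) :=
        mul_nonneg (mul_nonneg (by linarith) (by linarith)) (by linarith)
      positivity
    by_contra hcon
    push Not at hcon
    have : (b - a) * (p + x * q - (1 + x ^ 2) * M) ≤ 0 :=
      mul_nonpos_of_nonneg_of_nonpos (by linarith) hcon
    linarith

lemma lin_bound {a b u v g r x y : ℝ} (hg : x ^ 2 + y ^ 2 ≤ g ^ 2) (hg0 : 0 ≤ g) (hr : 0 ≤ r)
    (h : (a - u) ^ 2 + (b - v) ^ 2 ≤ r ^ 2) : |x * a + y * b - (x * u + y * v)| ≤ g * r := by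
  apply abs_le_of_sq_le_sq _ (by positivity)
  have e1 : (x * a + y * b - (x * u + y * v)) ^ 2 ≤ (x ^ 2 + y ^ 2) * ((a - u) ^ 2 + (b - v) ^ 2) := by
    nlinarith [sq_nonneg (x * (b - v) - y * (a - u))]
  have e2 : (x ^ 2 + y ^ 2) * ((a - u) ^ 2 + (b - v) ^ 2) ≤ g ^ 2 * r ^ 2 :=
    mul_le_mul hg h (by positivity) (by positivity)
  nlinarith

lemma InB.sq {A B r : ℕ} {Y : ℂ} (hY : InB A B r Y) :
    (Y.re - ((A:ℝ) - 536870912)) ^ 2 + (Y.im - ((B:ℝ) - 536870912)) ^ 2 ≤ (r:ℝ) ^ 2 := by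
  unfold InB at hY
  have h1 : ‖Y - pt A B‖ ^ 2 = (Y.re - ((A:ℝ) - 536870912)) ^ 2 + (Y.im - ((B:ℝ) - 536870912)) ^ 2 := by
    rw [Complex.sq_norm, Complex.normSq_apply, Complex.sub_re, Complex.sub_im]
    unfold pt
    ring
  rw [← h1]
  exact pow_le_pow_left₀ (norm_nonneg _) hY 2

lemma toZ_re (Y : ℂ) : (toZ Y).re = 1 / 2 - Y.re / 16777216 := by
  unfold toZ
  have e16 : (16777216 : ℂ) = ((16777216 : ℝ) : ℂ) := by norm_num
  rw [Complex.sub_re, e16, Complex.div_ofReal_re]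
  norm_num

lemma toZ_im (Y : ℂ) : (toZ Y).im = - (Y.im / 16777216) := by
  unfold toZ
  have e16 : (16777216 : ℂ) = ((16777216 : ℝ) : ℂ) := by norm_num
  rw [Complex.sub_im, e16, Complex.div_ofReal_im]
  norm_num

lemma good_sound (hC : CD ε P Q t E t1 g1 h1 t2 g2 h2 kx ky ρ) {A B r : ℕ} {Y : ℂ}
    (hY : InB A B r Y) (h : good t1 g1 t2 g2 A B r = true) : GoodPt ε (toZ Y) := by
  unfold good at h
  rw [gd_true] at h
  have key : ∀ τ g : ℕ, (16777216:ℝ) ^ 2 + (τ:ℝ) ^ 2 ≤ (g:ℝ) ^ 2 → good1 τ g A B r = true →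
      0 ≤ 31 / 64 + Y.re / 16777216 + (τ:ℝ) / 16777216 * (Y.im / 16777216) := by
    intro τ g hg h
    unfold good1 at h
    simp only [Nat.add_eq, Nat.mul_eq] at h
    have h1 := Nat.le_of_ble_eq_true h
    have h2 : (((16777216 + τ) * 536870912 + g * r : ℕ) : ℝ) ≤
        ((136339441844224 + (16777216 * A + τ * B) : ℕ) : ℝ) := by exact_mod_cast h1
    push_cast at h2
    have h3 := lin_bound hg (Nat.cast_nonneg _) (Nat.cast_nonneg _) hY.sq
    have h4 := (abs_le.1 h3).1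
    have e : 31 / 64 + Y.re / 16777216 + (τ:ℝ) / 16777216 * (Y.im / 16777216) =
      (136339441844224 + (16777216 * Y.re + τ * Y.im)) / 281474976710656 := by ring
    rw [e]
    apply div_nonneg _ (by norm_num)
    linarith
  have k1 := key t1 g1 hC.hg1 h.1
  have k2 := key t2 g2 hC.hg2 h.2
  have hx := hC.par.re
  unfold GoodPt
  rw [toZ_re, toZ_im]
  set p := Y.re / 16777216 with hp
  set q := Y.im / 16777216 with hq
  have ht1 := hC.ht1
  have ht2 := hC.ht2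
  rcases le_total 0 q with h0 | h0
  · have e1 : 0 ≤ ε.re * (31 / 64 + p + (t1:ℝ) / 16777216 * q) := mul_nonneg hx.le k1
    have e2 : ((t1:ℝ) * ε.re) * q ≤ (16777216 * ε.im) * q := mul_le_mul_of_nonneg_right ht1 h0
    linarith
  · have e1 : 0 ≤ ε.re * (31 / 64 + p + (t2:ℝ) / 16777216 * q) := mul_nonneg hx.le k2
    have e2 : ((t2:ℝ) * ε.re) * q ≤ (16777216 * ε.im) * q := mul_le_mul_of_nonpos_right ht2 h0
    linarith

lemma atta_sound (hC : CD ε P Q t E t1 g1 h1 t2 g2 h2 kx ky ρ) {A B r : ℕ} {Y : ℂ}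
    (hY : InB A B r Y) (h : atta E t1 g1 h1 t2 g2 h2 A B r = true) : Att ε (toZ Y) := by
  left
  unfold atta atta1 atta2 atta3 at h
  simp only [Nat.add_eq, Nat.mul_eq, ndiv_eq] at h
  rw [gd_true] at h
  set x := dist A 545259520 with hx
  set b := dist B 536870912 with hb
  set u := nrm x b (x * x + b * b) + r with hu
  set W := u * u / 16777216 + E with hW
  set Z := toZ Y with hZ
  have hZre := toZ_re Y
  have hZim := toZ_im Y
  rw [← hZ] at hZre hZim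
  have hun : 16777216 * ‖Z‖ ≤ u := by
    have h7 : ‖(16777216 : ℂ)‖ = 16777216 := by simp
    have e1 : 16777216 * ‖Z‖ = ‖8388608 - Y‖ := by
      rw [← h7, ← norm_mul, hZ]
      congr 1
      unfold toZ
      ring
    have e2 : (8388608 - Y : ℂ) = (8388608 - pt A B) + -(Y - pt A B) := by ring
    have e3 : ‖(8388608 - pt A B : ℂ)‖ ≤ nrm x b (x * x + b * b) := by
      apply nrm_sound
      have e4 : ‖(8388608 - pt A B : ℂ)‖ ^ 2 = ((A:ℝ) - 545259520) ^ 2 + ((B:ℝ) - 536870912) ^ 2 := by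
        have e16 : (8388608 : ℂ) = ((8388608 : ℝ) : ℂ) := by norm_num
        rw [Complex.sq_norm, Complex.normSq_apply, Complex.sub_re, Complex.sub_im, e16, Complex.ofReal_re,
          Complex.ofReal_im]
        unfold pt
        ring
      have e5 : ((x:ℕ):ℝ) = |(A:ℝ) - 545259520| := by rw [hx, dist_cast]; norm_num
      have e6 : ((b:ℕ):ℝ) = |(B:ℝ) - 536870912| := by rw [hb, dist_cast]; norm_num
      rw [e4]
      push_cast
      rw [e5, e6, abs_mul_abs_self, abs_mul_abs_self]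
      nlinarith
    rw [e1, e2, hu]
    refine (norm_add_le _ _).trans ?_
    rw [norm_neg]
    push_cast
    exact add_le_add e3 hY
  set M := Z.re ^ 2 + Z.im ^ 2 + (ε.re ^ 2 + ε.im ^ 2) with hM
  have hZn : ‖Z‖ ^ 2 = Z.re ^ 2 + Z.im ^ 2 := by
    rw [Complex.sq_norm, Complex.normSq_apply]; ring
  have hWM : 16777216 * M ≤ W := by
    have e1 := div_lower (u * u) 16777216 (by norm_num)
    have e2 : (16777216 * ‖Z‖) ^ 2 ≤ (u:ℝ) ^ 2 := pow_le_pow_left₀ (by positivity) hun 2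
    have e3 := hC.hE
    rw [hW, hM]
    push_cast at e1 ⊢
    have e4 : 16777216 * (Z.re ^ 2 + Z.im ^ 2) ≤ (u:ℝ) * u / 16777216 := by
      rw [le_div_iff₀ (by norm_num), ← hZn]
      nlinarith
    linarith
  have hM0 : 0 ≤ M := by positivity
  clear_value W u x b
  clear hW hu hx hb
  have key : ∀ τ g h : ℕ, (16777216:ℝ) ^ 2 + (τ:ℝ) ^ 2 ≤ (g:ℝ) ^ 2 →
      (16777216:ℝ) ^ 2 + (τ:ℝ) ^ 2 ≤ 16777216 * h → atta4 A B r τ g h W = true →
      0 < Z.re + (τ:ℝ) / 16777216 * Z.im - (1 + ((τ:ℝ) / 16777216) ^ 2) * M := by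
    intro τ g h hg hh hat
    unfold atta4 at hat
    simp only [Nat.add_eq, Nat.mul_eq] at hat
    have h1 := Nat.le_of_ble_eq_true hat
    have h2 : (16777216 * A + τ * B + (g * r + h * W)) < 9147936743096320 + τ * 536870912 := h1
    have h3 : ((16777216 * A + τ * B + (g * r + h * W) : ℕ) : ℝ) <
        ((9147936743096320 + τ * 536870912 : ℕ) : ℝ) := by exact_mod_cast h2
    push_cast at h3
    have h4 := lin_bound hg (Nat.cast_nonneg _) (Nat.cast_nonneg _) hY.sq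
    have h5 := (abs_le.1 h4).2
    have h6 : ((16777216:ℝ) ^ 2 + (τ:ℝ) ^ 2) * M ≤ h * W := by
      calc ((16777216:ℝ) ^ 2 + (τ:ℝ) ^ 2) * M ≤ (16777216 * h) * M := mul_le_mul_of_nonneg_right hh hM0
        _ = h * (16777216 * M) := by ring
        _ ≤ h * W := mul_le_mul_of_nonneg_left hWM (Nat.cast_nonneg _)
    rw [hZre, hZim]
    have e : 1 / 2 - Y.re / 16777216 + (τ:ℝ) / 16777216 * -(Y.im / 16777216) -
      (1 + ((τ:ℝ) / 16777216) ^ 2) * M =
      (140737488355328 - (16777216 * Y.re + τ * Y.im) - ((16777216:ℝ) ^ 2 + (τ:ℝ) ^ 2) * M) / 281474976710656 := by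
      ring
    rw [e]
    apply div_pos _ (by norm_num)
    linarith
  have k1 := key t1 g1 h1 hC.hg1 hC.hh1 h.1
  have k2 := key t2 g2 h2 hC.hg2 hC.hh2 h.2
  have hxp := hC.par.re
  have ht1 : (t1:ℝ) / 16777216 ≤ ε.im / ε.re := by
    rw [div_le_div_iff₀ (by norm_num) hxp]; linarith [hC.ht1]
  have ht2 : ε.im / ε.re ≤ (t2:ℝ) / 16777216 := by
    rw [div_le_div_iff₀ hxp (by norm_num)]; linarith [hC.ht2]
  have k3 := concave_aux hM0 ht1 ht2 k1 k2
  have e1 : ε.re * (ε.re * Z.re + ε.im * Z.im) - (ε.re ^ 2 + ε.im ^ 2) * M =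
      ε.re ^ 2 * (Z.re + ε.im / ε.re * Z.im - (1 + (ε.im / ε.re) ^ 2) * M) := by
    field_simp
  have e2 : 0 < ε.re ^ 2 * (Z.re + ε.im / ε.re * Z.im - (1 + (ε.im / ε.re) ^ 2) * M) := by positivity
  rw [← e1] at e2
  linarith

lemma fin_sound (hC : CD ε P Q t E t1 g1 h1 t2 g2 h2 kx ky ρ) {A B r : ℕ} {Y : ℂ}
    (hY : InB A B r Y) {kd : ℕ} (h : fin E t1 g1 h1 t2 g2 h2 kx ky ρ kd A B r = true) :
    Esc (toZ Y) ∨ Att ε (toZ Y) := by
  rcases kd with _ | _ | kd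
  · exact Or.inl (esc_sound hY h)
  · exact Or.inr (atta_sound hC hY h)
  · exact Or.inr (attb_sound hC hY h)

lemma toZ_step (ε Y : ℂ) : toZ (Y ^ 2 / 16777216 + 16777216 * (1 / 4 - ε ^ 2)) = f0 (ε ^ 2) (toZ Y) := by
  unfold toZ f0
  ring

lemma toZ_gstep (c : ℝ) (ε Y : ℂ) :
    toZ ((c:ℂ) * (Y ^ 2 / 16777216 + 16777216 * (1 / 4 - ε ^ 2)) + (1 - (c:ℂ)) * Y) =
      toZ Y + (c:ℂ) * (ε ^ 2 - toZ Y ^ 2) := by
  unfold toZ
  ring

lemma toZ_iter (ε Y : ℂ) (j : ℕ) :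
    toZ ((fun Y => Y ^ 2 / 16777216 + 16777216 * (1 / 4 - ε ^ 2))^[j] Y) = (f0 (ε ^ 2))^[j] (toZ Y) := by
  induction j generalizing Y with
  | zero => rfl
  | succ j ih =>
    rw [Function.iterate_succ_apply, Function.iterate_succ_apply, ih, toZ_step]

lemma dead_sound (hC : CD ε P Q t E t1 g1 h1 t2 g2 h2 kx ky ρ) {A B r : ℕ} {Y : ℂ}
    (hY : InB A B r Y) {kd j : ℕ}
    (h : uiter P Q t (fin E t1 g1 h1 t2 g2 h2 kx ky ρ kd) j A B r = true) : Dead ε (toZ Y) := by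
  obtain ⟨A', B', r', h1, h2⟩ := uiter_sound (hC.hQ.trans (by norm_num)) hC.hK j hY h
  refine ⟨j, ?_⟩
  rw [← toZ_iter]
  exact fin_sound hC h2 h1

/-- the list approximates the cosines along the orbit -/
def StepsOK (L s : ℕ) : ℕ → List ℕ → Prop
  | 0, l => l = []
  | i + 1, l => ∃ (D : ℕ) (l' : List ℕ), l = D :: l' ∧
      |(1 - Real.cos (2 * Real.pi * ((s : ℝ) / (L:ℝ) ^ (i + 1)))) * 16777216 - D| ≤ 1 ∧ StepsOK L s i l'

lemma K_bound (h : Par ε) : ‖16777216 * (1 / 4 - ε ^ 2)‖ ≤ 16777216 := by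
  rw [norm_mul]
  have h7 : ‖(16777216 : ℂ)‖ = 16777216 := by simp
  rw [h7]
  have := h.c_bound
  linarith

lemma giter_sound (hC : CD ε P Q t E t1 g1 h1 t2 g2 h2 kx ky ρ) {kd j L s : ℕ} (i : ℕ) :
    ∀ {l : List ℕ} {A B r : ℕ} {Y : ℂ}, StepsOK L s i l → InB A B r Y →
    giter P Q t (uiter P Q t (fin E t1 g1 h1 t2 g2 h2 kx ky ρ kd) j) l A B r = true →
    Dead ε (comp L (ε ^ 2) s i (toZ Y)) := by
  induction i with
  | zero =>
    intro l A B r Y hl hY h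
    have hl' : l = [] := hl
    rw [hl'] at h
    exact dead_sound hC hY h
  | succ i ih =>
    intro l A B r Y hl hY h
    obtain ⟨D, l', rfl, hD, hl'⟩ := hl
    have h1 : gstep P Q t D A B r
      (giter P Q t (uiter P Q t (fin E t1 g1 h1 t2 g2 h2 kx ky ρ kd) j) l') = true := h
    obtain ⟨A', B', r', h2, h3⟩ := gstep_sound hC.hP hC.hQ hC.hK (K_bound hC.par)
      (Real.abs_cos_le_one _) hD hY h1
    have h4 := ih hl' h3 h2
    rw [toZ_gstep] at h4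
    exact h4

/-- conclusion of the certificate -/
def Concl (L : ℕ) (ε w : ℂ) : Prop :=
  Dead ε w ∨ GoodPt ε (f0 (ε ^ 2) w) ∨ ∃ s i : ℕ, (s : ℝ) / (L:ℝ) ^ i ≤ 1 / 9 ∧
    ∀ δ : ℂ, ‖δ‖ ≤ kap L * ((s : ℝ) / (L:ℝ) ^ i) ^ 2 → Dead ε (comp L (ε ^ 2) s i (w + δ))

/-- correct tests -/
def TestsOK (L : ℕ) (Ts : List (ℕ × List ℕ)) : Prop := ∀ x ∈ Ts, ∃ s i : ℕ,
  (s : ℝ) / (L:ℝ) ^ i ≤ 1 / 9 ∧ 16777216 * (kap L * ((s : ℝ) / (L:ℝ) ^ i) ^ 2) ≤ x.1 ∧ StepsOK L s i x.2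

lemma nth_sound (k : ℕ → List ℕ → Bool) : ∀ (l : List (ℕ × List ℕ)) (n : ℕ), nth l n k = true →
    ∃ x ∈ l, k x.1 x.2 = true := by
  intro l
  induction l with
  | nil => intro n h; exact absurd h (by simp [nth])
  | cons x l ih =>
    intro n h
    rcases n with _ | n
    · exact ⟨x, List.mem_cons_self, h⟩
    · have h1 : nth l n k = true := h
      obtain ⟨y, hy, h2⟩ := ih n h1
      exact ⟨y, List.mem_cons_of_mem _ hy, h2⟩

lemma box_sound {L : ℕ} {Ts : List (ℕ × List ℕ)} (hT : TestsOK L Ts)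
    (hC : CD ε P Q t E t1 g1 h1 t2 g2 h2 kx ky ρ) {A B h m : ℕ}
    (hb : box1 Ts P Q t E t1 g1 h1 t2 g2 h2 kx ky ρ A B h m = true) {Y : ℂ}
    (h1' : |Y.re - ((A:ℝ) - 536870912)| ≤ h) (h2' : |Y.im - ((B:ℝ) - 536870912)| ≤ h) :
    Concl L ε (toZ Y) := by
  unfold box1 box2 at hb
  simp only [Nat.add_eq, Nat.mul_eq, ndiv_eq] at hb
  set r := h * 1449 / 1024 + 1 with hr
  have hY : InB A B r Y := by
    unfold InB
    have e1 : ‖Y - pt A B‖ ^ 2 ≤ 2 * (h:ℝ) ^ 2 := by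
      have e2 : ‖Y - pt A B‖ ^ 2 = (Y.re - ((A:ℝ) - 536870912)) ^ 2 + (Y.im - ((B:ℝ) - 536870912)) ^ 2 := by
        rw [Complex.sq_norm, Complex.normSq_apply, Complex.sub_re, Complex.sub_im]
        unfold pt
        ring
      rw [e2, ← sq_abs (Y.re - _), ← sq_abs (Y.im - _)]
      have e3 := pow_le_pow_left₀ (abs_nonneg _) h1' 2
      have e4 := pow_le_pow_left₀ (abs_nonneg _) h2' 2
      linarith
    have e5 := div_lower (h * 1449) 1024 (by norm_num)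
    have e6 : (h:ℝ) * 1449 / 1024 ≤ r := by
      rw [hr]; push_cast at e5 ⊢; linarith
    have e7 : ‖Y - pt A B‖ ≤ (h:ℝ) * 1449 / 1024 := by
      apply le_of_sq_le_sq _ (by positivity)
      refine e1.trans ?_
      have : 0 ≤ (h:ℝ) ^ 2 := by positivity
      nlinarith
    linarith
  clear_value r
  clear hr
  set idx := m.mod 32 with hidx
  clear_value idx
  rcases idx with _ | _ | idx
  · exact Or.inl (dead_sound hC hY hb)
  · right; left
    have h3 : uiter P Q t (good t1 g1 t2 g2) 1 A B r = true := hb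
    obtain ⟨A', B', r', h4, h5⟩ := uiter_sound (hC.hQ.trans (by norm_num)) hC.hK 1 hY h3
    rw [← toZ_step]
    exact good_sound hC h5 h4
  · right; right
    obtain ⟨x, hx, h3⟩ := nth_sound _ _ _ (show nth Ts idx _ = true from hb)
    obtain ⟨s, i, hs, hd, hst⟩ := hT x hx
    refine ⟨s, i, hs, fun δ hδ => ?_⟩
    have h4 : InB A B (r + x.1) (Y - 16777216 * δ) := by
      unfold InB at hY ⊢
      have : Y - 16777216 * δ - pt A B = (Y - pt A B) - 16777216 * δ := by ring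
      rw [this]
      refine (norm_sub_le _ _).trans ?_
      rw [norm_mul]
      have h7 : ‖(16777216 : ℂ)‖ = 16777216 := by simp
      rw [h7]
      push_cast
      have : 16777216 * ‖δ‖ ≤ x.1 := le_trans (by linarith) hd
      linarith
    have h5 := giter_sound hC i hst h4 h3
    have h6 : toZ (Y - 16777216 * δ) = toZ Y + δ := by unfold toZ; ring
    rw [h6] at h5
    exact h5

end Pool.Agent.W_MP_4481e3_an.Ev
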