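import Pool.Agent.W_MP_4481e3_low.Snd

/-!
Soundness of the general step.
-/

namespace Pool.Agent.W_MP_4481e3_an.Ev

open Complex

lemma subs_cast (D : ℕ) : (((16777216 - D : ℕ) : ℝ) - ((D - 16777216 : ℕ) : ℝ) = 16777216 - D) ∧
    (((16777216 - D : ℕ) : ℝ) + ((D - 16777216 : ℕ) : ℝ) = |16777216 - (D:ℝ)|) := by
  rcases le_total D 16777216 with h | h
  · rw [Nat.sub_eq_zero_of_le h, Nat.cast_sub h, abs_of_nonneg]
    · push_cast; constructor <;> ring
    · have : (D:ℝ) ≤ 16777216 := by exact_mod_cast h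
      linarith
  · rw [Nat.sub_eq_zero_of_le h, Nat.cast_sub h, abs_of_nonpos]
    · push_cast; constructor <;> ring
    · have : (16777216:ℝ) ≤ D := by exact_mod_cast h
      linarith

/-- the centre of the general step, one coordinate -/
lemma coord_step {D Cp Cm A A1 : ℕ} (h1 : (Cp:ℝ) - Cm = 16777216 - D)
    (h0 : Cp = 0 ∨ Cm = 0) (hD : (D:ℝ) ≤ 33554433)
    (ha : |(A:ℝ) - 536870912| ≤ 67108864) (ha1 : |(A1:ℝ) - 536870912| ≤ 301989892) :
    ∃ θ : ℝ, |θ| ≤ 1 ∧ (((Cp * A1 + D * A - Cm * A1) / 16777216 : ℕ) : ℝ) - 536870912 =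
      (1 - (D:ℝ) / 16777216) * ((A1:ℝ) - 536870912) + (D:ℝ) / 16777216 * ((A:ℝ) - 536870912) - θ := by
  have hD0 : (0:ℝ) ≤ D := Nat.cast_nonneg _
  have hA1 := abs_le.1 ha1
  have hA := abs_le.1 ha
  have hle : Cm * A1 ≤ Cp * A1 + D * A := by
    have : ((Cm * A1 : ℕ) : ℝ) ≤ ((Cp * A1 + D * A : ℕ) : ℝ) := by
      push_cast
      rcases h0 with h0 | h0
      · have hCm : (Cm : ℝ) = D - 16777216 := by rw [h0] at h1; push_cast at h1; linarith
        have hCm0 : (0:ℝ) ≤ Cm := Nat.cast_nonneg _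
        rw [h0, hCm]
        rw [hCm] at hCm0
        push_cast
        have e1 : ((D:ℝ) - 16777216) * A1 ≤ ((D:ℝ) - 16777216) * 838860804 := by
          apply mul_le_mul_of_nonneg_left _ hCm0; linarith
        have e2 : (D:ℝ) * 469762048 ≤ D * A := by
          apply mul_le_mul_of_nonneg_left _ hD0; linarith
        linarith
      · rw [h0]
        push_cast
        have : (0:ℝ) ≤ (Cp:ℝ) * A1 := by positivity
        have : (0:ℝ) ≤ (D:ℝ) * A := by positivity
        linarith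
    exact_mod_cast this
  have l1 := div_lower (Cp * A1 + D * A - Cm * A1) 16777216 (by norm_num)
  have u1 := div_upper (Cp * A1 + D * A - Cm * A1) 16777216
  rw [Nat.cast_sub hle] at l1 u1
  push_cast at l1 u1
  have e : (Cp:ℝ) * A1 + D * A - Cm * A1 = (16777216 - D) * A1 + D * A := by
    have : (Cp:ℝ) * A1 + D * A - Cm * A1 = (Cp - Cm) * A1 + D * A := by ring
    rw [this, h1]
  rw [e] at l1 u1
  refine ⟨((16777216 - D) * A1 + D * A) / 16777216 - (((Cp * A1 + D * A - Cm * A1) / 16777216 : ℕ) : ℝ),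
    ?_, by ring⟩
  rw [abs_le]
  constructor <;> linarith

theorem gstep_sound {P Q t D A B r : ℕ} {K Y : ℂ} {c : ℝ} {k : ℕ → ℕ → ℕ → Bool}
    (hP : P ≤ 16777216) (hQ : Q ≤ 16777216) (hK : ‖K - (⟨P, -Q⟩ : ℂ)‖ + 3 ≤ t) (hKn : ‖K‖ ≤ 16777216)
    (hc : |c| ≤ 1) (hD : |(1 - c) * 16777216 - D| ≤ 1) (hY : InB A B r Y)
    (h : gstep P Q t D A B r k = true) :
    ∃ A' B' r' : ℕ, k A' B' r' = true ∧
      InB A' B' r' ((c:ℂ) * (Y ^ 2 / 16777216 + K) + (1 - (c:ℂ)) * Y) := by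
  unfold gstep gstep2 gstep3 gstep4 gstep5 gstep6 at h
  simp only [Nat.add_eq, Nat.mul_eq, Nat.sub_eq, ndiv_eq] at h
  rw [gd_true] at h
  obtain ⟨h1, h2⟩ := h
  have hN := Nat.le_of_ble_eq_true h1
  refine ⟨_, _, _, h2, ?_⟩
  clear h2 h1
  obtain ⟨sc1, sc2⟩ := subs_cast D
  have h0 : 16777216 - D = 0 ∨ D - 16777216 = 0 := by omega
  set Cp := 16777216 - D with hCp
  set Cm := D - 16777216 with hCm
  unfold InB at hY ⊢
  have hcs := centre_step (P := P) (Q := Q) (A := A) (B := B) (by omega) (by omega)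
  set a := dist A 536870912 with ha
  set b := dist B 536870912 with hb
  set s := dist (A + B) 1073741824 with hs
  set A1 := (a * a + 9007199254740992 - b * b) / 16777216 + P with hA1
  set B1 := (s * s + 9007199254740992 - (a * a + b * b)) / 16777216 - Q with hB1
  set z := pt A B with hz
  set z1 := pt A1 B1 with hz1
  have haa : ((a:ℕ):ℝ) = |(A:ℝ) - 536870912| := by rw [ha, dist_cast]; norm_num
  have hbb : ((b:ℕ):ℝ) = |(B:ℝ) - 536870912| := by rw [hb, dist_cast]; norm_num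
  clear_value A1 B1 a b s Cp Cm
  clear hA1 hB1 ha hb hs hCp hCm
  -- real bounds
  have hNr : (a:ℝ) ^ 2 + (b:ℝ) ^ 2 + 268435456 * r ≤ 4503599627370496 := by
    have : ((a * a + b * b + 268435456 * r : ℕ) : ℝ) ≤ 4503599627370496 := by exact_mod_cast hN
    push_cast at this
    linarith only [this]
  clear hN
  have hr0 : (0:ℝ) ≤ r := Nat.cast_nonneg _
  have hr1 : (r:ℝ) ≤ 16777216 := by linarith only [hNr, sq_nonneg (a:ℝ), sq_nonneg (b:ℝ)]
  have hz4 : ‖z‖ ≤ 67108864 := by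
    have e1 : ‖z‖ ^ 2 ≤ 67108864 ^ 2 := by
      rw [hz, norm_pt_sq, ← sq_abs ((A:ℝ) - 536870912), ← sq_abs ((B:ℝ) - 536870912), ← haa, ← hbb]
      linarith only [hNr]
    exact le_of_sq_le_sq e1 (by norm_num)
  have habs1 : |(A:ℝ) - 536870912| ≤ 67108864 := (Complex.abs_re_le_norm z).trans hz4
  have habs2 : |(B:ℝ) - 536870912| ≤ 67108864 := (Complex.abs_im_le_norm z).trans hz4
  have hk2 : ‖(⟨P, -Q⟩ : ℂ)‖ ≤ 25165824 := by
    have hP' : (P:ℝ) ≤ 16777216 := by exact_mod_cast hP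
    have hQ' : (Q:ℝ) ≤ 16777216 := by exact_mod_cast hQ
    have e1 : ‖(⟨P, -Q⟩ : ℂ)‖ ≤ 3 / 2 * 16777216 := by
      apply norm_le_sqrt_two
      · simp only [Nat.abs_cast]; exact hP'
      · simp only [abs_neg, Nat.abs_cast]; exact hQ'
    linarith only [e1]
  clear hP hQ
  have hsq : ‖z ^ 2 / 16777216‖ ≤ 268435456 := by
    rw [norm_div, norm_pow]
    have h6 : ‖(16777216 : ℂ)‖ = 16777216 := by simp
    rw [h6, div_le_iff₀ (by norm_num)]
    nlinarith only [hz4, norm_nonneg z]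
  have hz1n : ‖z1‖ ≤ 301989892 := by
    have e1 : z1 = (z ^ 2 / 16777216 + (⟨P, -Q⟩ : ℂ)) - ((z ^ 2 / 16777216 + (⟨P, -Q⟩ : ℂ)) - z1) := by ring
    rw [e1]
    refine (norm_sub_le _ _).trans ?_
    have e2 := norm_add_le (z ^ 2 / 16777216) (⟨P, -Q⟩ : ℂ)
    linarith
  have habs3 : |(A1:ℝ) - 536870912| ≤ 301989892 := (Complex.abs_re_le_norm z1).trans hz1n
  have habs4 : |(B1:ℝ) - 536870912| ≤ 301989892 := (Complex.abs_im_le_norm z1).trans hz1n
  have hcc := abs_le.1 hc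
  have hDD := abs_le.1 hD
  have hD2 : (D:ℝ) ≤ 33554433 := by linarith only [hcc, hDD]
  have hD0 : (0:ℝ) ≤ D := Nat.cast_nonneg _
  obtain ⟨θ1, hθ1, e1⟩ := coord_step (A := A) (A1 := A1) sc1 h0 hD2 habs1 habs3
  obtain ⟨θ2, hθ2, e2⟩ := coord_step (A := B) (A1 := B1) sc1 h0 hD2 habs2 habs4
  set A' := (Cp * A1 + D * A - Cm * A1) / 16777216 with hA'
  set B' := (Cp * B1 + D * B - Cm * B1) / 16777216 with hB'
  clear_value A' B'
  clear hA' hB'
  set q : ℝ := 1 - (D:ℝ) / 16777216 with hq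
  have hz' : pt A' B' = (q:ℂ) * z1 + (1 - (q:ℂ)) * z - ⟨θ1, θ2⟩ := by
    apply Complex.ext
    · show (A':ℝ) - 536870912 = _
      rw [e1, Complex.sub_re, Complex.add_re, Complex.re_ofReal_mul]
      have : (1 - (q:ℂ)) = ((1 - q : ℝ) : ℂ) := by push_cast; ring
      rw [this, Complex.re_ofReal_mul, hz, hz1, hq]
      unfold pt
      simp only
      ring
    · show (B':ℝ) - 536870912 = _
      rw [e2, Complex.sub_im, Complex.add_im, Complex.im_ofReal_mul]
      have : (1 - (q:ℂ)) = ((1 - q : ℝ) : ℂ) := by push_cast; ring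
      rw [this, Complex.im_ofReal_mul, hz, hz1, hq]
      unfold pt
      simp only
      ring
  have hθ : ‖(⟨θ1, θ2⟩ : ℂ)‖ ≤ 3 / 2 := by
    have := norm_le_sqrt_two (z := ⟨θ1, θ2⟩) (x := 1) hθ1 hθ2
    linarith only [this]
  have hqabs : |q| = (Cp + Cm : ℝ) / 16777216 := by
    rw [sc2, hq]
    have : (1:ℝ) - (D:ℝ) / 16777216 = (16777216 - D) / 16777216 := by ring
    rw [this, abs_div]
    norm_num
  have hcq : |c - q| ≤ 1 / 16777216 := by
    have : c - q = -((1 - c) * 16777216 - D) / 16777216 := by rw [hq]; ring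
    rw [this, abs_div, abs_neg, abs_of_pos (show (0:ℝ) < 16777216 by norm_num)]
    exact div_le_div_of_nonneg_right hD (by norm_num)
  have hq1 : |q| ≤ 16 / 15 := by
    have e3 : q = c - (c - q) := by ring
    rw [e3]
    refine (abs_sub _ _).trans ?_
    linarith only [hc, hcq]
  -- the factor
  set X1 := 16777216 * D + (2 * Cp * A + 1073741824 * Cm) with hX1
  set X2 := 1073741824 * Cp + 2 * Cm * A with hX2
  set m := dist X1 X2 / 16777216 + 1 with hm
  set n := 2 * (Cp + Cm) * b / 16777216 + 1 with hn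
  set F : ℂ := ((D:ℂ) + 2 * (q:ℂ) * z) with hF
  have hFre : F.re = D + 2 * q * ((A:ℝ) - 536870912) := by
    rw [hF, Complex.add_re]
    have : 2 * (q:ℂ) * z = ((2 * q : ℝ) : ℂ) * z := by push_cast; ring
    rw [this, Complex.re_ofReal_mul, Complex.natCast_re]
    rfl
  have hFim : F.im = 2 * q * ((B:ℝ) - 536870912) := by
    rw [hF, Complex.add_im]
    have : 2 * (q:ℂ) * z = ((2 * q : ℝ) : ℂ) * z := by push_cast; ring
    rw [this, Complex.im_ofReal_mul, Complex.natCast_im, zero_add]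
    rfl
  have hX12 : (X1:ℝ) - X2 = 16777216 * F.re := by
    rw [hX1, hX2, hFre, hq]
    push_cast
    have : (Cp:ℝ) = Cm + (16777216 - D) := by linarith only [sc1]
    rw [this]
    ring
  clear_value X1 X2
  have hmre : |F.re| ≤ m := by
    have e3 := div_lower (dist X1 X2) 16777216 (by norm_num)
    rw [dist_cast] at e3
    have e4 : (X1:ℝ) - X2 = 16777216 * F.re := hX12
    rw [e4, abs_mul, abs_of_pos (show (0:ℝ) < 16777216 by norm_num)] at e3
    push_cast at e3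
    rw [hm]
    push_cast
    linarith only [e3]
  have hnim : |F.im| ≤ n := by
    have e3 := div_lower (2 * (Cp + Cm) * b) 16777216 (by norm_num)
    push_cast at e3
    rw [hn]
    push_cast
    rw [hFim, abs_mul, abs_mul, hqabs, ← hbb, abs_of_pos (show (0:ℝ) < 2 by norm_num)]
    have e4 : 2 * (((Cp:ℝ) + Cm) / 16777216) * b = 2 * ((Cp:ℝ) + Cm) * b / 16777216 := by ring
    rw [e4]
    linarith only [e3]
  clear_value m n
  clear hm hn
  set w := nrm m n (m * m + n * n) with hw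
  have hFw : ‖F‖ ≤ w := by
    rw [hw]
    apply nrm_sound
    have e3 : ‖F‖ ^ 2 = |F.re| ^ 2 + |F.im| ^ 2 := by
      rw [Complex.sq_norm, Complex.normSq_apply, sq_abs, sq_abs]; ring
    rw [e3]
    push_cast
    have e4 : |F.re| ^ 2 ≤ (m:ℝ) ^ 2 := pow_le_pow_left₀ (abs_nonneg _) hmre 2
    have e5 : |F.im| ^ 2 ≤ (n:ℝ) ^ 2 := pow_le_pow_left₀ (abs_nonneg _) hnim 2
    linarith only [e4, e5]
  clear_value w
  clear hw
  -- radius
  have hrr := div_lower (w * r + (Cp + Cm) * (r * r / 16777216 + t)) 16777216 (by norm_num)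
  have hrr2 := div_lower (r * r) 16777216 (by norm_num)
  push_cast at hrr hrr2 ⊢
  -- decomposition
  set k0 : ℂ := (⟨P, -Q⟩ : ℂ) with hk0
  have hdec : (c:ℂ) * (Y ^ 2 / 16777216 + K) + (1 - (c:ℂ)) * Y - pt A' B' =
      ((c - q : ℝ) : ℂ) * (Y ^ 2 / 16777216 + K - Y) +
      ((Y - z) * (F / 16777216 + (q:ℂ) * (Y - z) / 16777216) + (q:ℂ) * (K - k0)) +
      ((q:ℂ) * ((z ^ 2 / 16777216 + k0) - z1) + ⟨θ1, θ2⟩) := by
    rw [hz', hF, hq]
    push_cast
    ring
  have n1 : ‖((c - q : ℝ) : ℂ) * (Y ^ 2 / 16777216 + K - Y)‖ ≤ 31 := by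
    rw [norm_mul, Complex.norm_real, Real.norm_eq_abs]
    have hYn : ‖Y‖ ≤ 83886080 := by
      have : Y = (Y - z) + z := by ring
      rw [this]
      refine (norm_add_le _ _).trans ?_
      linarith only [hY, hr1, hz4]
    have hY2 : ‖Y ^ 2 / 16777216‖ ≤ 419430400 := by
      rw [norm_div, norm_pow]
      have h6 : ‖(16777216 : ℂ)‖ = 16777216 := by simp
      rw [h6, div_le_iff₀ (by norm_num)]
      nlinarith only [hYn, norm_nonneg Y]
    have e3 : ‖Y ^ 2 / 16777216 + K - Y‖ ≤ 520093696 := by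
      refine (norm_sub_le _ _).trans ?_
      have := norm_add_le (Y ^ 2 / 16777216) K
      linarith only [hKn, hYn, hY2, this]
    calc |c - q| * ‖Y ^ 2 / 16777216 + K - Y‖ ≤ 1 / 16777216 * 520093696 :=
          mul_le_mul hcq e3 (norm_nonneg _) (by norm_num)
      _ = 31 := by norm_num
  have n2 : ‖(Y - z) * (F / 16777216 + (q:ℂ) * (Y - z) / 16777216)‖ ≤
      w * r / 16777216 + (Cp + Cm : ℝ) / 16777216 * (r * r / 16777216) := by
    rw [norm_mul]
    have h6 : ‖(16777216 : ℂ)‖ = 16777216 := by simp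
    have e3 : ‖F / 16777216 + (q:ℂ) * (Y - z) / 16777216‖ ≤
        w / 16777216 + (Cp + Cm : ℝ) / 16777216 * r / 16777216 := by
      refine (norm_add_le _ _).trans ?_
      rw [norm_div, norm_div, norm_mul, h6, Complex.norm_real, Real.norm_eq_abs, hqabs]
      apply add_le_add
      · exact div_le_div_of_nonneg_right hFw (by norm_num)
      · apply div_le_div_of_nonneg_right _ (by norm_num)
        apply mul_le_mul_of_nonneg_left hY
        positivity
    calc ‖Y - z‖ * ‖F / 16777216 + (q:ℂ) * (Y - z) / 16777216‖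
        ≤ r * (w / 16777216 + (Cp + Cm : ℝ) / 16777216 * r / 16777216) :=
          mul_le_mul hY e3 (norm_nonneg _) hr0
      _ = _ := by ring
  have n3 : ‖(q:ℂ) * (K - k0)‖ ≤ (Cp + Cm : ℝ) / 16777216 * (t - 3) := by
    rw [norm_mul, Complex.norm_real, Real.norm_eq_abs, hqabs]
    apply mul_le_mul_of_nonneg_left _ (by positivity)
    linarith only [hK]
  have n4 : ‖(q:ℂ) * ((z ^ 2 / 16777216 + k0) - z1)‖ ≤ 8 / 5 := by
    rw [norm_mul, Complex.norm_real, Real.norm_eq_abs]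
    calc |q| * ‖(z ^ 2 / 16777216 + k0) - z1‖ ≤ 16 / 15 * (3 / 2) :=
          mul_le_mul hq1 hcs (norm_nonneg _) (by norm_num)
      _ = 8 / 5 := by norm_num
  rw [hdec]
  refine (norm_add₃_le).trans ?_
  have n5 := norm_add_le ((Y - z) * (F / 16777216 + (q:ℂ) * (Y - z) / 16777216)) ((q:ℂ) * (K - k0))
  have n6 := norm_add_le ((q:ℂ) * ((z ^ 2 / 16777216 + k0) - z1)) (⟨θ1, θ2⟩ : ℂ)
  have hCa : (0:ℝ) ≤ (Cp:ℝ) + Cm := by positivity
  have hfin : w * r / 16777216 + (Cp + Cm : ℝ) / 16777216 * (r * r / 16777216) +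
      (Cp + Cm : ℝ) / 16777216 * (t - 3) ≤
      (w * r + (Cp + Cm : ℝ) * (((r * r / 16777216 : ℕ) : ℝ) + t)) / 16777216 := by
    have e3 : (Cp + Cm : ℝ) * (r * r / 16777216 + (t - 3)) ≤
        (Cp + Cm : ℝ) * (((r * r / 16777216 : ℕ) : ℝ) + t) := by
      apply mul_le_mul_of_nonneg_left _ hCa
      linarith only [hrr2]
    have e4 : w * r / 16777216 + (Cp + Cm : ℝ) / 16777216 * (r * r / 16777216) +
      (Cp + Cm : ℝ) / 16777216 * (t - 3) = (w * r + (Cp + Cm : ℝ) * (r * r / 16777216 + (t - 3))) / 16777216 := by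
      ring
    rw [e4]
    apply div_le_div_of_nonneg_right _ (by norm_num)
    linarith only [e3]
  linarith only [hθ, hrr, n1, n2, n3, n4, n5, n6, hfin]

end Pool.Agent.W_MP_4481e3_an.Ev
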