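import Pool.Agent.W_MP_4481e3_low.SndF

/-!
Soundness of the quad trees.
-/

namespace Pool.Agent.W_MP_4481e3_an.Ev

open Complex

/-- box -/
def Box (A B h : ℕ) (Y : ℂ) : Prop :=
  |Y.re - ((A:ℝ) - 536870912)| ≤ h ∧ |Y.im - ((B:ℝ) - 536870912)| ≤ h

lemma leaf_sound {bx : ℕ → ℕ → ℕ → ℕ → Bool} {A B h m : ℕ} (hl : leaf bx A B h m ≠ 0) :
    bx A B h m = true := by
  unfold leaf at hl
  cases hb : bx A B h m
  · rw [hb] at hl
    exact absurd rfl hl
  · rfl

lemma go_zero_zero (bx : ℕ → ℕ → ℕ → ℕ → Bool) (A B h n : ℕ) :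
    go bx 0 A B h n = Nat.rec 0 (fun _ _ => leaf bx A B h (n / 2)) (n % 2) := rfl

lemma go_succ (bx : ℕ → ℕ → ℕ → ℕ → Bool) (d A B h n : ℕ) :
    go bx (d + 1) A B h n = Nat.rec (spl (go bx d) A B (h / 2) (n / 2))
      (fun _ _ => leaf bx A B h (n / 2)) (n % 2) := rfl

lemma go_zero (bx : ℕ → ℕ → ℕ → ℕ → Bool) (d : ℕ) : ∀ A B h : ℕ, go bx d A B h 0 = 0 := by
  induction d with
  | zero => intro A B h; rfl
  | succ d ih =>
    intro A B h
    rw [go_succ]
    show spl (go bx d) A B (h / 2) 0 = 0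
    unfold spl
    rw [ih, ih, ih, ih]

lemma go_sound {bx : ℕ → ℕ → ℕ → ℕ → Bool} {Pr : ℂ → Prop}
    (hbx : ∀ A B h m : ℕ, bx A B h m = true → ∀ Y : ℂ, Box A B h Y → Pr Y) (d : ℕ) :
    ∀ A B h n : ℕ, 2 ^ d ∣ h → h ≤ A → h ≤ B → go bx d A B h n ≠ 0 → ∀ Y : ℂ, Box A B h Y → Pr Y := by
  induction d with
  | zero =>
    intro A B h n _ _ _ hg Y hY
    rw [go_zero_zero] at hg
    rcases Nat.mod_two_eq_zero_or_one n with h0 | h0
    · rw [h0] at hg; exact absurd rfl hg
    · rw [h0] at hg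
      exact hbx _ _ _ _ (leaf_sound hg) Y hY
  | succ d ih =>
    intro A B h n hd hA hB hg Y hY
    rw [go_succ] at hg
    rcases Nat.mod_two_eq_zero_or_one n with h0 | h0
    · rw [h0] at hg
      have hg' : spl (go bx d) A B (h / 2) (n / 2) ≠ 0 := hg
      obtain ⟨k, hk⟩ := hd
      have hh : h / 2 = 2 ^ d * k := by
        rw [hk, pow_succ]
        have : 2 ^ d * 2 * k = 2 * (2 ^ d * k) := by ring
        rw [this]
        exact Nat.mul_div_cancel_left _ (by norm_num)
      have hh2 : h = 2 * (h / 2) := by rw [hh, hk, pow_succ]; ring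
      set h' := h / 2 with hh'
      have hdv : 2 ^ d ∣ h' := ⟨k, hh⟩
      clear_value h'
      unfold spl at hg'
      simp only [Nat.add_eq, Nat.sub_eq] at hg'
      set n0 := n / 2
      set n1 := go bx d (A - h') (B - h') h' n0 with hn1
      set n2 := go bx d (A - h') (B + h') h' n1 with hn2
      set n3 := go bx d (A + h') (B - h') h' n2 with hn3
      have m3 : n3 ≠ 0 := by
        intro h5; rw [h5, go_zero] at hg'; exact hg' rfl
      have m2 : n2 ≠ 0 := by
        intro h5; rw [hn3, h5, go_zero] at m3; exact m3 rfl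
      have m1 : n1 ≠ 0 := by
        intro h5; rw [hn2, h5, go_zero] at m2; exact m2 rfl
      have cA : ((A - h' : ℕ) : ℝ) = A - h' := by rw [Nat.cast_sub (by omega)]
      have cB : ((B - h' : ℕ) : ℝ) = B - h' := by rw [Nat.cast_sub (by omega)]
      obtain ⟨y1, y2⟩ := hY
      rw [hh2] at y1 y2
      push_cast at y1 y2
      rw [abs_le] at y1 y2
      rcases le_total (Y.re) ((A:ℝ) - 536870912) with r1 | r1
      · rcases le_total (Y.im) ((B:ℝ) - 536870912) with r2 | r2
        · refine ih (A - h') (B - h') h' n0 hdv (by omega) (by omega) m1 Y ⟨?_, ?_⟩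
          · rw [cA, abs_le]; constructor <;> linarith
          · rw [cB, abs_le]; constructor <;> linarith
        · refine ih (A - h') (B + h') h' n1 hdv (by omega) (by omega) m2 Y ⟨?_, ?_⟩
          · rw [cA, abs_le]; constructor <;> linarith
          · push_cast; rw [abs_le]; constructor <;> linarith
      · rcases le_total (Y.im) ((B:ℝ) - 536870912) with r2 | r2
        · refine ih (A + h') (B - h') h' n2 hdv (by omega) (by omega) m3 Y ⟨?_, ?_⟩
          · push_cast; rw [abs_le]; constructor <;> linarith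
          · rw [cB, abs_le]; constructor <;> linarith
        · refine ih (A + h') (B + h') h' n3 hdv (by omega) (by omega) hg' Y ⟨?_, ?_⟩
          · push_cast; rw [abs_le]; constructor <;> linarith
          · push_cast; rw [abs_le]; constructor <;> linarith
    · rw [h0] at hg
      exact hbx _ _ _ _ (leaf_sound hg) Y hY

lemma frc_true {n : ℕ} {k : ℕ → Bool} (h : frc n k = true) : k n = true := by
  cases n
  · exact h
  · exact h

lemma cell3_sound {L : ℕ} {Ts : List (ℕ × List ℕ)} (hT : TestsOK L Ts) {ε : ℂ}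
    {P Q t E t1 g1 h1 t2 g2 h2 kx ky ρ n : ℕ}
    (hC : CD ε P Q t E t1 g1 h1 t2 g2 h2 kx ky ρ)
    (h : cell3 Ts P Q t E kx ky ρ t1 t2 g1 g2 h1 h2 n = true) (w : ℂ) : Concl L ε w := by
  unfold cell3 at h
  have h := frc_true h
  have h := frc_true h
  have h := frc_true h
  have h := frc_true h
  have h := frc_true h
  have h := frc_true h
  have h := frc_true h
  have h := frc_true h
  have h := frc_true h
  have h := frc_true h
  have h := frc_true h
  have h := frc_true h
  have h := frc_true h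
  have h3 := Nat.le_of_ble_eq_true h
  set Y : ℂ := 16777216 * (1 / 2 - w) with hY
  have hw : toZ Y = w := by
    unfold toZ; rw [hY]; ring
  by_cases hin : Box 536870912 536870912 22020096 Y
  · have h4 := go_sound (Pr := fun Y => Concl L ε (toZ Y))
      (fun A B h m hb Y hYb => box_sound hT hC hb hYb.1 hYb.2) 14 536870912 536870912 22020096 n
      (by norm_num) (by norm_num) (by norm_num) (Nat.pos_iff_ne_zero.1 h3) Y hin
    rw [hw] at h4
    exact h4
  · left
    refine ⟨0, Or.inl ?_⟩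
    show Esc w
    unfold Esc
    have h5 : (22020096:ℝ) < ‖Y‖ := by
      by_contra hcon
      push Not at hcon
      apply hin
      constructor
      · push_cast
        have := Complex.abs_re_le_norm Y
        norm_num
        linarith only [hcon, this]
      · push_cast
        have := Complex.abs_im_le_norm Y
        norm_num
        linarith
    rw [hY, norm_mul] at h5
    have h7 : ‖(16777216 : ℂ)‖ = 16777216 := by simp
    rw [h7, norm_sub_rev] at h5
    linarith

lemma cell_CD {X Y H : ℕ} (hX : X + 2 * H ≤ 8388608) (hY : Y + 2 * H ≤ 8388608) (hH : 0 < H)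
    {ε : ℂ} (hp : Par ε) (h1 : (X:ℝ) ≤ 16777216 * ε.re) (h2 : 16777216 * ε.re ≤ X + 2 * H)
    (h3 : (Y:ℝ) ≤ 16777216 * ε.im) (h4 : 16777216 * ε.im ≤ Y + 2 * H)
    {x y e N : ℕ} (hx : x = X + H) (hy : y = Y + H) (he : e = H * 1449 / 1024 + 1) (hN : N = x * x + y * y)
    {t1 t2 : ℕ} (ht1 : t1 = 16777216 * Y / (X + 2 * H))
    (ht2 : t2 = 16777216 ∨ (0 < X ∧ t2 = 16777216 * (Y + 2 * H) / X + 1)) :
    CD ε (4194304 + y * y / 16777216 - x * x / 16777216) (2 * x * y / 16777216)
      ((2 * nrm x y N + e) * e / 16777216 + 6) (((nrm x y N + e) * (nrm x y N + e)) / 16777216 + 2)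
      t1 (gnrm t1) (hnrm t1) t2 (gnrm t2) (hnrm t2) (545259520 - x) y
      (16777216 - (2 * nrm (8388608 - x) y ((8388608 - x) * (8388608 - x) + y * y) + 3 * e + 1)) := by
  have hxle : x ≤ 8388608 := by omega
  have hyle : y ≤ 8388608 := by omega
  have hxx : x * x / 16777216 ≤ 4194304 := by
    have : x * x ≤ 8388608 * 8388608 := Nat.mul_le_mul hxle hxle
    omega
  have hyy : y * y / 16777216 ≤ 4194304 := by
    have : y * y ≤ 8388608 * 8388608 := Nat.mul_le_mul hyle hyle
    omega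
  have hxy : 2 * x * y / 16777216 ≤ 16777216 := by
    have : x * y ≤ 8388608 * 8388608 := Nat.mul_le_mul hxle hyle
    have e1 : 2 * x * y = 2 * (x * y) := by ring
    rw [e1]
    omega
  have hX0 : (0:ℝ) ≤ X := Nat.cast_nonneg _
  have hY0 : (0:ℝ) ≤ Y := Nat.cast_nonneg _
  have hH0 : (0:ℝ) < H := by exact_mod_cast hH
  have hxr : (x:ℝ) = X + H := by rw [hx]; push_cast; ring
  have hyr : (y:ℝ) = Y + H := by rw [hy]; push_cast; ring
  have her : (H:ℝ) * 1449 / 1024 ≤ e := by
    have := div_lower (H * 1449) 1024 (by norm_num)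
    rw [he]; push_cast at this ⊢; linarith only [this]
  have hNr : (N:ℝ) = x ^ 2 + y ^ 2 := by rw [hN]; push_cast; ring
  -- the centre
  set ec : ℂ := ⟨x, y⟩ with hec
  set s : ℂ := 16777216 * ε with hs
  have hsre : s.re = 16777216 * ε.re := by
    rw [hs]
    have e16 : (16777216 : ℂ) = ((16777216 : ℝ) : ℂ) := by norm_num
    rw [e16, Complex.re_ofReal_mul]
  have hsim : s.im = 16777216 * ε.im := by
    rw [hs]
    have e16 : (16777216 : ℂ) = ((16777216 : ℝ) : ℂ) := by norm_num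
    rw [e16, Complex.im_ofReal_mul]
  have hdist : ‖s - ec‖ ≤ e := by
    refine le_trans ?_ her
    apply le_of_sq_le_sq _ (by positivity)
    have e1 : ‖s - ec‖ ^ 2 = (s.re - x) ^ 2 + (s.im - y) ^ 2 := by
      rw [Complex.sq_norm, Complex.normSq_apply, Complex.sub_re, Complex.sub_im]
      ring
    have e2 : (s.re - x) ^ 2 ≤ H ^ 2 := by
      rw [hsre, hxr]; apply sq_le_sq'
      · linarith only [h1]
      · linarith only [h2]
    have e3 : (s.im - y) ^ 2 ≤ H ^ 2 := by
      rw [hsim, hyr]; apply sq_le_sq'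
      · linarith only [h3]
      · linarith only [h4]
    rw [e1]
    nlinarith only [e2, e3]
  have hu : ‖ec‖ ≤ nrm x y N := by
    apply nrm_sound
    rw [hNr, Complex.sq_norm, Complex.normSq_apply, hec]
    simp only
    linarith only []
  set u := nrm x y N with hud
  have hsn : ‖s‖ ≤ u + e := by
    have : s = ec + (s - ec) := by ring
    rw [this]
    exact (norm_add_le _ _).trans (add_le_add hu hdist)
  have hsn2 : ‖s‖ ^ 2 = 16777216 ^ 2 * (ε.re ^ 2 + ε.im ^ 2) := by
    rw [Complex.sq_norm, Complex.normSq_apply, hsre, hsim]; ring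
  have hgn : ∀ τ : ℕ, (16777216:ℝ) ^ 2 + (τ:ℝ) ^ 2 ≤ (gnrm τ : ℝ) ^ 2 := by
    intro τ
    have h5 : √((16777216:ℝ) ^ 2 + (τ:ℝ) ^ 2) ≤ gnrm τ := by
      unfold gnrm
      apply nrm_sound
      rw [Real.sq_sqrt (by positivity)]
      push_cast
      linarith only []
    calc (16777216:ℝ) ^ 2 + (τ:ℝ) ^ 2 = √((16777216:ℝ) ^ 2 + (τ:ℝ) ^ 2) ^ 2 := by
          rw [Real.sq_sqrt (by positivity)]
      _ ≤ _ := pow_le_pow_left₀ (Real.sqrt_nonneg _) h5 2
  have hhn : ∀ τ : ℕ, (16777216:ℝ) ^ 2 + (τ:ℝ) ^ 2 ≤ 16777216 * hnrm τ := by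
    intro τ
    have h5 := div_lower (281474976710656 + τ * τ) 16777216 (by norm_num)
    unfold hnrm
    push_cast at h5 ⊢
    rw [sub_lt_iff_lt_add, div_lt_iff₀ (by norm_num)] at h5
    linarith only [h5]
  refine ⟨hp, by omega, hxy, ?_, ?_, hgn _, hgn _, hhn _, hhn _, ?_, ?_, ?_⟩
  · -- hK
    have h5 := div_lower ((2 * u + e) * e) 16777216 (by norm_num)
    have e0 : 16777216 * (1 / 4 - ε ^ 2) - (⟨((4194304 + y * y / 16777216 - x * x / 16777216 : ℕ) : ℝ),
        -((2 * x * y / 16777216 : ℕ) : ℝ)⟩ : ℂ) = (ec ^ 2 - s ^ 2) / 16777216 +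
        ((4194304 - ec ^ 2 / 16777216) - (⟨((4194304 + y * y / 16777216 - x * x / 16777216 : ℕ) : ℝ),
        -((2 * x * y / 16777216 : ℕ) : ℝ)⟩ : ℂ)) := by
      rw [hs]; ring
    rw [e0]
    have e1 : ‖(ec ^ 2 - s ^ 2) / 16777216‖ ≤ (2 * u + e) * e / 16777216 := by
      have h7 : ‖(16777216 : ℂ)‖ = 16777216 := by simp
      rw [norm_div, h7]
      apply div_le_div_of_nonneg_right _ (by norm_num)
      have e2 : ec ^ 2 - s ^ 2 = -((2 * ec + (s - ec)) * (s - ec)) := by ring
      rw [e2, norm_neg, norm_mul]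
      apply mul_le_mul _ hdist (norm_nonneg _) (by positivity)
      refine (norm_add_le _ _).trans ?_
      rw [norm_mul]
      have : ‖(2:ℂ)‖ = 2 := by simp
      rw [this]; linarith only [hdist, hu]
    have e3 : ‖(4194304 - ec ^ 2 / 16777216) - (⟨((4194304 + y * y / 16777216 - x * x / 16777216 : ℕ) : ℝ),
        -((2 * x * y / 16777216 : ℕ) : ℝ)⟩ : ℂ)‖ ≤ 3 / 2 * 1 := by
      have l1 := div_lower (x * x) 16777216 (by norm_num)
      have u1 := div_upper (x * x) 16777216
      have l2 := div_lower (y * y) 16777216 (by norm_num)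
      have u2 := div_upper (y * y) 16777216
      have l3 := div_lower (2 * x * y) 16777216 (by norm_num)
      have u3 := div_upper (2 * x * y) 16777216
      push_cast at l1 u1 l2 u2 l3 u3
      have e16 : (16777216 : ℂ) = ((16777216 : ℝ) : ℂ) := by norm_num
      have e41 : (4194304 : ℂ) = ((4194304 : ℝ) : ℂ) := by norm_num
      have hre : (ec ^ 2).re = (x:ℝ) ^ 2 - (y:ℝ) ^ 2 := by
        rw [pow_two, Complex.mul_re, hec]; ring
      have him : (ec ^ 2).im = 2 * (x:ℝ) * y := by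
        rw [pow_two, Complex.mul_im, hec]; ring
      apply norm_le_sqrt_two
      · rw [Complex.sub_re, Complex.sub_re, e16, Complex.div_ofReal_re, hre, e41, Complex.ofReal_re]
        simp only
        rw [Nat.cast_sub (by omega)]
        push_cast
        rw [abs_le]
        constructor <;> nlinarith
      · rw [Complex.sub_im, Complex.sub_im, e16, Complex.div_ofReal_im, him, e41, Complex.ofReal_im]
        simp only
        rw [abs_le]
        constructor <;> linarith
    have e4 := norm_add_le ((ec ^ 2 - s ^ 2) / 16777216)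
      ((4194304 - ec ^ 2 / 16777216) - (⟨((4194304 + y * y / 16777216 - x * x / 16777216 : ℕ) : ℝ),
        -((2 * x * y / 16777216 : ℕ) : ℝ)⟩ : ℂ))
    push_cast at h5 ⊢
    linarith only [e1, e3, e4, h5]
  · -- hE
    have h5 := div_lower ((u + e) * (u + e)) 16777216 (by norm_num)
    push_cast at h5 ⊢
    have e1 : ‖s‖ ^ 2 ≤ (u + e : ℝ) ^ 2 := pow_le_pow_left₀ (norm_nonneg _) hsn 2
    rw [hsn2] at e1
    have e2 : 16777216 * (ε.re ^ 2 + ε.im ^ 2) ≤ ((u:ℝ) + e) * (u + e) / 16777216 := by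
      rw [le_div_iff₀ (by norm_num)]
      linarith only [e1]
    linarith only [h5, e2]
  · -- ht1
    have h5 := div_upper (16777216 * Y) (X + 2 * H)
    rw [← ht1] at h5
    push_cast at h5
    have hpos : (0:ℝ) < X + 2 * H := by positivity
    rw [le_div_iff₀ hpos] at h5
    have e1 : (t1:ℝ) * (16777216 * ε.re) ≤ t1 * (X + 2 * H) := mul_le_mul_of_nonneg_left h2 (Nat.cast_nonneg _)
    linarith only [h3, h5, e1]
  · -- ht2
    rcases ht2 with h5 | ⟨h5, h6⟩
    · rw [h5]; push_cast; linarith only [hp.le]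
    · have hXpos : (0:ℝ) < X := by exact_mod_cast h5
      have h7 := div_lower (16777216 * (Y + 2 * H)) X h5
      rw [sub_lt_iff_lt_add] at h7
      have h8 : (16777216 * ((Y:ℝ) + 2 * H)) / X < t2 := by rw [h6]; push_cast at h7 ⊢; linarith only [h7]
      rw [div_lt_iff₀ hXpos] at h8
      have e1 : (t2:ℝ) * X ≤ t2 * (16777216 * ε.re) := mul_le_mul_of_nonneg_left h1 (Nat.cast_nonneg _)
      linarith only [h4, h8, e1]
  · -- hκ
    intro hpos
    have hv : ‖(⟨8388608 - x, -y⟩ : ℂ)‖ ≤ nrm (8388608 - x) y ((8388608 - x) * (8388608 - x) + y * y) := by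
      apply nrm_sound
      rw [Complex.sq_norm, Complex.normSq_apply]
      push_cast
      rw [Nat.cast_sub hxle]
      push_cast
      linarith only []
    set v := nrm (8388608 - x) y ((8388608 - x) * (8388608 - x) + y * y) with hvd
    clear_value v
    have e1 : 16777216 * (1 / 2 - ε) = (⟨8388608 - x, -y⟩ : ℂ) - (s - ec) := by
      have : (⟨8388608 - x, -y⟩ : ℂ) = 8388608 - ec := by
        apply Complex.ext
        · rw [Complex.sub_re, hec]; simp
        · rw [Complex.sub_im, hec]; simp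
      rw [this, hs]; ring
    have e2 : (⟨((545259520 - x : ℕ) : ℝ) - 536870912, -y⟩ : ℂ) = ⟨8388608 - x, -y⟩ := by
      rw [Nat.cast_sub (by omega)]
      apply Complex.ext
      · simp only; push_cast; ring
      · rfl
    rw [e2, e1]
    have e3 : (⟨8388608 - x, -y⟩ : ℂ) - (s - ec) - ⟨8388608 - x, -y⟩ = -(s - ec) := by ring
    rw [e3, norm_neg]
    have e4 := norm_sub_le (⟨8388608 - x, -y⟩ : ℂ) (s - ec)
    have e5 : 2 * v + 3 * e + 1 ≤ 16777216 := by omega
    rw [Nat.cast_sub e5]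
    push_cast
    linarith only [hdist, hv, e4]

theorem cell_sound {L : ℕ} {Ts : List (ℕ × List ℕ)} (hT : TestsOK L Ts) {X Y H n : ℕ}
    (hX : X + 2 * H ≤ 8388608) (hY : Y + 2 * H ≤ 8388608) (hH : 0 < H)
    (h : cell Ts X Y H n = true)
    {ε : ℂ} (hp : Par ε) (h1 : (X:ℝ) ≤ 16777216 * ε.re) (h2 : 16777216 * ε.re ≤ X + 2 * H)
    (h3 : (Y:ℝ) ≤ 16777216 * ε.im) (h4 : 16777216 * ε.im ≤ Y + 2 * H) (w : ℂ) : Concl L ε w := by
  unfold cell cell2 at h
  refine cell3_sound hT (cell_CD hX hY hH hp h1 h2 h3 h4 rfl rfl rfl rfl rfl ?_) h w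
  rcases X with _ | X
  · left; rfl
  · show Nat.min 16777216 (16777216 * (Y + 2 * H) / (X + 1) + 1) = 16777216 ∨ _
    rcases le_total 16777216 (16777216 * (Y + 2 * H) / (X + 1) + 1) with h5 | h5
    · left; exact Nat.min_eq_left h5
    · right; exact ⟨Nat.succ_pos _, Nat.min_eq_right h5⟩

/-- the conclusion holds for all parameters in the half open cell -/
def Cov (L X Y H : ℕ) : Prop := ∀ ε : ℂ, Par ε → (X:ℝ) ≤ 16777216 * ε.re → 16777216 * ε.re < X + 2 * H →
  (Y:ℝ) ≤ 16777216 * ε.im → 16777216 * ε.im < Y + 2 * H → ∀ w : ℂ, Concl L ε w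

lemma Cov.leaf {L : ℕ} {Ts : List (ℕ × List ℕ)} (hT : TestsOK L Ts) {X Y H n : ℕ}
    (h : cell Ts X Y H n = true)
    (hX : X + 2 * H ≤ 8388608) (hY : Y + 2 * H ≤ 8388608) (hH : 0 < H) : Cov L X Y H :=
  fun _ hp h1 h2 h3 h4 w => cell_sound hT hX hY hH h hp h1 h2.le h3 h4.le w

lemma Cov.out {L X Y H : ℕ} (h : 8388608 * 8388608 ≤ X * X + Y * Y) : Cov L X Y H := by
  intro ε hp h1 _ h3 _ w
  exfalso
  have h5 : (8388608:ℝ) * 8388608 ≤ (X:ℝ) * X + (Y:ℝ) * Y := by exact_mod_cast h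
  have h6 := hp.lt_half
  have h7 := Complex.sq_norm ε
  rw [Complex.normSq_apply] at h7
  have h8 : ‖ε‖ ^ 2 < 1 / 4 := by nlinarith only [h6, norm_nonneg ε]
  have h9 : (X:ℝ) * X ≤ (16777216 * ε.re) * (16777216 * ε.re) :=
    mul_le_mul h1 h1 (Nat.cast_nonneg _) ((Nat.cast_nonneg _).trans h1)
  have h10 : (Y:ℝ) * Y ≤ (16777216 * ε.im) * (16777216 * ε.im) :=
    mul_le_mul h3 h3 (Nat.cast_nonneg _) ((Nat.cast_nonneg _).trans h3)
  linarith only [h5, h7, h8, h9, h10]

lemma Cov.above {L X Y H : ℕ} (h : X + 2 * H ≤ Y) : Cov L X Y H := by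
  intro ε hp _ h2 h3 _ w
  exfalso
  have h5 : (X:ℝ) + 2 * H ≤ Y := by exact_mod_cast h
  have := hp.le
  linarith

lemma Cov.node {L X Y H X' Y' h : ℕ} (hH : H = 2 * h) (hX : X' = X + H) (hY : Y' = Y + H)
    (c1 : Cov L X Y h) (c2 : Cov L X Y' h) (c3 : Cov L X' Y h) (c4 : Cov L X' Y' h) :
    Cov L X Y H := by
  intro ε hp h1 h2 h3 h4 w
  have e1 : (H:ℝ) = 2 * h := by rw [hH]; push_cast; ring
  have e2 : (X':ℝ) = X + H := by rw [hX]; push_cast; ring
  have e3 : (Y':ℝ) = Y + H := by rw [hY]; push_cast; ring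
  rcases lt_or_ge (16777216 * ε.re) (X':ℝ) with r1 | r1
  · rcases lt_or_ge (16777216 * ε.im) (Y':ℝ) with r2 | r2
    · exact c1 ε hp h1 (by linarith) h3 (by linarith only [e1, e3, r2]) w
    · exact c2 ε hp h1 (by linarith only [e1, e2, r1]) r2 (by linarith) w
  · rcases lt_or_ge (16777216 * ε.im) (Y':ℝ) with r2 | r2
    · exact c3 ε hp r1 (by linarith) h3 (by linarith) w
    · exact c4 ε hp r1 (by linarith) r2 (by linarith) w

theorem Cov.cert {L : ℕ} (h : Cov L 0 0 4194304) : Cert L := by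
  intro ε h1 h2 h3 h4 w
  have hre : ε.re < 1 / 2 := (Complex.re_le_norm ε).trans_lt h4
  have h5 := h ε ⟨h1, h2, h3, h4⟩ (by push_cast; linarith) (by push_cast; linarith)
    (by push_cast; linarith) (by push_cast; linarith) w
  exact h5

end Pool.Agent.W_MP_4481e3_an.Ev
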