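import Pool.Agent.W_MP_4481e3_low.SndC

/-!
The tests.
-/

namespace Pool.Agent.W_MP_4481e3_an.Ev

/-- tests for `L = 5`: radius and cosines -/
def tab5 : List (ℕ × List ℕ) := [
  (60838, [527087, 11592771]),
  (243350, [2075230, 30350269]),
  (119242, [1027875, 19920953, 30350269]),
  (155744, [1338288, 23920607, 30350269]),
  (350424, [2960632, 33422139, 30350269]),
  (411261, [3456268, 33422139, 30350269])]

theorem tests5 : TestsOK 5 tab5 :=
  testsChk_sound (l := [(1, 2), (2, 2), (7, 3), (8, 3), (12, 3), (13, 3)]) (by norm_num) (by decide +kernel)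

/-- tests for `L = 4`: radius and cosines -/
def tab4 : List (ℕ × List ℕ) := [
  (249037, [1277090, 16777216]),
  (15565, [80787, 1277090, 16777216]),
  (62260, [322370, 4913933, 33554432]),
  (140084, [722421, 10356853, 16777216]),
  (389121, [1981032, 23197579, 16777216]),
  (560333, [2827471, 28640499, 33554432])]

theorem tests4 : TestsOK 4 tab4 :=
  testsChk_sound (l := [(1, 2), (1, 3), (2, 3), (3, 3), (5, 3), (6, 3)]) (by norm_num) (by decide +kernel)

/-- tests for `L = 3`: radius and cosines -/
def tab3 : List (ℕ × List ℕ) := [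
  (1661612, [3925123, 25165824]),
  (184624, [452232, 3925123, 25165824]),
  (738495, [1784548, 13863883, 25165824]),
  (20514, [50450, 452232, 3925123, 25165824]),
  (328220, [801148, 6758557, 32542642, 25165824]),
  (512844, [1246145, 10132100, 32542642, 25165824]),
  (2280, [5608, 50450, 452232, 3925123, 25165824]),
  (9118, [22429, 201497, 1784548, 13863883, 25165824]),
  (36469, [89654, 801148, 6758557, 32542642, 25165824]),
  (56983, [140014, 1246145, 10132100, 32542642, 25165824]),
  (145876, [357658, 3128077, 21588976, 3925123, 25165824]),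
  (227931, [557720, 4799463, 28290440, 3925123, 25165824]),
  (275796, [674051, 5745838, 30794375, 13863883, 25165824]),
  (385203, [938925, 7831530, 33440990, 32542642, 25165824]),
  (446744, [1087290, 8958303, 33440990, 32542642, 25165824]),
  (583502, [1415383, 11345862, 30794375, 13863883, 25165824]),
  (658719, [1594891, 12592288, 28290440, 3925123, 25165824])]

theorem tests3 : TestsOK 3 tab3 :=
  testsChk_sound (l := [(1, 2), (1, 3), (2, 3), (1, 4), (4, 4), (5, 4), (1, 5), (2, 5), (4, 5), (5, 5), (8, 5), (10, 5), (11, 5), (13, 5), (14, 5), (16, 5), (17, 5)]) (by norm_num) (by decide +kernel)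

end Pool.Agent.W_MP_4481e3_an.Ev
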